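import Mathlib

open Real Set Polynomial

namespace Pool.Agent.Lead.Kac

/-- sign changes on disjoint intervals inside `U` give distinct roots in `U` -/
lemma card_le_roots_in (p : ℝ[X]) (s : Finset ℕ) (l r : ℕ → ℝ) (U : Set ℝ) [DecidablePred (· ∈ U)]
    (hlr : ∀ i ∈ s, l i < r i)
    (hU : ∀ i ∈ s, Ioo (l i) (r i) ⊆ U)
    (hdis : ∀ i ∈ s, ∀ j ∈ s, i < j → r i ≤ l j ∨ r j ≤ l i)
    (hsign : ∀ i ∈ s, p.eval (l i) * p.eval (r i) < 0) :
    s.card ≤ (p.roots.toFinset.filter (· ∈ U)).card := by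
  have hex : ∀ i ∈ s, ∃ z ∈ Ioo (l i) (r i), p.eval z = 0 := by
    intro i hi
    have hc : ContinuousOn (fun x => p.eval x) (Icc (l i) (r i)) := p.continuous.continuousOn
    rcases mul_neg_iff.1 (hsign i hi) with ⟨h1, h2⟩ | ⟨h1, h2⟩
    · obtain ⟨z, hz, hz2⟩ := intermediate_value_Ioo' (hlr i hi).le hc (show (0 : ℝ) ∈ Ioo _ _ from ⟨h2, h1⟩)
      exact ⟨z, hz, hz2⟩
    · obtain ⟨z, hz, hz2⟩ := intermediate_value_Ioo (hlr i hi).le hc (show (0 : ℝ) ∈ Ioo _ _ from ⟨h1, h2⟩)
      exact ⟨z, hz, hz2⟩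
  choose! z hz1 hz2 using hex
  apply Finset.card_le_card_of_injOn z
  · intro i hi
    have hp : p ≠ 0 := by
      rintro rfl
      have := hsign i hi
      simp at this
    simp only [Finset.coe_filter, mem_ofPred_eq, Multiset.mem_toFinset, mem_roots hp, IsRoot]
    exact ⟨hz2 i hi, hU i hi (hz1 i hi)⟩
  · intro i hi j hj hij
    by_contra hne
    rcases lt_or_gt_of_ne hne with h | h
    · have h1 := hz1 i hi
      have h2 := hz1 j hj
      rw [← hij] at h2
      rcases hdis i hi j hj h with h3 | h3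
      · linarith [h1.2, h2.1]
      · linarith [h1.1, h2.2]
    · have h1 := hz1 i hi
      have h2 := hz1 j hj
      rw [← hij] at h2
      rcases hdis j hj i hi h with h3 | h3
      · linarith [h1.1, h2.2]
      · linarith [h1.2, h2.1]

lemma five_sum (S : Finset ℝ) (U : Fin 5 → Set ℝ) [∀ i, DecidablePred (· ∈ U i)]
    (hU : ∀ i j, i ≠ j → Disjoint (U i) (U j)) :
    ∑ i, (S.filter (· ∈ U i)).card ≤ S.card := by
  rw [← Finset.card_biUnion]
  · apply Finset.card_le_card
    intro x hx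
    simp only [Finset.mem_biUnion, Finset.mem_filter] at hx
    obtain ⟨i, _, hx, _⟩ := hx
    exact hx
  · intro i _ j _ hij
    change Disjoint _ _
    rw [Finset.disjoint_left]
    intro x hx hx'
    simp only [Finset.mem_filter] at hx hx'
    exact Set.disjoint_left.1 (hU i j hij) hx.2 hx'.2

/-- linear form in the first `N` coordinates -/
def lin (N : ℕ) (c : ℕ → ℝ) (ω : ℕ → ℝ) : ℝ := ∑ k ∈ Finset.range N, c k * ω k

/-- the random polynomial -/
noncomputable def pp (D : ℕ) (ω : ℕ → ℝ) : ℝ[X] := ∑ i ∈ Finset.range (D + 1), C (ω i) * X ^ i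

lemma eval_pp (D : ℕ) (ω : ℕ → ℝ) (x : ℝ) :
    (pp D ω).eval x = lin (D + 1) (fun k => x ^ k) ω := by
  unfold pp lin
  rw [eval_finsetSum]
  apply Finset.sum_congr rfl
  intro k _
  rw [eval_mul, eval_C, eval_pow, eval_X, mul_comm]

lemma eval_pp_inv (D : ℕ) (ω : ℕ → ℝ) {y : ℝ} (hy : y ≠ 0) :
    (pp D ω).eval (1 / y) * y ^ D = lin (D + 1) (fun k => y ^ (D - k)) ω := by
  rw [eval_pp]
  unfold lin
  rw [Finset.sum_mul]
  apply Finset.sum_congr rfl
  intro k hk
  have hk' : k ≤ D := Nat.lt_succ_iff.1 (Finset.mem_range.1 hk)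
  have : y ^ D = y ^ (D - k) * y ^ k := by rw [← pow_add, Nat.sub_add_cancel hk']
  simp only [this, one_div, inv_pow]
  field_simp

lemma sign_inv (D : ℕ) (ω : ℕ → ℝ) {y y' : ℝ} (hyy : 0 < y * y')
    (h : lin (D + 1) (fun k => y ^ (D - k)) ω * lin (D + 1) (fun k => y' ^ (D - k)) ω < 0) :
    (pp D ω).eval (1 / y) * (pp D ω).eval (1 / y') < 0 := by
  have hy : y ≠ 0 := left_ne_zero_of_mul hyy.ne'
  have hy' : y' ≠ 0 := right_ne_zero_of_mul hyy.ne'
  rw [← eval_pp_inv D ω hy, ← eval_pp_inv D ω hy'] at h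
  have h2 : (pp D ω).eval (1 / y) * y ^ D * ((pp D ω).eval (1 / y') * y' ^ D) =
      ((pp D ω).eval (1 / y) * (pp D ω).eval (1 / y')) * (y * y') ^ D := by
    rw [mul_pow]; ring
  rw [h2] at h
  by_contra hc
  push Not at hc
  have : 0 ≤ ((pp D ω).eval (1 / y) * (pp D ω).eval (1 / y')) * (y * y') ^ D :=
    mul_nonneg hc (pow_pos hyy _).le
  linarith

/-- grid -/
noncomputable def xs (h : ℝ) (i : ℕ) : ℝ := 1 - 2 / (rexp (2 * (i * h)) + 1)

lemma xs_zero (h : ℝ) : xs h 0 = 0 := by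
  unfold xs; norm_num

lemma xs_lt_one (h : ℝ) (i : ℕ) : xs h i < 1 := by
  unfold xs
  have : 0 < 2 / (rexp (2 * (i * h)) + 1) := by positivity
  linarith

lemma xs_mono {h : ℝ} (hh : 0 ≤ h) {i j : ℕ} (hij : i ≤ j) : xs h i ≤ xs h j := by
  unfold xs
  have : rexp (2 * (i * h)) ≤ rexp (2 * (j * h)) := by
    apply exp_le_exp.2
    have : (i : ℝ) ≤ j := by exact_mod_cast hij
    nlinarith
  have h2 : 2 / (rexp (2 * (j * h)) + 1) ≤ 2 / (rexp (2 * (i * h)) + 1) := by
    apply div_le_div_of_nonneg_left (by norm_num) (by positivity)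
    linarith
  linarith

lemma xs_strict {h : ℝ} (hh : 0 < h) {i j : ℕ} (hij : i < j) : xs h i < xs h j := by
  unfold xs
  have : rexp (2 * (i * h)) < rexp (2 * (j * h)) := by
    apply exp_lt_exp.2
    have : (i : ℝ) < j := by exact_mod_cast hij
    nlinarith
  have h2 : 2 / (rexp (2 * (j * h)) + 1) < 2 / (rexp (2 * (i * h)) + 1) := by
    apply div_lt_div_of_pos_left (by norm_num) (by positivity)
    linarith
  linarith

lemma xs_nonneg {h : ℝ} (hh : 0 ≤ h) (i : ℕ) : 0 ≤ xs h i := by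
  rw [← xs_zero h]; exact xs_mono hh (Nat.zero_le _)

lemma xs_pos {h : ℝ} (hh : 0 < h) {i : ℕ} (hi : 0 < i) : 0 < xs h i := by
  rw [← xs_zero h]; exact xs_strict hh hi

open Classical in
/-- number of indices in `s` for which the event holds -/
noncomputable def cnt (s : Finset ℕ) (e : ℕ → Set (ℕ → ℝ)) (ω : ℕ → ℝ) : ℕ :=
  (s.filter (fun i => ω ∈ e i)).card

/-- sign change event for two linear forms -/
def chg (N : ℕ) (c d : ℕ → ℝ) : Set (ℕ → ℝ) := {ω | lin N c ω * lin N d ω < 0}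

/-- inner cells -/
noncomputable def ev1 (σ h : ℝ) (D i : ℕ) : Set (ℕ → ℝ) :=
  chg (D + 1) (fun k => (σ * xs h i) ^ k) (fun k => (σ * xs h (i + 1)) ^ k)

/-- outer cells -/
noncomputable def ev2 (σ h : ℝ) (D i : ℕ) : Set (ℕ → ℝ) :=
  chg (D + 1) (fun k => (σ * xs h i) ^ (D - k)) (fun k => (σ * xs h (i + 1)) ^ (D - k))

/-- cells for general sample points -/
noncomputable def ev3 (z : ℕ → ℝ) (D j : ℕ) : Set (ℕ → ℝ) :=
  chg (D + 1) (fun k => z j ^ (D - k)) (fun k => z (j + 1) ^ (D - k))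

/-- robust count -/
noncomputable def Rc (h : ℝ) (I0 I D : ℕ) (ω : ℕ → ℝ) : ℕ :=
  cnt (Finset.range I) (ev1 1 h D) ω + cnt (Finset.range I) (ev1 (-1) h D) ω +
    (cnt (Finset.Ico I0 I) (ev2 1 h D) ω + cnt (Finset.Ico I0 I) (ev2 (-1) h D) ω)

/-- window count -/
noncomputable def Wc (z : ℕ → ℝ) (J D : ℕ) (ω : ℕ → ℝ) : ℕ := cnt (Finset.Ico 1 J) (ev3 z D) ω

lemma det_count {h : ℝ} (hh : 0 < h) {I0 I J D : ℕ} (hI0 : 0 < I0) (z : ℕ → ℝ)
    (hz0 : 0 < z 1) (hz : StrictMono z) (hzJ : z J ≤ xs h I0) (ω : ℕ → ℝ) :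
    Rc h I0 I D ω + Wc z J D ω ≤ (pp D ω).roots.card := by
  classical
  have hzpos : ∀ j, 1 ≤ j → 0 < z j := fun j hj => lt_of_lt_of_le hz0 (hz.monotone hj)
  have hx0 : 0 < xs h I0 := xs_pos hh hI0
  let U : Fin 5 → Set ℝ := ![Ioo 0 1, Ioo (-1) 0, Ioo 1 (1 / xs h I0), Iio (-1), Ioi (1 / xs h I0)]
  have h1x : 1 < 1 / xs h I0 := by
    rw [lt_div_iff₀ hx0]; linarith [xs_lt_one h I0]
  have hU : ∀ i j, i ≠ j → Disjoint (U i) (U j) := by
    have key : ∀ i j, i < j → Disjoint (U i) (U j) := by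
      intro i j hij
      rw [Set.disjoint_left]
      intro x hx hx'
      have h1x' : 1 < (xs h I0)⁻¹ := by rwa [one_div] at h1x
      fin_cases i <;> fin_cases j <;> simp [U] at hij hx hx' <;> linarith
    intro i j hij
    rcases lt_or_gt_of_ne hij with h | h
    · exact key i j h
    · exact (key j i h).symm
  have h5 := five_sum (pp D ω).roots.toFinset U hU
  have hle : (pp D ω).roots.toFinset.card ≤ (pp D ω).roots.card := Multiset.toFinset_card_le _
  refine le_trans ?_ (h5.trans hle)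
  rw [Fin.sum_univ_five]
  have c0 : cnt (Finset.range I) (ev1 1 h D) ω ≤ ((pp D ω).roots.toFinset.filter (· ∈ U 0)).card := by
    apply card_le_roots_in (pp D ω) _ (fun i => xs h i) (fun i => xs h (i + 1))
    · intro i _; exact xs_strict hh (Nat.lt_succ_self i)
    · intro i _ x hx
      exact ⟨lt_of_le_of_lt (xs_nonneg hh.le i) hx.1, hx.2.trans (xs_lt_one _ _)⟩
    · intro i _ j _ hij
      left
      exact xs_mono hh.le hij
    · intro i hi
      have := (Finset.mem_filter.1 hi).2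
      simp only [ev1, chg, mem_ofPred_eq, one_mul] at this
      rw [eval_pp, eval_pp]
      exact this
  have c1 : cnt (Finset.range I) (ev1 (-1) h D) ω ≤ ((pp D ω).roots.toFinset.filter (· ∈ U 1)).card := by
    apply card_le_roots_in (pp D ω) _ (fun i => -xs h (i + 1)) (fun i => -xs h i)
    · intro i _; exact neg_lt_neg (xs_strict hh (Nat.lt_succ_self i))
    · intro i _ x hx
      exact ⟨lt_trans (neg_lt_neg (xs_lt_one _ _)) hx.1, lt_of_lt_of_le hx.2 (neg_nonpos.2 (xs_nonneg hh.le i))⟩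
    · intro i _ j _ hij
      right
      exact neg_le_neg (xs_mono hh.le hij)
    · intro i hi
      have := (Finset.mem_filter.1 hi).2
      simp only [ev1, chg, mem_ofPred_eq, neg_mul, one_mul] at this
      rw [eval_pp, eval_pp, mul_comm]
      exact this
  have c2 : cnt (Finset.Ico I0 I) (ev2 1 h D) ω ≤ ((pp D ω).roots.toFinset.filter (· ∈ U 2)).card := by
    apply card_le_roots_in (pp D ω) _ (fun i => 1 / xs h (i + 1)) (fun i => 1 / xs h i)
    · intro i hi
      have hi' := (Finset.mem_Ico.1 (Finset.mem_filter.1 hi).1).1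
      exact one_div_lt_one_div_of_lt (xs_pos hh (lt_of_lt_of_le hI0 hi')) (xs_strict hh (Nat.lt_succ_self i))
    · intro i hi x hx
      have hi' := (Finset.mem_Ico.1 (Finset.mem_filter.1 hi).1).1
      refine ⟨lt_trans ?_ hx.1, lt_of_lt_of_le hx.2 ?_⟩
      · rw [lt_div_iff₀ (xs_pos hh (Nat.succ_pos _))]
        linarith [xs_lt_one h (i + 1)]
      · exact one_div_le_one_div_of_le hx0 (xs_mono hh.le hi')
    · intro i hi j _ hij
      right
      have hi' := (Finset.mem_Ico.1 (Finset.mem_filter.1 hi).1).1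
      exact one_div_le_one_div_of_le (xs_pos hh (Nat.succ_pos _)) (xs_mono hh.le hij)
    · intro i hi
      have hi' := (Finset.mem_Ico.1 (Finset.mem_filter.1 hi).1).1
      have := (Finset.mem_filter.1 hi).2
      simp only [ev2, chg, mem_ofPred_eq, one_mul] at this
      rw [mul_comm]
      exact sign_inv D ω (mul_pos (xs_pos hh (lt_of_lt_of_le hI0 hi')) (xs_pos hh (Nat.succ_pos _))) this
  have c3 : cnt (Finset.Ico I0 I) (ev2 (-1) h D) ω ≤ ((pp D ω).roots.toFinset.filter (· ∈ U 3)).card := by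
    apply card_le_roots_in (pp D ω) _ (fun i => 1 / (-xs h i)) (fun i => 1 / (-xs h (i + 1)))
    · intro i hi
      have hi' := (Finset.mem_Ico.1 (Finset.mem_filter.1 hi).1).1
      have hp := xs_pos hh (lt_of_lt_of_le hI0 hi')
      have := one_div_lt_one_div_of_lt hp (xs_strict hh (Nat.lt_succ_self i))
      rw [one_div_neg_eq_neg_one_div, one_div_neg_eq_neg_one_div]
      exact neg_lt_neg this
    · intro i hi x hx
      have hi' := (Finset.mem_Ico.1 (Finset.mem_filter.1 hi).1).1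
      have : (1 : ℝ) < 1 / xs h (i + 1) := by
        rw [lt_div_iff₀ (xs_pos hh (Nat.succ_pos _))]
        linarith [xs_lt_one h (i + 1)]
      have h2 := hx.2
      rw [one_div_neg_eq_neg_one_div] at h2
      show x < -1
      linarith
    · intro i hi j _ hij
      left
      have hi' := (Finset.mem_Ico.1 (Finset.mem_filter.1 hi).1).1
      have := one_div_le_one_div_of_le (xs_pos hh (Nat.succ_pos i)) (xs_mono hh.le hij)
      rw [one_div_neg_eq_neg_one_div, one_div_neg_eq_neg_one_div]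
      exact neg_le_neg this
    · intro i hi
      have hi' := (Finset.mem_Ico.1 (Finset.mem_filter.1 hi).1).1
      have := (Finset.mem_filter.1 hi).2
      simp only [ev2, chg, mem_ofPred_eq, neg_mul, one_mul] at this
      apply sign_inv D ω _ this
      rw [neg_mul_neg]
      exact mul_pos (xs_pos hh (lt_of_lt_of_le hI0 hi')) (xs_pos hh (Nat.succ_pos _))
  have c4 : Wc z J D ω ≤ ((pp D ω).roots.toFinset.filter (· ∈ U 4)).card := by
    unfold Wc
    apply card_le_roots_in (pp D ω) _ (fun i => 1 / z (i + 1)) (fun i => 1 / z i)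
    · intro i hi
      have hi' := (Finset.mem_Ico.1 (Finset.mem_filter.1 hi).1)
      exact one_div_lt_one_div_of_lt (hzpos i hi'.1) (hz (Nat.lt_succ_self i))
    · intro i hi x hx
      have hi' := (Finset.mem_Ico.1 (Finset.mem_filter.1 hi).1)
      show 1 / xs h I0 < x
      refine lt_of_le_of_lt ?_ hx.1
      exact one_div_le_one_div_of_le (hzpos _ (by omega)) ((hz.monotone hi'.2).trans hzJ)
    · intro i hi j _ hij
      right
      exact one_div_le_one_div_of_le (hzpos _ (by omega)) (hz.monotone hij)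
    · intro i hi
      have hi' := (Finset.mem_Ico.1 (Finset.mem_filter.1 hi).1)
      have := (Finset.mem_filter.1 hi).2
      simp only [ev3, chg, mem_ofPred_eq] at this
      rw [mul_comm]
      exact sign_inv D ω (mul_pos (hzpos i hi'.1) (hzpos (i + 1) (by omega))) this
  unfold Rc
  omega

end Pool.Agent.Lead.Kac
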