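import Mathlib

open MeasureTheory ProbabilityTheory Real Set
open scoped ENNReal NNReal

namespace Pool.Agent.Lead.Kac

lemma prod_eq_withDensity :
    (gaussianReal 0 1).prod (gaussianReal 0 1) =
      (volume : Measure (ℝ × ℝ)).withDensity
        (fun p => gaussianPDF 0 1 p.1 * gaussianPDF 0 1 p.2) := by
  rw [gaussianReal_of_var_ne_zero 0 (one_ne_zero)]
  rw [prod_withDensity (measurable_gaussianPDF 0 1) (measurable_gaussianPDF 0 1)]
  rfl

lemma pdf_mul (r θ : ℝ) :
    gaussianPDF 0 1 (r * cos θ) * gaussianPDF 0 1 (r * sin θ) =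
      ENNReal.ofReal ((2 * π)⁻¹ * rexp (- r ^ 2 / 2)) := by
  unfold gaussianPDF gaussianPDFReal
  rw [← ENNReal.ofReal_mul (by positivity)]
  congr 1
  have h1 : (√(2 * π * (1 : ℝ≥0)))⁻¹ * (√(2 * π * (1 : ℝ≥0)))⁻¹ = (2 * π)⁻¹ := by
    rw [← mul_inv, NNReal.coe_one, mul_one, mul_self_sqrt (by positivity)]
  calc _ = ((√(2 * π * (1 : ℝ≥0)))⁻¹ * (√(2 * π * (1 : ℝ≥0)))⁻¹) *
      (rexp (-(r * cos θ - 0) ^ 2 / (2 * (1 : ℝ≥0))) *
        rexp (-(r * sin θ - 0) ^ 2 / (2 * (1 : ℝ≥0)))) := by ring
    _ = _ := by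
      rw [h1, ← exp_add]
      congr 2
      have := sin_sq_add_cos_sq θ
      push_cast
      linear_combination (- r ^ 2 / 2) * this

lemma lint_r : ∫⁻ r in Ioi (0 : ℝ), ENNReal.ofReal (r * ((2 * π)⁻¹ * rexp (- r ^ 2 / 2))) =
    ENNReal.ofReal ((2 * π)⁻¹) := by
  have h := integral_mul_cexp_neg_mul_sq (b := (1/2 : ℂ)) (by norm_num)
  have h2 : ∫ r in Ioi (0 : ℝ), r * ((2 * π)⁻¹ * rexp (- r ^ 2 / 2)) = (2 * π)⁻¹ := by
    have h3 : ∫ r in Ioi (0 : ℝ), r * rexp (- (1 / 2) * r ^ 2) = 1 := by
      have := integral_mul_cexp_neg_mul_sq (b := (1/2 : ℂ)) (by norm_num)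
      have h4 : ∫ r : ℝ in Ioi 0, (r : ℂ) * Complex.exp (-(1 / 2 : ℂ) * r ^ 2) =
          ((∫ r in Ioi (0 : ℝ), r * rexp (- (1 / 2) * r ^ 2) : ℝ) : ℂ) := by
        rw [← integral_complex_ofReal]
        congr 1
        ext r
        push_cast
        rfl
      rw [h4] at this
      have h5 : ((∫ r in Ioi (0 : ℝ), r * rexp (- (1 / 2) * r ^ 2) : ℝ) : ℂ) = ((1 : ℝ) : ℂ) := by
        rw [this]; norm_num
      exact_mod_cast h5
    have : (fun r : ℝ => r * ((2 * π)⁻¹ * rexp (- r ^ 2 / 2))) =
        fun r => (2 * π)⁻¹ * (r * rexp (- (1 / 2) * r ^ 2)) := by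
      ext r
      rw [show - r ^ 2 / 2 = - (1 / 2) * r ^ 2 by ring]
      ring
    rw [this, integral_const_mul, h3, mul_one]
  have hint : Integrable (fun r : ℝ => r * ((2 * π)⁻¹ * rexp (- r ^ 2 / 2)))
      (volume.restrict (Ioi (0 : ℝ))) := by
    by_contra hc
    rw [integral_undef hc] at h2
    have : (0 : ℝ) < (2 * π)⁻¹ := by positivity
    linarith
  have h6 := ofReal_integral_eq_lintegral_ofReal hint (by
    refine (ae_restrict_iff' measurableSet_Ioi).2 (Filter.Eventually.of_forall ?_)
    intro r hr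
    have : (0 : ℝ) < r := hr
    simp only [Pi.zero_apply]
    positivity)
  rw [← h6, h2]

/-- The standard Gaussian measure of a planar wedge of angle `φ`. -/
lemma gauss_wedge {φ : ℝ} (h0 : 0 ≤ φ) (hπ : φ ≤ π) :
    ((gaussianReal 0 1).prod (gaussianReal 0 1))
      {p : ℝ × ℝ | 0 < p.1 ∧ cos φ * p.1 + sin φ * p.2 < 0} = ENNReal.ofReal (φ / (2 * π)) := by
  have hm : MeasurableSet {p : ℝ × ℝ | 0 < p.1 ∧ cos φ * p.1 + sin φ * p.2 < 0} := by
    apply MeasurableSet.inter
    · exact measurableSet_lt measurable_const measurable_fst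
    · exact measurableSet_lt (f := fun p : ℝ × ℝ => cos φ * p.1 + sin φ * p.2)
        (by fun_prop) measurable_const
  rw [prod_eq_withDensity, withDensity_apply _ hm, ← lintegral_indicator hm,
    ← lintegral_comp_polarCoord_symm]
  have hset : ∀ p : ℝ × ℝ, p ∈ polarCoord.target →
      ENNReal.ofReal p.1 • ({p : ℝ × ℝ | 0 < p.1 ∧ cos φ * p.1 + sin φ * p.2 < 0}.indicator
        (fun p => gaussianPDF 0 1 p.1 * gaussianPDF 0 1 p.2) (polarCoord.symm p)) =
      ENNReal.ofReal (p.1 * ((2 * π)⁻¹ * rexp (- p.1 ^ 2 / 2))) *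
        (Ioo (-(π / 2)) (φ - π / 2)).indicator 1 p.2 := by
    rintro ⟨r, θ⟩ hp
    rw [polarCoord_target] at hp
    obtain ⟨hr, hθ⟩ := hp
    simp only [mem_Ioi, mem_Ioo] at hr hθ
    have hiff : (polarCoord.symm (r, θ) ∈ {p : ℝ × ℝ | 0 < p.1 ∧ cos φ * p.1 + sin φ * p.2 < 0})
        ↔ θ ∈ Ioo (-(π / 2)) (φ - π / 2) := by
      simp only [polarCoord_symm_apply, mem_ofPred_eq, mem_Ioo]
      have e1 : cos φ * (r * cos θ) + sin φ * (r * sin θ) = r * cos (θ - φ) := by
        rw [cos_sub]; ring
      rw [e1]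
      constructor
      · rintro ⟨h1, h2⟩
        have c1 : 0 < cos θ := by
          by_contra hc
          push Not at hc
          have : r * cos θ ≤ 0 := mul_nonpos_of_nonneg_of_nonpos hr.le hc
          linarith
        have c2 : cos (θ - φ) < 0 := by
          by_contra hc
          push Not at hc
          have : 0 ≤ r * cos (θ - φ) := mul_nonneg hr.le hc
          linarith
        have c3 : -(π / 2) < θ := by
          by_contra hc
          push Not at hc
          have : cos θ ≤ 0 := by
            rw [← cos_neg]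
            apply cos_nonpos_of_pi_div_two_le_of_le
            · linarith
            · linarith
          linarith
        have c4 : θ < π / 2 := by
          by_contra hc
          push Not at hc
          have : cos θ ≤ 0 := by
            apply cos_nonpos_of_pi_div_two_le_of_le
            · linarith
            · linarith
          linarith
        refine ⟨c3, ?_⟩
        by_contra hc
        push Not at hc
        have : 0 ≤ cos (θ - φ) := by
          apply cos_nonneg_of_mem_Icc
          constructor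
          · linarith
          · linarith
        linarith
      · rintro ⟨h1, h2⟩
        constructor
        · apply mul_pos hr
          apply cos_pos_of_mem_Ioo
          constructor
          · linarith
          · linarith
        · apply mul_neg_of_pos_of_neg hr
          rw [← cos_neg]
          apply cos_neg_of_pi_div_two_lt_of_lt
          · linarith
          · linarith
    by_cases hin : θ ∈ Ioo (-(π / 2)) (φ - π / 2)
    · rw [indicator_of_mem (hiff.2 hin), indicator_of_mem hin]
      simp only [polarCoord_symm_apply, pdf_mul, Pi.one_apply, mul_one, smul_eq_mul]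
      rw [← ENNReal.ofReal_mul hr.le]
    · rw [indicator_of_notMem (fun h => hin (hiff.1 h)), indicator_of_notMem hin]
      simp
  rw [setLIntegral_congr_fun polarCoord.open_target.measurableSet hset]
  rw [polarCoord_target]
  have : (volume : Measure (ℝ × ℝ)).restrict (Ioi 0 ×ˢ Ioo (-π) π) =
      (volume.restrict (Ioi 0)).prod (volume.restrict (Ioo (-π) π)) := by
    rw [Measure.prod_restrict]; rfl
  rw [this, lintegral_prod_mul (f := fun r : ℝ => ENNReal.ofReal (r * ((2 * π)⁻¹ * rexp (- r ^ 2 / 2))))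
    (g := fun θ : ℝ => (Ioo (-(π / 2)) (φ - π / 2)).indicator 1 θ)]
  · rw [lint_r, lintegral_indicator measurableSet_Ioo, Measure.restrict_restrict measurableSet_Ioo]
    simp only [Pi.one_apply, lintegral_const, MeasurableSet.univ, Measure.restrict_apply,
      univ_inter, one_mul]
    have hinter : Ioo (-(π / 2)) (φ - π / 2) ∩ Ioo (-π) π = Ioo (-(π / 2)) (φ - π / 2) := by
      apply inter_eq_left.2
      intro x hx
      simp only [mem_Ioo] at hx ⊢
      have := pi_pos
      constructor <;> linarith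
    rw [hinter, volume_Ioo, ← ENNReal.ofReal_mul (by positivity)]
    congr 1
    field_simp
    ring
  · exact (Measurable.ennreal_ofReal (by fun_prop)).aemeasurable
  · exact (measurable_one.indicator measurableSet_Ioo).aemeasurable

end Pool.Agent.Lead.Kac
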