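import Mathlib
import Pool.Agent.Lead.Wedge

open MeasureTheory ProbabilityTheory Real Set
open scoped ENNReal NNReal RealInnerProductSpace

namespace Pool.Agent.Lead.Kac

section
variable {E : Type*} [NormedAddCommGroup E] [InnerProductSpace ℝ E] [FiniteDimensional ℝ E]
  [MeasurableSpace E] [BorelSpace E]
variable {F : Type*} [NormedAddCommGroup F] [InnerProductSpace ℝ F] [FiniteDimensional ℝ F]
  [MeasurableSpace F] [BorelSpace F]

/-- pair of linear functionals -/
noncomputable def pairCLM (v w : E) : E →L[ℝ] ℝ × ℝ := (innerSL ℝ v).prod (innerSL ℝ w)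

omit [FiniteDimensional ℝ E] [MeasurableSpace E] [BorelSpace E] in
lemma pairCLM_apply (v w x : E) : pairCLM v w x = (⟪v, x⟫, ⟪w, x⟫) := rfl

lemma charFunDual_pair (v w : E) (L : StrongDual ℝ (ℝ × ℝ)) :
    charFunDual ((stdGaussian E).map (pairCLM v w)) L =
      Complex.exp (- ‖L (1, 0) • v + L (0, 1) • w‖ ^ 2 / 2) := by
  rw [charFunDual_map, charFunDual_stdGaussian]
  have : L.comp (pairCLM v w) = innerSL ℝ (L (1, 0) • v + L (0, 1) • w) := by
    ext x
    simp only [ContinuousLinearMap.comp_apply, pairCLM_apply, innerSL_apply_apply]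
    have : ((⟪v, x⟫, ⟪w, x⟫) : ℝ × ℝ) = ⟪v, x⟫ • (1, 0) + ⟪w, x⟫ • (0, 1) := by
      ext <;> simp
    rw [this, map_add, map_smul, map_smul, inner_add_left, real_inner_smul_left,
      real_inner_smul_left]
    simp only [smul_eq_mul]
    ring
  rw [this, innerSL_apply_norm]

lemma pair_law_eq (v w : E) (v' w' : F) (h1 : ‖v‖ = ‖v'‖) (h2 : ‖w‖ = ‖w'‖)
    (h3 : ⟪v, w⟫ = ⟪v', w'⟫) :
    (stdGaussian E).map (pairCLM v w) = (stdGaussian F).map (pairCLM v' w') := by
  apply Measure.ext_of_charFunDual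
  ext L
  rw [charFunDual_pair, charFunDual_pair]
  congr 3
  have key : ∀ s t : ℝ, ‖s • v + t • w‖ ^ 2 = ‖s • v' + t • w'‖ ^ 2 := by
    intro s t
    rw [norm_add_sq_real, norm_add_sq_real, norm_smul, norm_smul, norm_smul, norm_smul, h1, h2,
      real_inner_smul_left, real_inner_smul_right, real_inner_smul_left, real_inner_smul_right, h3]
  have := key (L (1, 0)) (L (0, 1))
  exact_mod_cast congrArg (fun r : ℝ => (r : ℂ)) this

end

/-- two-dimensional model -/
lemma std2_eq : (stdGaussian (EuclideanSpace ℝ (Fin 2))) =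
    ((gaussianReal 0 1).prod (gaussianReal 0 1)).map (fun p : ℝ × ℝ => !₂[p.1, p.2]) := by
  rw [← map_pi_eq_stdGaussian]
  have h := (measurePreserving_finTwoArrow (gaussianReal 0 1)).symm
  have h2 : (Measure.pi fun _ : Fin 2 => gaussianReal 0 1) =
      ((gaussianReal 0 1).prod (gaussianReal 0 1)).map (MeasurableEquiv.finTwoArrow).symm :=
    h.map_eq.symm
  rw [h2, Measure.map_map (by fun_prop) (by fun_prop)]
  rfl

section
variable {E : Type*} [NormedAddCommGroup E] [InnerProductSpace ℝ E] [FiniteDimensional ℝ E]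
  [MeasurableSpace E] [BorelSpace E]

lemma half_sheppard (v w : E) (hv : v ≠ 0) (hw : w ≠ 0) :
    stdGaussian E {x | 0 < ⟪v, x⟫ ∧ ⟪w, x⟫ < 0} =
      ENNReal.ofReal (InnerProductGeometry.angle v w / (2 * π)) := by
  set φ := InnerProductGeometry.angle v w with hφ
  have h0 : 0 ≤ φ := InnerProductGeometry.angle_nonneg _ _
  have hπ : φ ≤ π := InnerProductGeometry.angle_le_pi _ _
  have hv' : 0 < ‖v‖ := norm_pos_iff.2 hv
  have hw' : 0 < ‖w‖ := norm_pos_iff.2 hw
  let v' : EuclideanSpace ℝ (Fin 2) := !₂[‖v‖, 0]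
  let w' : EuclideanSpace ℝ (Fin 2) := !₂[‖w‖ * cos φ, ‖w‖ * sin φ]
  have e1 : ‖v‖ = ‖v'‖ := by
    rw [EuclideanSpace.norm_eq]
    simp [v', Fin.sum_univ_two]
  have e2 : ‖w‖ = ‖w'‖ := by
    rw [EuclideanSpace.norm_eq]
    simp only [w', Fin.sum_univ_two]
    simp only [Matrix.cons_val_zero, Matrix.cons_val_one, norm_eq_abs, sq_abs]
    rw [show (‖w‖ * cos φ) ^ 2 + (‖w‖ * sin φ) ^ 2 = ‖w‖ ^ 2 * (sin φ ^ 2 + cos φ ^ 2) by ring,
      sin_sq_add_cos_sq, mul_one, sqrt_sq hw'.le]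
  have e3 : ⟪v, w⟫ = ⟪v', w'⟫ := by
    have : cos φ = ⟪v, w⟫ / (‖v‖ * ‖w‖) := InnerProductGeometry.cos_angle v w
    simp only [v', w', PiLp.inner_apply, Fin.sum_univ_two]
    simp only [Matrix.cons_val_zero, Matrix.cons_val_one]
    simp only [RCLike.inner_apply, conj_trivial, mul_zero, add_zero]
    rw [this]
    field_simp
  have hlaw := pair_law_eq v w v' w' e1 e2 e3
  have hS : MeasurableSet {p : ℝ × ℝ | 0 < p.1 ∧ p.2 < 0} :=
    (measurableSet_lt measurable_const measurable_fst).inter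
      (measurableSet_lt measurable_snd measurable_const)
  have h1 : stdGaussian E {x | 0 < ⟪v, x⟫ ∧ ⟪w, x⟫ < 0} =
      ((stdGaussian E).map (pairCLM v w)) {p : ℝ × ℝ | 0 < p.1 ∧ p.2 < 0} := by
    rw [Measure.map_apply (by fun_prop) hS]
    rfl
  rw [h1, hlaw, Measure.map_apply (by fun_prop) hS, std2_eq, Measure.map_apply (by fun_prop)
    ((pairCLM v' w').measurable hS), ← gauss_wedge h0 hπ]
  congr 1
  ext p
  simp only [mem_preimage, pairCLM_apply, mem_ofPred_eq]
  simp only [v', w', PiLp.inner_apply, Fin.sum_univ_two]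
  simp only [Matrix.cons_val_zero, Matrix.cons_val_one]
  simp only [RCLike.inner_apply, conj_trivial, mul_zero, add_zero]
  constructor
  · rintro ⟨a, b⟩
    refine ⟨pos_of_mul_pos_left a hv'.le, ?_⟩
    by_contra hc
    push Not at hc
    have : 0 ≤ ‖w‖ * (cos φ * p.1 + sin φ * p.2) := mul_nonneg hw'.le hc
    linarith
  · rintro ⟨a, b⟩
    refine ⟨mul_pos a hv', ?_⟩
    have : ‖w‖ * (cos φ * p.1 + sin φ * p.2) < 0 := mul_neg_of_pos_of_neg hw' b
    linarith

/-- Sheppard's formula. -/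
lemma sheppard (v w : E) (hv : v ≠ 0) (hw : w ≠ 0) :
    stdGaussian E {x | ⟪v, x⟫ * ⟪w, x⟫ < 0} =
      ENNReal.ofReal (InnerProductGeometry.angle v w / π) := by
  have hset : {x : E | ⟪v, x⟫ * ⟪w, x⟫ < 0} = {x | 0 < ⟪v, x⟫ ∧ ⟪w, x⟫ < 0} ∪
      {x | 0 < ⟪w, x⟫ ∧ ⟪v, x⟫ < 0} := by
    ext x
    simp only [mem_ofPred_eq, mem_union, mul_neg_iff]
    tauto
  have hd : Disjoint {x : E | 0 < ⟪v, x⟫ ∧ ⟪w, x⟫ < 0} {x | 0 < ⟪w, x⟫ ∧ ⟪v, x⟫ < 0} := by
    rw [Set.disjoint_left]
    rintro x ⟨h1, h2⟩ ⟨h3, h4⟩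
    linarith
  have hmv : Measurable fun x : E => ⟪v, x⟫ := by fun_prop
  have hmw : Measurable fun x : E => ⟪w, x⟫ := by fun_prop
  have hm : MeasurableSet {x : E | 0 < ⟪w, x⟫ ∧ ⟪v, x⟫ < 0} :=
    (measurableSet_lt measurable_const hmw).inter (measurableSet_lt hmv measurable_const)
  rw [hset, measure_union hd hm, half_sheppard v w hv hw, half_sheppard w v hw hv,
    InnerProductGeometry.angle_comm w v, ← ENNReal.ofReal_add]
  · congr 1
    ring
  · have := InnerProductGeometry.angle_nonneg v w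
    positivity
  · have := InnerProductGeometry.angle_nonneg v w
    positivity

/-- Small ball estimate for one functional. -/
lemma small_ball (v : E) (hv : v ≠ 0) {β : ℝ} (hβ : 0 ≤ β) :
    stdGaussian E {x | |⟪v, x⟫| ≤ β} ≤ ENNReal.ofReal (β / ‖v‖) := by
  have hv' : 0 < ‖v‖ := norm_pos_iff.2 hv
  have hlaw : (stdGaussian E).map (innerSL ℝ v) = gaussianReal 0 (‖v‖ ^ 2).toNNReal := by
    have := IsGaussian.map_eq_gaussianReal (μ := stdGaussian E) (innerSL ℝ v)
    rw [this, variance_dual_stdGaussian, innerSL_apply_norm]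
    congr 1
    exact integral_strongDual_stdGaussian _
  have hS : MeasurableSet (Icc (-β) β) := measurableSet_Icc
  have h1 : stdGaussian E {x | |⟪v, x⟫| ≤ β} = ((stdGaussian E).map (innerSL ℝ v)) (Icc (-β) β) := by
    rw [Measure.map_apply (by fun_prop) hS]
    congr 1
    ext x
    simp [abs_le]
  have hne : (‖v‖ ^ 2).toNNReal ≠ 0 := by
    simp [hv'.ne']
  rw [h1, hlaw, gaussianReal_apply _ hne]
  have hb : ∀ x, gaussianPDF 0 (‖v‖ ^ 2).toNNReal x ≤ ENNReal.ofReal (1 / (2 * ‖v‖)) := by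
    intro x
    unfold gaussianPDF gaussianPDFReal
    apply ENNReal.ofReal_le_ofReal
    have e1 : (√(2 * π * ((‖v‖ ^ 2).toNNReal : ℝ)))⁻¹ ≤ 1 / (2 * ‖v‖) := by
      rw [Real.coe_toNNReal _ (by positivity), inv_eq_one_div]
      apply one_div_le_one_div_of_le (by positivity)
      apply le_sqrt_of_sq_le
      nlinarith [pi_gt_three, sq_nonneg ‖v‖]
    have e2 : rexp (-(x - 0) ^ 2 / (2 * ((‖v‖ ^ 2).toNNReal : ℝ))) ≤ 1 := by
      apply exp_le_one_iff.2
      apply div_nonpos_of_nonpos_of_nonneg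
      · nlinarith [sq_nonneg (x - 0)]
      · positivity
    calc _ ≤ 1 / (2 * ‖v‖) * 1 := by
          apply mul_le_mul e1 e2 (exp_pos _).le (by positivity)
      _ = _ := by ring
  calc ∫⁻ x in Icc (-β) β, gaussianPDF 0 (‖v‖ ^ 2).toNNReal x
      ≤ ∫⁻ x in Icc (-β) β, ENNReal.ofReal (1 / (2 * ‖v‖)) := lintegral_mono hb
    _ = ENNReal.ofReal (1 / (2 * ‖v‖)) * ENNReal.ofReal (β - -β) := by
        rw [lintegral_const, Measure.restrict_apply MeasurableSet.univ, univ_inter, volume_Icc]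
    _ = ENNReal.ofReal (β / ‖v‖) := by
        rw [← ENNReal.ofReal_mul (by positivity)]
        congr 1
        field_simp
        ring

end

/-! ### transfer to the infinite product -/

/-- iid standard normal coordinates -/
noncomputable def mu : Measure (ℕ → ℝ) := Measure.infinitePi (fun _ : ℕ => gaussianReal 0 1)

instance : IsProbabilityMeasure mu := by unfold mu; infer_instance

lemma mu_map_coord {N : ℕ} (e : Fin N → ℕ) (he : Function.Injective e) :
    mu.map (fun ω (i : Fin N) => ω (e i)) = Measure.pi (fun _ : Fin N => gaussianReal 0 1) := by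
  unfold mu
  rw [← Measure.infinitePi_eq_pi]
  exact Measure.map_infinitePi_infinitePi_of_inj he

lemma mu_map_std {N : ℕ} (e : Fin N → ℕ) (he : Function.Injective e) :
    mu.map (fun ω => WithLp.toLp 2 (fun i : Fin N => ω (e i))) =
      stdGaussian (EuclideanSpace ℝ (Fin N)) := by
  rw [← map_pi_eq_stdGaussian, ← mu_map_coord e he, Measure.map_map (by fun_prop) (by fun_prop)]
  rfl

/-- Sheppard's formula for finite linear combinations: lower bound. -/
lemma sign_change_ge (N : ℕ) (c d : ℕ → ℝ) {φ : ℝ} (h0 : 0 ≤ φ) (hπ : φ ≤ π)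
    (hc : 0 < ∑ k ∈ Finset.range N, c k ^ 2) (hd : 0 < ∑ k ∈ Finset.range N, d k ^ 2)
    (hcd : ∑ k ∈ Finset.range N, c k * d k ≤
      cos φ * (√(∑ k ∈ Finset.range N, c k ^ 2) * √(∑ k ∈ Finset.range N, d k ^ 2))) :
    φ / π ≤ mu.real {ω | (∑ k ∈ Finset.range N, c k * ω k) * (∑ k ∈ Finset.range N, d k * ω k) < 0} := by
  let v : EuclideanSpace ℝ (Fin N) := WithLp.toLp 2 (fun i : Fin N => c i)
  let w : EuclideanSpace ℝ (Fin N) := WithLp.toLp 2 (fun i : Fin N => d i)
  have hv : ‖v‖ = √(∑ k ∈ Finset.range N, c k ^ 2) := by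
    rw [EuclideanSpace.norm_eq, Finset.sum_range]
    simp [v]
  have hw : ‖w‖ = √(∑ k ∈ Finset.range N, d k ^ 2) := by
    rw [EuclideanSpace.norm_eq, Finset.sum_range]
    simp [w]
  have hv0 : v ≠ 0 := by
    rw [← norm_pos_iff, hv]; exact sqrt_pos.2 hc
  have hw0 : w ≠ 0 := by
    rw [← norm_pos_iff, hw]; exact sqrt_pos.2 hd
  have hvw : ⟪v, w⟫ = ∑ k ∈ Finset.range N, c k * d k := by
    rw [Finset.sum_range]
    simp [v, w, PiLp.inner_apply, mul_comm]
  have hmap := mu_map_std (N := N) (fun i => (i : ℕ)) Fin.val_injective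
  have hS : MeasurableSet {x : EuclideanSpace ℝ (Fin N) | ⟪v, x⟫ * ⟪w, x⟫ < 0} := by
    have : Measurable fun x : EuclideanSpace ℝ (Fin N) => ⟪v, x⟫ * ⟪w, x⟫ := by fun_prop
    exact measurableSet_lt this measurable_const
  have h1 : mu {ω | (∑ k ∈ Finset.range N, c k * ω k) * (∑ k ∈ Finset.range N, d k * ω k) < 0} =
      ENNReal.ofReal (InnerProductGeometry.angle v w / π) := by
    rw [← sheppard v w hv0 hw0, ← hmap, Measure.map_apply (by fun_prop) hS]
    congr 1
    ext ω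
    simp only [mem_ofPred_eq, mem_preimage, Finset.sum_range, v, w, PiLp.inner_apply]
    simp [mul_comm]
  rw [Measure.real, h1, ENNReal.toReal_ofReal
    (div_nonneg (InnerProductGeometry.angle_nonneg _ _) pi_pos.le)]
  apply div_le_div_of_nonneg_right _ pi_pos.le
  unfold InnerProductGeometry.angle
  rw [← arccos_cos h0 hπ]
  apply arccos_le_arccos
  rw [div_le_iff₀ (mul_pos (norm_pos_iff.2 hv0) (norm_pos_iff.2 hw0)), hvw, hv, hw]
  exact hcd

lemma small_ball_mu (N : ℕ) (c : ℕ → ℝ) (hc : 0 < ∑ k ∈ Finset.range N, c k ^ 2) {β : ℝ}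
    (hβ : 0 ≤ β) :
    mu.real {ω | |∑ k ∈ Finset.range N, c k * ω k| ≤ β} ≤
      β / √(∑ k ∈ Finset.range N, c k ^ 2) := by
  let v : EuclideanSpace ℝ (Fin N) := WithLp.toLp 2 (fun i : Fin N => c i)
  have hv : ‖v‖ = √(∑ k ∈ Finset.range N, c k ^ 2) := by
    rw [EuclideanSpace.norm_eq, Finset.sum_range]
    simp [v]
  have hv0 : v ≠ 0 := by
    rw [← norm_pos_iff, hv]; exact sqrt_pos.2 hc
  have hmap := mu_map_std (N := N) (fun i => (i : ℕ)) Fin.val_injective
  have hS : MeasurableSet {x : EuclideanSpace ℝ (Fin N) | |⟪v, x⟫| ≤ β} := by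
    have : Measurable fun x : EuclideanSpace ℝ (Fin N) => |⟪v, x⟫| := by fun_prop
    exact measurableSet_le this measurable_const
  have h1 : mu {ω | |∑ k ∈ Finset.range N, c k * ω k| ≤ β} =
      stdGaussian (EuclideanSpace ℝ (Fin N)) {x | |⟪v, x⟫| ≤ β} := by
    rw [← hmap, Measure.map_apply (by fun_prop) hS]
    congr 1
    ext ω
    simp only [mem_ofPred_eq, mem_preimage, Finset.sum_range, v, PiLp.inner_apply]
    simp [mul_comm]
  rw [Measure.real, h1]
  have h2 := small_ball v hv0 hβ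
  have h3 := ENNReal.toReal_mono ENNReal.ofReal_ne_top h2
  rw [ENNReal.toReal_ofReal (by positivity), hv] at h3
  exact h3

end Pool.Agent.Lead.Kac
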