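import Mathlib

open MeasureTheory ProbabilityTheory Real Set
open scoped ENNReal NNReal

namespace Pool.Agent.Lead.Kac

/-- one-dimensional Cameron–Martin density -/
noncomputable def cmd (h x : ℝ) : ℝ≥0∞ := ENNReal.ofReal (rexp (h * x - h ^ 2 / 2))

@[fun_prop]
lemma measurable_cmd (h : ℝ) : Measurable (cmd h) := by unfold cmd; fun_prop

lemma gauss_shift_density (h : ℝ) :
    gaussianReal h 1 = (gaussianReal 0 1).withDensity (cmd h) := by
  rw [gaussianReal_of_var_ne_zero _ one_ne_zero, gaussianReal_of_var_ne_zero _ one_ne_zero,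
    ← withDensity_mul _ (measurable_gaussianPDF 0 1) (measurable_cmd h)]
  congr 1
  ext x
  simp only [Pi.mul_apply]
  unfold gaussianPDF gaussianPDFReal cmd
  rw [← ENNReal.ofReal_mul (by positivity)]
  congr 1
  rw [mul_assoc (√(2 * π * ((1 : ℝ≥0) : ℝ)))⁻¹, ← exp_add]
  congr 2
  push_cast
  ring

lemma lintegral_cmd (h : ℝ) : ∫⁻ x, cmd h x ∂(gaussianReal 0 1) = 1 := by
  have : (gaussianReal h 1) univ = 1 := measure_univ
  rw [gauss_shift_density, withDensity_apply _ MeasurableSet.univ, Measure.restrict_univ] at this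
  exact this

lemma lintegral_cmd_sq (h : ℝ) :
    ∫⁻ x, cmd h x ^ 2 ∂(gaussianReal 0 1) = ENNReal.ofReal (rexp (h ^ 2)) := by
  have : ∀ x, cmd h x ^ 2 = ENNReal.ofReal (rexp (h ^ 2)) * cmd (2 * h) x := by
    intro x
    unfold cmd
    rw [← ENNReal.ofReal_pow (exp_pos _).le, ← ENNReal.ofReal_mul (exp_pos _).le, ← exp_nat_mul,
      ← exp_add]
    congr 2
    push_cast
    ring
  simp_rw [this]
  rw [lintegral_const_mul _ (measurable_cmd _), lintegral_cmd, mul_one]

variable {m : ℕ}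

/-- standard Gaussian measure on `Fin m → ℝ` -/
noncomputable abbrev gm (m : ℕ) : Measure (Fin m → ℝ) := Measure.pi (fun _ : Fin m => gaussianReal 0 1)

lemma gm_shift (h : Fin m → ℝ) :
    (gm m).map (fun x i => x i + h i) = Measure.pi (fun i : Fin m => gaussianReal (h i) 1) := by
  rw [Measure.pi_map_pi (f := fun i x => x + h i) (fun i => by fun_prop)]
  congr 1
  ext1 i
  rw [gaussianReal_map_add_const, zero_add]

lemma gm_lintegral_prod (g : Fin m → ℝ → ℝ≥0∞) (hg : ∀ i, Measurable (g i)) :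
    ∫⁻ x, ∏ i, g i (x i) ∂(gm m) = ∏ i, ∫⁻ x, g i x ∂(gaussianReal 0 1) := by
  have hind : iIndepFun (fun i (x : Fin m → ℝ) => g i (x i)) (gm m) :=
    iIndepFun_pi (fun i => (hg i).aemeasurable)
  rw [lintegral_prod_eq_prod_lintegral_of_indepFun Finset.univ _ hind (fun i => by fun_prop)]
  apply Finset.prod_congr rfl
  intro i _
  have := (measurePreserving_eval (fun _ : Fin m => gaussianReal 0 1) i)
  rw [← this.map_eq, lintegral_map (hg i) (measurable_pi_apply i)]

lemma gm_density (h : Fin m → ℝ) :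
    (gm m).map (fun x i => x i + h i) = (gm m).withDensity (fun x => ∏ i, cmd (h i) (x i)) := by
  rw [gm_shift]
  apply Measure.pi_eq
  · intro s hs
    rw [withDensity_apply _ (MeasurableSet.univ_pi hs), ← lintegral_indicator (MeasurableSet.univ_pi hs)]
    have : ∀ x : Fin m → ℝ, (Set.pi univ s).indicator (fun x => ∏ i, cmd (h i) (x i)) x =
        ∏ i, (s i).indicator (cmd (h i)) (x i) := by
      intro x
      by_cases hx : x ∈ Set.pi univ s
      · rw [indicator_of_mem hx]
        apply Finset.prod_congr rfl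
        intro i _
        rw [indicator_of_mem (hx i (mem_univ i))]
      · rw [indicator_of_notMem hx]
        symm
        simp only [Set.mem_pi, mem_univ, forall_const, not_forall] at hx
        obtain ⟨i, hi⟩ := hx
        exact Finset.prod_eq_zero (Finset.mem_univ i) (indicator_of_notMem hi _)
    simp_rw [this]
    rw [gm_lintegral_prod _ (fun i => (measurable_cmd _).indicator (hs i))]
    apply Finset.prod_congr rfl
    intro i _
    rw [lintegral_indicator (hs i), gauss_shift_density (h i), withDensity_apply _ (hs i)]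

lemma cm_ineq (h : Fin m → ℝ) {A : Set (Fin m → ℝ)} (hA : MeasurableSet A) :
    ((gm m).real ((fun x i => x i + h i) ⁻¹' A)) ^ 2 ≤ (gm m).real A * rexp (∑ i, h i ^ 2) := by
  have hT : Measurable (fun (x : Fin m → ℝ) i => x i + h i) := by fun_prop
  have hρ : Measurable (fun x : Fin m → ℝ => ∏ i, cmd (h i) (x i)) := by fun_prop
  have h1 : (gm m) ((fun x i => x i + h i) ⁻¹' A) = ∫⁻ x in A, ∏ i, cmd (h i) (x i) ∂(gm m) := by
    rw [← Measure.map_apply hT hA, gm_density, withDensity_apply _ hA]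
  have h2 := ENNReal.lintegral_mul_le_Lp_mul_Lq ((gm m).restrict A) (p := 2) (q := 2)
    (by constructor <;> norm_num) (f := fun _ => 1)
    (g := fun x => ∏ i, cmd (h i) (x i)) aemeasurable_const hρ.aemeasurable
  have h3 : ∫⁻ x in A, (∏ i, cmd (h i) (x i)) ^ (2 : ℝ) ∂(gm m) ≤ ENNReal.ofReal (rexp (∑ i, h i ^ 2)) := by
    calc _ ≤ ∫⁻ x, (∏ i, cmd (h i) (x i)) ^ (2 : ℝ) ∂(gm m) := setLIntegral_le_lintegral _ _
      _ = ∫⁻ x, ∏ i, (cmd (h i) (x i)) ^ 2 ∂(gm m) := by
        congr 1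
        ext x
        rw [ENNReal.rpow_ofNat, Finset.prod_pow]
      _ = ∏ i, ENNReal.ofReal (rexp (h i ^ 2)) := by
        rw [gm_lintegral_prod (fun i x => cmd (h i) x ^ 2) (fun i => by fun_prop)]
        exact Finset.prod_congr rfl fun i _ => lintegral_cmd_sq _
      _ = _ := by
        rw [exp_sum, ENNReal.ofReal_prod_of_nonneg (fun i _ => (exp_pos _).le)]
  simp only [Pi.mul_apply, one_mul, ENNReal.one_rpow, lintegral_const, MeasurableSet.univ,
    Measure.restrict_apply, univ_inter] at h2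
  rw [← h1] at h2
  have h4 : (gm m) ((fun x i => x i + h i) ⁻¹' A) ^ 2 ≤
      (gm m) A * ENNReal.ofReal (rexp (∑ i, h i ^ 2)) := by
    calc _ ≤ (((gm m) A) ^ (1 / 2 : ℝ) *
        (∫⁻ x in A, (∏ i, cmd (h i) (x i)) ^ (2 : ℝ) ∂(gm m)) ^ (1 / 2 : ℝ)) ^ 2 := by
          gcongr
      _ = (gm m) A * (∫⁻ x in A, (∏ i, cmd (h i) (x i)) ^ (2 : ℝ) ∂(gm m)) := by
          rw [mul_pow, ← ENNReal.rpow_natCast, ← ENNReal.rpow_natCast, ← ENNReal.rpow_mul,
            ← ENNReal.rpow_mul]
          norm_num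
      _ ≤ _ := by gcongr
  rw [Measure.real, Measure.real, ← ENNReal.toReal_ofReal (exp_pos (∑ i, h i ^ 2)).le,
    ← ENNReal.toReal_mul, ← ENNReal.toReal_pow]
  apply ENNReal.toReal_mono _ h4
  exact ENNReal.mul_ne_top (measure_ne_top _ _) ENNReal.ofReal_ne_top

end Pool.Agent.Lead.Kac
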