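import Mathlib

open Real Set Filter Topology

namespace Pool.Agent.Lead.Kac

/-- exponent -/
noncomputable def al : ℂ := ⟨1 / 2, -(10 * π)⟩

/-- coefficients of `(1 - z) ^ (-al)` -/
noncomputable def cc (k : ℕ) : ℂ := Ring.choose (al + k - 1) k

/-- constant -/
noncomputable def bb : ℝ := 1 / 4 + 100 * π ^ 2

lemma cc_zero : cc 0 = 1 := by simp [cc]

lemma cc_eq (k : ℕ) : (k.factorial : ℂ) * cc k = (ascPochhammer ℂ k).eval al := by
  have h := Ring.factorial_nsmul_multichoose_eq_ascPochhammer al k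
  rw [Ring.multichoose_eq, Polynomial.ascPochhammer_smeval_eq_eval, nsmul_eq_mul] at h
  exact h

lemma cc_succ (k : ℕ) : cc (k + 1) * (k + 1) = cc k * (al + k) := by
  have h1 := cc_eq (k + 1)
  rw [ascPochhammer_succ_right, Polynomial.eval_mul, ← cc_eq k, Nat.factorial_succ] at h1
  have hne : ((k.factorial : ℕ) : ℂ) ≠ 0 := by exact_mod_cast k.factorial_ne_zero
  apply mul_left_cancel₀ hne
  push_cast at h1
  simp only [Polynomial.eval_add, Polynomial.eval_X, Polynomial.eval_natCast] at h1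
  linear_combination h1

lemma norm_al_add (k : ℕ) : ‖al + k‖ ^ 2 = (k + 1 : ℝ) ^ 2 - (k + 1) + bb := by
  rw [Complex.sq_norm, Complex.normSq_apply]
  simp only [Complex.add_re, Complex.add_im, Complex.natCast_re, Complex.natCast_im, al, bb]
  ring

lemma norm_cc_sq_aux (k : ℕ) :
    ‖cc k‖ ^ 2 ≤ rexp (2 * bb * (1 - 1 / (k + 1))) / (k + 1) := by
  have hb : 0 < bb := by unfold bb; positivity
  induction k with
  | zero => simp [cc_zero]
  | succ k ih =>
    have hk : (0 : ℝ) < k + 1 := by positivity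
    have h1 : ‖cc (k + 1)‖ ^ 2 * (k + 1) ^ 2 = ‖cc k‖ ^ 2 * ((k + 1 : ℝ) ^ 2 - (k + 1) + bb) := by
      have := congrArg (fun z : ℂ => ‖z‖ ^ 2) (cc_succ k)
      simp only [norm_mul, mul_pow] at this
      rw [← norm_al_add]
      have h2 : ‖(k : ℂ) + 1‖ = (k + 1 : ℝ) := by
        rw [← Nat.cast_succ, Complex.norm_natCast]; push_cast; rfl
      rw [h2] at this
      exact this
    have h3 : ‖cc (k + 1)‖ ^ 2 = ‖cc k‖ ^ 2 * (1 - 1 / (k + 1) + bb / (k + 1) ^ 2) := by
      field_simp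
      linear_combination h1
    rw [h3]
    have h4 : (1 : ℝ) - 1 / (k + 1) + bb / (k + 1) ^ 2 ≤ rexp (- (1 / (k + 1)) + bb / (k + 1) ^ 2) := by
      have := add_one_le_exp (- (1 / (k + 1 : ℝ)) + bb / (k + 1) ^ 2)
      linarith
    have h5 : (0 : ℝ) ≤ 1 - 1 / (k + 1) + bb / (k + 1) ^ 2 := by
      have : (1 : ℝ) / (k + 1) ≤ 1 := by
        rw [div_le_one hk]; linarith [Nat.cast_nonneg (α := ℝ) k]
      have : 0 ≤ bb / (k + 1 : ℝ) ^ 2 := by positivity
      linarith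
    calc ‖cc k‖ ^ 2 * (1 - 1 / (k + 1) + bb / (k + 1) ^ 2)
        ≤ (rexp (2 * bb * (1 - 1 / (k + 1))) / (k + 1)) *
          rexp (- (1 / (k + 1)) + bb / (k + 1) ^ 2) := by
          apply mul_le_mul ih h4 h5 (by positivity)
      _ ≤ rexp (2 * bb * (1 - 1 / ((k + 1 : ℕ) + 1))) / ((k + 1 : ℕ) + 1) := by
          have e1 : ((k : ℝ) + 1) = rexp (log (k + 1)) := (exp_log hk).symm
          have hk2 : (0 : ℝ) < (k + 1 : ℕ) + 1 := by positivity
          have e2 : (((k + 1 : ℕ) : ℝ) + 1) = rexp (log ((k + 1 : ℕ) + 1)) := (exp_log hk2).symm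
          have e3 : rexp (2 * bb * (1 - 1 / (k + 1))) / (k + 1) =
              rexp (2 * bb * (1 - 1 / (k + 1)) - log (k + 1)) := by
            rw [exp_sub, exp_log hk]
          have e4 : rexp (2 * bb * (1 - 1 / ((k + 1 : ℕ) + 1))) / ((k + 1 : ℕ) + 1) =
              rexp (2 * bb * (1 - 1 / ((k + 1 : ℕ) + 1)) - log ((k + 1 : ℕ) + 1)) := by
            rw [exp_sub, exp_log hk2]
          rw [e3, e4, ← exp_add]
          apply exp_le_exp.2
          have hlog : log ((k + 1 : ℕ) + 1) - log (k + 1) ≤ 1 / (k + 1) := by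
            rw [← log_div hk2.ne' hk.ne']
            have := log_le_sub_one_of_pos (show (0 : ℝ) < ((k + 1 : ℕ) + 1) / (k + 1) by positivity)
            refine this.trans (le_of_eq ?_)
            push_cast
            field_simp
            ring
          have hq : bb / (k + 1 : ℝ) ^ 2 ≤ 2 * bb * (1 / (k + 1) - 1 / ((k + 1 : ℕ) + 1)) := by
            push_cast
            rw [div_sub_div _ _ (by positivity) (by positivity), ← mul_div_assoc,
              div_le_div_iff₀ (by positivity) (by positivity)]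
            have : 0 ≤ bb * ((k : ℝ) + 1) * ((k : ℝ) * (k + 1)) := by positivity
            nlinarith
          linarith

lemma norm_cc_sq (k : ℕ) : ‖cc k‖ ^ 2 ≤ rexp (2 * bb) / (k + 1) := by
  have hb : 0 < bb := by unfold bb; positivity
  refine (norm_cc_sq_aux k).trans ?_
  apply div_le_div_of_nonneg_right _ (by positivity)
  apply exp_le_exp.2
  have : (0 : ℝ) ≤ 1 / (k + 1) := by positivity
  nlinarith

lemma norm_cc_le (k : ℕ) : ‖cc k‖ ≤ rexp bb := by
  apply le_of_sq_le_sq _ (exp_pos _).le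
  refine (norm_cc_sq k).trans ?_
  rw [← exp_nat_mul]
  push_cast
  apply div_le_self (exp_pos _).le
  linarith [Nat.cast_nonneg (α := ℝ) k]

lemma sum_cc_sq (m : ℕ) : ∑ k ∈ Finset.range m, (cc k).re ^ 2 ≤ rexp (2 * bb) * (1 + log m) := by
  calc ∑ k ∈ Finset.range m, (cc k).re ^ 2 ≤ ∑ k ∈ Finset.range m, rexp (2 * bb) * (1 / (k + 1)) := by
        apply Finset.sum_le_sum
        intro k _
        have h1 : (cc k).re ^ 2 ≤ ‖cc k‖ ^ 2 := by
          rw [← sq_abs]
          exact pow_le_pow_left₀ (abs_nonneg _) (Complex.abs_re_le_norm _) 2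
        refine h1.trans ((norm_cc_sq k).trans (le_of_eq ?_))
        ring
    _ = rexp (2 * bb) * ∑ k ∈ Finset.range m, (1 / (k + 1 : ℝ)) := by rw [Finset.mul_sum]
    _ ≤ _ := by
        apply mul_le_mul_of_nonneg_left _ (exp_pos _).le
        have := harmonic_le_one_add_log m
        refine le_trans (le_of_eq ?_) this
        rw [harmonic]
        push_cast
        simp [one_div]

lemma hasSum_cc {y : ℝ} (h0 : 0 ≤ y) (h1 : y < 1) :
    HasSum (fun k => cc k * (y : ℂ) ^ k) (1 / (1 - (y : ℂ)) ^ al) := by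
  have h := Complex.one_div_one_sub_cpow_hasFPowerSeriesOnBall_zero al
  have h2 := h.hasSum (y := (y : ℂ)) (by
    rw [Metric.mem_eball, edist_zero_right]
    rw [← ofReal_norm, Complex.norm_real, norm_of_nonneg h0]
    exact_mod_cast (ENNReal.ofReal_lt_one).2 h1)
  simp only [FormalMultilinearSeries.ofScalars_apply_eq, zero_add, smul_eq_mul] at h2
  exact h2

/-- sample points -/
noncomputable def yy (j : ℕ) : ℝ := 1 - rexp (-(j / 10 : ℝ))

lemma yy_nonneg (j : ℕ) : 0 ≤ yy j := by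
  unfold yy
  have : rexp (-(j / 10 : ℝ)) ≤ 1 := exp_le_one_iff.2 (by simp; positivity)
  linarith

lemma yy_lt_one (j : ℕ) : yy j < 1 := by
  unfold yy
  linarith [exp_pos (-(j / 10 : ℝ))]

lemma one_sub_yy (j : ℕ) : 1 - yy j = rexp (-(j / 10 : ℝ)) := by unfold yy; ring

lemma cpow_yy (j : ℕ) : (1 / (1 - (yy j : ℂ)) ^ al).re = (-1) ^ j * rexp (j / 20 : ℝ) := by
  have e1 : (1 - (yy j : ℂ)) = Complex.exp (-(j / 10 : ℂ)) := by
    rw [← Complex.ofReal_one, ← Complex.ofReal_sub, one_sub_yy]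
    push_cast
    rfl
  have e2 : (1 - (yy j : ℂ)) ^ al = Complex.exp (-(j / 10 : ℂ) * al) := by
    rw [e1, Complex.cpow_def_of_ne_zero (Complex.exp_ne_zero _)]
    congr 1
    congr 1
    rw [show (-(j / 10 : ℂ)) = ((-(j / 10 : ℝ) : ℝ) : ℂ) by push_cast; rfl, ← Complex.ofReal_exp,
      ← Complex.ofReal_log (exp_pos _).le, Real.log_exp]
  rw [e2, one_div, ← Complex.exp_neg]
  have e3 : -(-(j / 10 : ℂ) * al) = ((j / 20 : ℝ) : ℂ) + ((-(j * π) : ℝ) : ℂ) * Complex.I := by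
    apply Complex.ext
    · simp [al]
      ring
    · simp [al]
      ring
  rw [e3, Complex.exp_add, ← Complex.ofReal_exp, Complex.re_ofReal_mul,
    Complex.exp_ofReal_mul_I_re, cos_neg, cos_nat_mul_pi]
  ring

lemma tail_bound {y : ℝ} (h0 : 0 ≤ y) (h1 : y < 1) (m : ℕ) :
    |(1 / (1 - (y : ℂ)) ^ al).re - ∑ k ∈ Finset.range m, (cc k).re * y ^ k| ≤
      rexp bb * (y ^ m / (1 - y)) := by
  have hs := hasSum_cc h0 h1
  have hs2 := (hasSum_nat_add_iff' m).2 hs
  have hn : ‖(1 / (1 - (y : ℂ)) ^ al) - ∑ k ∈ Finset.range m, cc k * (y : ℂ) ^ k‖ ≤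
      rexp bb * (y ^ m / (1 - y)) := by
    have hg : HasSum (fun k => rexp bb * (y ^ m * y ^ k)) (rexp bb * (y ^ m * (1 - y)⁻¹)) :=
      ((hasSum_geometric_of_lt_one h0 h1).mul_left _).mul_left _
    rw [← div_eq_mul_inv] at hg
    rw [← hs2.tsum_eq]
    apply tsum_of_norm_bounded hg
    intro k
    rw [norm_mul, norm_pow, Complex.norm_real, norm_of_nonneg h0, pow_add, mul_comm (y ^ k)]
    exact mul_le_mul_of_nonneg_right (norm_cc_le _) (by positivity)
  have hre : (1 / (1 - (y : ℂ)) ^ al).re - ∑ k ∈ Finset.range m, (cc k).re * y ^ k =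
      ((1 / (1 - (y : ℂ)) ^ al) - ∑ k ∈ Finset.range m, cc k * (y : ℂ) ^ k).re := by
    rw [Complex.sub_re, Complex.re_sum]
    congr 1
    apply Finset.sum_congr rfl
    intro k _
    rw [← Complex.ofReal_pow, Complex.re_mul_ofReal]
  rw [hre]
  exact (Complex.abs_re_le_norm _).trans hn

lemma yy_pow_le (j m : ℕ) : yy j ^ m ≤ rexp (-(m * rexp (-(j / 10 : ℝ)))) := by
  have h1 : yy j ≤ rexp (-rexp (-(j / 10 : ℝ))) := by
    have := add_one_le_exp (-rexp (-(j / 10 : ℝ)))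
    unfold yy
    linarith
  calc yy j ^ m ≤ rexp (-rexp (-(j / 10 : ℝ))) ^ m := pow_le_pow_left₀ (yy_nonneg j) h1 m
    _ = _ := by rw [← exp_nat_mul]; ring_nf

lemma target {m : ℕ} (j : ℕ) (hj : rexp (j / 10 : ℝ) ≤ √m)
    (hm : rexp bb * (√m * rexp (-√m)) ≤ 1 / 2) :
    (1 / 2) * rexp (j / 20 : ℝ) ≤ (-1) ^ j * ∑ k ∈ Finset.range m, (cc k).re * yy j ^ k := by
  have h1 := tail_bound (yy_nonneg j) (yy_lt_one j) m
  rw [cpow_yy, one_sub_yy] at h1
  have hsq : (0 : ℝ) < √m := lt_of_lt_of_le (exp_pos _) hj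
  have h2 : yy j ^ m / rexp (-(j / 10 : ℝ)) ≤ √m * rexp (-√m) := by
    rw [exp_neg, div_inv_eq_mul, mul_comm]
    apply mul_le_mul hj _ (by positivity [yy_nonneg j]) hsq.le
    refine (yy_pow_le j m).trans ?_
    apply exp_le_exp.2
    apply neg_le_neg
    rw [exp_neg, ← div_eq_mul_inv, le_div_iff₀ (exp_pos _)]
    calc √m * rexp (j / 10 : ℝ) ≤ √m * √m := by gcongr
      _ = m := mul_self_sqrt (Nat.cast_nonneg _)
  have h3 : |(-1) ^ j * rexp (j / 20 : ℝ) - ∑ k ∈ Finset.range m, (cc k).re * yy j ^ k| ≤ 1 / 2 :=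
    h1.trans ((mul_le_mul_of_nonneg_left h2 (exp_pos _).le).trans hm)
  have h4 : |rexp (j / 20 : ℝ) - (-1) ^ j * ∑ k ∈ Finset.range m, (cc k).re * yy j ^ k| ≤ 1 / 2 := by
    have : rexp (j / 20 : ℝ) - (-1) ^ j * ∑ k ∈ Finset.range m, (cc k).re * yy j ^ k =
        (-1) ^ j * ((-1) ^ j * rexp (j / 20 : ℝ) - ∑ k ∈ Finset.range m, (cc k).re * yy j ^ k) := by
      rw [mul_sub, ← mul_assoc, ← pow_add, ← two_mul, pow_mul]
      norm_num
    rw [this, abs_mul, abs_pow, abs_neg, abs_one, one_pow, one_mul]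
    exact h3
  have h5 : 1 ≤ rexp (j / 20 : ℝ) := one_le_exp (by positivity)
  have := (abs_le.1 h4).2
  linarith

end Pool.Agent.Lead.Kac
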