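import Mathlib
import Pool.Agent.Lead.Coef
import Pool.Agent.Lead.CamMar

open MeasureTheory ProbabilityTheory Real Set
open scoped ENNReal NNReal

namespace Pool.Agent.Lead.Kac

/-- window polynomial -/
noncomputable def tw {m : ℕ} (w : Fin m → ℝ) (y : ℝ) : ℝ := ∑ i, w i * y ^ (i : ℕ)

@[fun_prop]
lemma measurable_tw {m : ℕ} (y : ℝ) : Measurable (fun w : Fin m → ℝ => tw w y) := by
  unfold tw; fun_prop

open Classical in
/-- indices with the wrong sign -/
noncomputable def badJ {m : ℕ} (J : ℕ) (w : Fin m → ℝ) : Finset ℕ :=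
  (Finset.Icc 1 J).filter (fun j => ¬ 1 ≤ (-1) ^ j * tw w (yy j))

/-- window event -/
def AA (m J : ℕ) : Set (Fin m → ℝ) := {w | ∑ i, w i ^ 2 ≤ 9 * m ∧ 10 * (badJ J w).card ≤ J}

lemma badJ_card {m : ℕ} (J : ℕ) (w : Fin m → ℝ) :
    ((badJ J w).card : ℝ≥0∞) = ∑ j ∈ Finset.Icc 1 J,
      ({w : Fin m → ℝ | ¬ 1 ≤ (-1) ^ j * tw w (yy j)}.indicator 1 w) := by
  classical
  unfold badJ
  rw [Finset.card_filter]
  push_cast
  apply Finset.sum_congr rfl
  intro j _
  by_cases h : 1 ≤ (-1) ^ j * tw w (yy j)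
  · rw [if_neg (not_not.2 h), indicator_of_notMem (by simpa using h)]
  · rw [if_pos h, indicator_of_mem (show w ∈ {w : Fin m → ℝ | ¬ 1 ≤ (-1) ^ j * tw w (yy j)} from h)]
    rfl

lemma measurableSet_bad {m : ℕ} (j : ℕ) :
    MeasurableSet {w : Fin m → ℝ | ¬ 1 ≤ (-1) ^ j * tw w (yy j)} := by
  apply MeasurableSet.compl
  exact measurableSet_le (g := fun w : Fin m → ℝ => (-1) ^ j * tw w (yy j)) measurable_const
    (by fun_prop)

lemma measurable_badJ_card {m : ℕ} (J : ℕ) :
    Measurable (fun w : Fin m → ℝ => ((badJ J w).card : ℝ≥0∞)) := by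
  simp_rw [badJ_card]
  apply Finset.measurable_sum
  intro j _
  exact measurable_one.indicator (measurableSet_bad j)

lemma measurableSet_AA (m J : ℕ) : MeasurableSet (AA m J) := by
  have h1 : MeasurableSet {w : Fin m → ℝ | ∑ i, w i ^ 2 ≤ 9 * m} :=
    measurableSet_le (by fun_prop) measurable_const
  have h2 : MeasurableSet {w : Fin m → ℝ | 10 * (badJ J w).card ≤ J} := by
    have : {w : Fin m → ℝ | 10 * (badJ J w).card ≤ J} =
        {w : Fin m → ℝ | 10 * ((badJ J w).card : ℝ≥0∞) ≤ J} := by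
      ext w
      simp only [mem_ofPred_eq]
      exact_mod_cast Iff.rfl
    rw [this]
    exact measurableSet_le ((measurable_badJ_card J).const_mul _) measurable_const
  exact h1.inter h2

/-- second moment bound for linear functionals -/
lemma gm_cheb {m : ℕ} (c : Fin m → ℝ) {t : ℝ} (ht : 0 < t) :
    gm m {x | t ≤ |∑ i, c i * x i|} ≤ ENNReal.ofReal ((∑ i, c i ^ 2) / t ^ 2) := by
  have hmem : MemLp (fun x : Fin m → ℝ => ∑ i, c i * x i) 2 (gm m) := by
    apply memLp_finsetSum
    intro i _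
    have : MemLp (fun x : ℝ => c i * x) 2 (gaussianReal 0 1) :=
      (IsGaussian.memLp_two_id (μ := gaussianReal 0 1)).const_mul _
    exact this.comp_measurePreserving (measurePreserving_eval (fun _ : Fin m => gaussianReal 0 1) i)
  have hvar : Var[fun x : Fin m → ℝ => ∑ i, c i * x i; gm m] = ∑ i, c i ^ 2 := by
    have : (fun x : Fin m → ℝ => ∑ i, c i * x i) = ∑ i, (fun x : Fin m → ℝ => c i * x i) := by
      ext x; simp
    rw [this, variance_sum_pi (X := fun i x => c i * x)]
    · apply Finset.sum_congr rfl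
      intro i _
      rw [variance_const_mul, variance_fun_id_gaussianReal]
      simp
    · exact fun i => (IsGaussian.memLp_two_id (μ := gaussianReal 0 1)).const_mul _
  have hmean : (gm m)[fun x : Fin m → ℝ => ∑ i, c i * x i] = 0 := by
    rw [integral_finsetSum]
    · apply Finset.sum_eq_zero
      intro i _
      rw [integral_const_mul]
      have := (measurePreserving_eval (fun _ : Fin m => gaussianReal 0 1) i)
      have h2 : ∫ x : Fin m → ℝ, x i ∂(gm m) = ∫ y, y ∂(gaussianReal 0 1) := by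
        rw [← this.map_eq, integral_map (measurable_pi_apply i).aemeasurable (by fun_prop)]
      rw [h2, integral_id_gaussianReal, mul_zero]
    · intro i _
      have : MemLp (fun x : ℝ => c i * x) 2 (gaussianReal 0 1) :=
        (IsGaussian.memLp_two_id (μ := gaussianReal 0 1)).const_mul _
      exact (this.comp_measurePreserving
        (measurePreserving_eval (fun _ : Fin m => gaussianReal 0 1) i)).integrable (by norm_num)
  have := meas_ge_le_variance_div_sq hmem ht
  rw [hmean, hvar] at this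
  simpa using this

lemma gm_normsq {m : ℕ} (hm : 0 < m) :
    gm m {x | 4 * (m : ℝ) ≤ ∑ i, x i ^ 2} ≤ ENNReal.ofReal (1 / 4) := by
  have hm' : (0 : ℝ) < m := by exact_mod_cast hm
  have h1 : ∫⁻ x, ENNReal.ofReal (∑ i, x i ^ 2) ∂(gm m) = m := by
    have : ∀ x : Fin m → ℝ, ENNReal.ofReal (∑ i, x i ^ 2) = ∑ i, ENNReal.ofReal (x i ^ 2) :=
      fun x => ENNReal.ofReal_sum_of_nonneg (fun i _ => sq_nonneg _)
    simp_rw [this]
    rw [lintegral_finsetSum _ (fun i _ => by fun_prop)]
    have h2 : ∀ i : Fin m, ∫⁻ x : Fin m → ℝ, ENNReal.ofReal (x i ^ 2) ∂(gm m) = 1 := by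
      intro i
      have := (measurePreserving_eval (fun _ : Fin m => gaussianReal 0 1) i)
      have h3 : ∫⁻ x : Fin m → ℝ, ENNReal.ofReal (x i ^ 2) ∂(gm m) =
          ∫⁻ y, ENNReal.ofReal (y ^ 2) ∂(gaussianReal 0 1) := by
        rw [← this.map_eq, lintegral_map (by fun_prop) (measurable_pi_apply i)]
      rw [h3]
      have h4 : ∫ y, y ^ 2 ∂(gaussianReal 0 1) = 1 := by
        have := variance_fun_id_gaussianReal (μ := 0) (v := 1)
        rw [variance_eq_integral (by fun_prop), integral_id_gaussianReal] at this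
        simpa using this
      have hint : Integrable (fun y : ℝ => y ^ 2) (gaussianReal 0 1) :=
        (IsGaussian.memLp_two_id (μ := gaussianReal 0 1)).integrable_sq
      rw [← ofReal_integral_eq_lintegral_ofReal hint (Filter.Eventually.of_forall fun y => sq_nonneg y),
        h4, ENNReal.ofReal_one]
    simp_rw [h2]
    simp
  have h2 := mul_meas_ge_le_lintegral₀ (μ := gm m) (f := fun x => ENNReal.ofReal (∑ i, x i ^ 2))
    (Measurable.aemeasurable (by fun_prop)) (ENNReal.ofReal (4 * m))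
  rw [h1] at h2
  have hset : {x : Fin m → ℝ | ENNReal.ofReal (4 * m) ≤ ENNReal.ofReal (∑ i, x i ^ 2)} =
      {x : Fin m → ℝ | 4 * (m : ℝ) ≤ ∑ i, x i ^ 2} := by
    ext x
    simp only [mem_ofPred_eq]
    exact ENNReal.ofReal_le_ofReal_iff (Finset.sum_nonneg fun i _ => sq_nonneg _)
  rw [hset] at h2
  have h3 : gm m {x | 4 * (m : ℝ) ≤ ∑ i, x i ^ 2} ≤ (m : ℝ≥0∞) / ENNReal.ofReal (4 * m) := by
    rw [ENNReal.le_div_iff_mul_le]
    · rw [mul_comm]; exact h2
    · left; simpa using hm.ne'
    · left; exact ENNReal.ofReal_ne_top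
  refine h3.trans (le_of_eq ?_)
  rw [show (m : ℝ≥0∞) = ENNReal.ofReal m by simp, ← ENNReal.ofReal_div_of_pos (by positivity)]
  congr 1
  field_simp

/-- the shift -/
noncomputable def hh (i : ℕ) : ℝ := 22 * (cc i).re

lemma sum_hh_sq (m : ℕ) : ∑ i : Fin m, hh i ^ 2 ≤ 484 * (rexp (2 * bb) * (1 + log m)) := by
  have := sum_cc_sq m
  rw [Finset.sum_range] at this
  calc ∑ i : Fin m, hh i ^ 2 = 484 * ∑ i : Fin m, (cc i).re ^ 2 := by
        rw [Finset.mul_sum]
        apply Finset.sum_congr rfl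
        intro i _
        unfold hh
        ring
    _ ≤ _ := by gcongr

lemma prob_shift {m J : ℕ} (hm0 : 0 < m) (hJ0 : 0 < J) (hJ : rexp (J / 10 : ℝ) ≤ √m)
    (hm : rexp bb * (√m * rexp (-√m)) ≤ 1 / 2)
    (hm2 : 2 * (484 * (rexp (2 * bb) * (1 + log m))) ≤ m) :
    1 / 2 ≤ (gm m).real ((fun x i => x i + hh i) ⁻¹' (AA m J)) := by
  have hJ0' : (0 : ℝ) < J := by exact_mod_cast hJ0
  -- bad events
  let B1 : Set (Fin m → ℝ) := {x | 4 * (m : ℝ) ≤ ∑ i, x i ^ 2}
  let F : ℕ → Set (Fin m → ℝ) := fun j => {x | 10 * rexp (j / 20 : ℝ) ≤ |∑ i : Fin m, yy j ^ (i : ℕ) * x i|}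
  have hF : ∀ j, gm m (F j) ≤ ENNReal.ofReal (1 / 100) := by
    intro j
    refine (gm_cheb (fun i : Fin m => yy j ^ (i : ℕ)) (t := 10 * rexp (j / 20 : ℝ)) (by positivity)).trans ?_
    apply ENNReal.ofReal_le_ofReal
    have h0 := yy_nonneg j
    have h1 := yy_lt_one j
    have e1 : ∑ i : Fin m, (yy j ^ (i : ℕ)) ^ 2 ≤ rexp (j / 10 : ℝ) := by
      calc ∑ i : Fin m, (yy j ^ (i : ℕ)) ^ 2 ≤ ∑ i : Fin m, yy j ^ (i : ℕ) := by
            apply Finset.sum_le_sum
            intro i _
            have : yy j ^ (i : ℕ) ≤ 1 := pow_le_one₀ h0 h1.le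
            have h3 : 0 ≤ yy j ^ (i : ℕ) := by positivity
            nlinarith
        _ = ∑ i ∈ Finset.range m, yy j ^ i := by rw [Finset.sum_range]
        _ ≤ (1 - yy j)⁻¹ := by
            rw [← tsum_geometric_of_lt_one h0 h1]
            exact Summable.sum_le_tsum _ (fun i _ => by positivity) (summable_geometric_of_lt_one h0 h1)
        _ = rexp (j / 10 : ℝ) := by rw [one_sub_yy, ← exp_neg, neg_neg]
    have e2 : (10 * rexp (j / 20 : ℝ)) ^ 2 = 100 * rexp (j / 10 : ℝ) := by
      rw [mul_pow, ← exp_nat_mul]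
      congr 1
      · norm_num
      · congr 1
        push_cast
        ring
    rw [e2, div_le_div_iff₀ (by positivity) (by norm_num)]
    nlinarith
  let B2 : Set (Fin m → ℝ) := {x | (J : ℝ≥0∞) / 10 ≤ ∑ j ∈ Finset.Icc 1 J, (F j).indicator 1 x}
  have hFm : ∀ j, MeasurableSet (F j) := by
    intro j
    exact measurableSet_le measurable_const (by fun_prop)
  have hB2 : gm m B2 ≤ ENNReal.ofReal (1 / 10) := by
    have h1 := mul_meas_ge_le_lintegral₀ (μ := gm m)
      (f := fun x => ∑ j ∈ Finset.Icc 1 J, (F j).indicator (1 : (Fin m → ℝ) → ℝ≥0∞) x)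
      (Finset.measurable_sum _ fun j _ => measurable_one.indicator (hFm j)).aemeasurable ((J : ℝ≥0∞) / 10)
    have h2 : ∫⁻ x, ∑ j ∈ Finset.Icc 1 J, (F j).indicator (1 : (Fin m → ℝ) → ℝ≥0∞) x ∂(gm m) ≤
        J * ENNReal.ofReal (1 / 100) := by
      rw [lintegral_finsetSum _ fun j _ => measurable_one.indicator (hFm j)]
      calc _ ≤ ∑ j ∈ Finset.Icc 1 J, ENNReal.ofReal (1 / 100) := by
            apply Finset.sum_le_sum
            intro j _
            rw [lintegral_indicator_one (hFm j)]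
            exact hF j
        _ = _ := by simp
    have h3 : (J : ℝ≥0∞) / 10 * gm m B2 ≤ J * ENNReal.ofReal (1 / 100) := h1.trans h2
    have hne : (J : ℝ≥0∞) / 10 ≠ 0 := by
      simp [hJ0.ne']
    have hnt : (J : ℝ≥0∞) / 10 ≠ ⊤ := by
      apply ENNReal.div_ne_top <;> simp
    have h4 : gm m B2 ≤ (J * ENNReal.ofReal (1 / 100)) / ((J : ℝ≥0∞) / 10) := by
      rw [ENNReal.le_div_iff_mul_le (Or.inl hne) (Or.inl hnt), mul_comm]
      exact h3
    refine h4.trans (le_of_eq ?_)
    have e1 : (J : ℝ≥0∞) = ENNReal.ofReal J := by simp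
    have e2 : (10 : ℝ≥0∞) = ENNReal.ofReal 10 := by simp
    rw [e1, e2, ← ENNReal.ofReal_mul (by positivity), ← ENNReal.ofReal_div_of_pos (by norm_num),
      ← ENNReal.ofReal_div_of_pos (by positivity)]
    congr 1
    field_simp
    norm_num
  have hB1 := gm_normsq hm0
  have hincl : (B1 ∪ B2)ᶜ ⊆ ((fun (x : Fin m → ℝ) i => x i + hh i) ⁻¹' (AA m J)) := by
    intro x hx
    simp only [B1, B2, compl_union, mem_inter_iff, mem_compl_iff, mem_ofPred_eq, not_le] at hx
    obtain ⟨hx1, hx2⟩ := hx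
    simp only [mem_preimage, AA, mem_ofPred_eq]
    constructor
    · calc ∑ i : Fin m, (x i + hh i) ^ 2 ≤ ∑ i : Fin m, (2 * x i ^ 2 + 2 * hh i ^ 2) := by
            apply Finset.sum_le_sum
            intro i _
            nlinarith [sq_nonneg (x i - hh i)]
        _ = 2 * ∑ i : Fin m, x i ^ 2 + 2 * ∑ i : Fin m, hh i ^ 2 := by
            rw [Finset.sum_add_distrib, Finset.mul_sum, Finset.mul_sum]
        _ ≤ 9 * m := by
            have := sum_hh_sq m
            linarith
    · have hsub : ((badJ J (fun i => x i + hh i)).card : ℝ≥0∞) ≤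
          ∑ j ∈ Finset.Icc 1 J, (F j).indicator 1 x := by
        rw [badJ_card]
        apply Finset.sum_le_sum
        intro j hj
        by_cases hbad : (fun i => x i + hh i) ∈ {w : Fin m → ℝ | ¬ 1 ≤ (-1) ^ j * tw w (yy j)}
        · have hxF : x ∈ F j := by
            simp only [mem_ofPred_eq, not_le] at hbad
            simp only [F, mem_ofPred_eq]
            have hjJ : j ≤ J := (Finset.mem_Icc.1 hj).2
            have hjm : rexp (j / 10 : ℝ) ≤ √m := by
              refine le_trans (exp_le_exp.2 ?_) hJ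
              have : (j : ℝ) ≤ J := by exact_mod_cast hjJ
              linarith
            have ht := target j hjm hm
            have e1 : tw (fun i : Fin m => x i + hh i) (yy j) =
                ∑ i : Fin m, yy j ^ (i : ℕ) * x i + 22 * ∑ k ∈ Finset.range m, (cc k).re * yy j ^ k := by
              unfold tw hh
              rw [Finset.sum_range, Finset.mul_sum, ← Finset.sum_add_distrib]
              apply Finset.sum_congr rfl
              intro i _
              ring
            rw [e1] at hbad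
            have e2 : (-1 : ℝ) ^ j * ∑ i : Fin m, yy j ^ (i : ℕ) * x i <
                1 - 11 * rexp (j / 20 : ℝ) := by
              nlinarith
            have e3 : 1 ≤ rexp (j / 20 : ℝ) := one_le_exp (by positivity)
            have e4 : |∑ i : Fin m, yy j ^ (i : ℕ) * x i| = |(-1 : ℝ) ^ j * ∑ i : Fin m, yy j ^ (i : ℕ) * x i| := by
              rw [abs_mul, abs_pow, abs_neg, abs_one, one_pow, one_mul]
            rw [e4]
            have := neg_abs_le ((-1 : ℝ) ^ j * ∑ i : Fin m, yy j ^ (i : ℕ) * x i)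
            linarith
          rw [indicator_of_mem hxF]
          exact indicator_le_self' (by simp) _ |>.trans (by simp)
        · rw [indicator_of_notMem hbad]
          exact zero_le
      have hlt := lt_of_le_of_lt hsub hx2
      have h5 : ((badJ J (fun i => x i + hh i)).card : ℝ≥0∞) * 10 < J := by
        rwa [ENNReal.lt_div_iff_mul_lt (Or.inl (by norm_num)) (Or.inl (by norm_num))] at hlt
      have h6 : (badJ J (fun i => x i + hh i)).card * 10 < J := by exact_mod_cast h5
      omega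
  have hmeas : MeasurableSet (B1 ∪ B2) := by
    apply MeasurableSet.union
    · exact measurableSet_le measurable_const (by fun_prop)
    · exact measurableSet_le measurable_const
        (Finset.measurable_sum _ fun j _ => measurable_one.indicator (hFm j))
  have hunion : (gm m).real (B1 ∪ B2) ≤ 1 / 4 + 1 / 10 := by
    refine (measureReal_union_le _ _).trans ?_
    apply add_le_add
    · have := ENNReal.toReal_mono ENNReal.ofReal_ne_top hB1
      rwa [ENNReal.toReal_ofReal (by norm_num)] at this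
    · have := ENNReal.toReal_mono ENNReal.ofReal_ne_top hB2
      rwa [ENNReal.toReal_ofReal (by norm_num)] at this
  have hcompl : (gm m).real (B1 ∪ B2)ᶜ = 1 - (gm m).real (B1 ∪ B2) := by
    rw [measureReal_compl hmeas]
    simp
  calc (1 : ℝ) / 2 ≤ (gm m).real (B1 ∪ B2)ᶜ := by rw [hcompl]; linarith
    _ ≤ _ := measureReal_mono hincl

lemma prob_AA {m J : ℕ} (hm0 : 0 < m) (hJ0 : 0 < J) (hJ : rexp (J / 10 : ℝ) ≤ √m)
    (hm : rexp bb * (√m * rexp (-√m)) ≤ 1 / 2)
    (hm2 : 2 * (484 * (rexp (2 * bb) * (1 + log m))) ≤ m) :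
    (1 / 4) * rexp (-(484 * (rexp (2 * bb) * (1 + log m)))) ≤ (gm m).real (AA m J) := by
  have h1 := prob_shift hm0 hJ0 hJ hm hm2
  have h2 := cm_ineq (fun i : Fin m => hh i) (measurableSet_AA m J)
  have h3 := sum_hh_sq m
  have h4 : (1 / 4 : ℝ) ≤ (gm m).real (AA m J) * rexp (484 * (rexp (2 * bb) * (1 + log m))) := by
    calc (1 / 4 : ℝ) = (1 / 2) ^ 2 := by norm_num
      _ ≤ _ := pow_le_pow_left₀ (by norm_num) h1 2
      _ ≤ _ := h2
      _ ≤ _ := by
        apply mul_le_mul_of_nonneg_left (exp_le_exp.2 h3) measureReal_nonneg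
  rw [exp_neg, ← div_eq_mul_inv, div_le_iff₀ (exp_pos _)]
  exact h4

end Pool.Agent.Lead.Kac
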