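import Mathlib
import Pool.Agent.Lead.Sheppard
import Pool.Agent.Lead.Window
import Pool.Agent.Lead.Roots

open MeasureTheory ProbabilityTheory Real Set
open scoped ENNReal NNReal

namespace Pool.Agent.Lead.Kac

@[fun_prop]
lemma measurable_lin (N : ℕ) (c : ℕ → ℝ) : Measurable (lin N c) := by unfold lin; fun_prop

lemma measurableSet_chg (N : ℕ) (c d : ℕ → ℝ) : MeasurableSet (chg N c d) :=
  measurableSet_lt (f := fun ω => lin N c ω * lin N d ω) (by fun_prop) measurable_const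

lemma cnt_eq (s : Finset ℕ) (e : ℕ → Set (ℕ → ℝ)) (ω : ℕ → ℝ) :
    (cnt s e ω : ℝ) = ∑ i ∈ s, (e i).indicator 1 ω := by
  classical
  unfold cnt
  rw [Finset.card_filter]
  push_cast
  apply Finset.sum_congr rfl
  intro i _
  by_cases h : ω ∈ e i <;> simp [h]

lemma integrable_ind {e : Set (ℕ → ℝ)} (he : MeasurableSet e) :
    Integrable (e.indicator (1 : (ℕ → ℝ) → ℝ)) mu :=
  (integrable_const (1 : ℝ)).indicator he

lemma measurable_cnt (s : Finset ℕ) (e : ℕ → Set (ℕ → ℝ)) (he : ∀ i, MeasurableSet (e i)) :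
    Measurable (fun ω => (cnt s e ω : ℝ)) := by
  simp_rw [cnt_eq]
  apply Finset.measurable_sum
  intro i _
  exact measurable_one.indicator (he i)

lemma integrable_cnt (s : Finset ℕ) (e : ℕ → Set (ℕ → ℝ)) (he : ∀ i, MeasurableSet (e i)) :
    Integrable (fun ω => (cnt s e ω : ℝ)) mu := by
  simp_rw [cnt_eq]
  exact integrable_finsetSum _ fun i _ => integrable_ind (he i)

lemma integral_cnt (s : Finset ℕ) (e : ℕ → Set (ℕ → ℝ)) (he : ∀ i, MeasurableSet (e i)) :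
    ∫ ω, (cnt s e ω : ℝ) ∂mu = ∑ i ∈ s, mu.real (e i) := by
  simp_rw [cnt_eq]
  rw [integral_finsetSum _ fun i _ => integrable_ind (he i)]
  apply Finset.sum_congr rfl
  intro i _
  rw [integral_indicator_one (he i)]

lemma cnt_le (s : Finset ℕ) (e : ℕ → Set (ℕ → ℝ)) (ω : ℕ → ℝ) : cnt s e ω ≤ s.card := by
  classical
  exact Finset.card_filter_le _ _

lemma measurable_Rc (h : ℝ) (I0 I D : ℕ) : Measurable (fun ω => (Rc h I0 I D ω : ℝ)) := by
  unfold Rc
  push_cast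
  exact ((measurable_cnt _ _ fun i => measurableSet_chg _ _ _).add
    (measurable_cnt _ _ fun i => measurableSet_chg _ _ _)).add
    ((measurable_cnt _ _ fun i => measurableSet_chg _ _ _).add
    (measurable_cnt _ _ fun i => measurableSet_chg _ _ _))

lemma measurable_Wc (z : ℕ → ℝ) (J D : ℕ) : Measurable (fun ω => (Wc z J D ω : ℝ)) :=
  measurable_cnt _ _ fun i => measurableSet_chg _ _ _

lemma integrable_Rc (h : ℝ) (I0 I D : ℕ) : Integrable (fun ω => (Rc h I0 I D ω : ℝ)) mu := by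
  unfold Rc
  push_cast
  exact ((integrable_cnt _ _ fun i => measurableSet_chg _ _ _).add
    (integrable_cnt _ _ fun i => measurableSet_chg _ _ _)).add
    ((integrable_cnt _ _ fun i => measurableSet_chg _ _ _).add
    (integrable_cnt _ _ fun i => measurableSet_chg _ _ _))

lemma Rc_le (h : ℝ) (I0 I D : ℕ) (ω : ℕ → ℝ) : Rc h I0 I D ω ≤ 4 * I := by
  unfold Rc
  have h1 := cnt_le (Finset.range I) (ev1 1 h D) ω
  have h2 := cnt_le (Finset.range I) (ev1 (-1) h D) ω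
  have h3 := cnt_le (Finset.Ico I0 I) (ev2 1 h D) ω
  have h4 := cnt_le (Finset.Ico I0 I) (ev2 (-1) h D) ω
  simp only [Finset.card_range, Nat.card_Ico] at h1 h2 h3 h4
  omega

/-! ### covariances on the grid -/

lemma grid_identity (h : ℝ) (i : ℕ) :
    (1 - xs h i ^ 2) * (1 - xs h (i + 1) ^ 2) * cosh h ^ 2 = (1 - xs h i * xs h (i + 1)) ^ 2 := by
  unfold xs
  have hF : rexp (2 * ((i + 1 : ℕ) * h)) = rexp (2 * (i * h)) * rexp h ^ 2 := by
    rw [← exp_nat_mul, ← exp_add]; congr 1; push_cast; ring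
  rw [hF, cosh_eq, exp_neg]
  set E := rexp (2 * (i * h)) with hE
  set G := rexp h with hG
  have hE0 : 0 < E := exp_pos _
  have hG0 : 0 < G := exp_pos _
  have h1 : E + 1 ≠ 0 := by positivity
  have h2 : E * G ^ 2 + 1 ≠ 0 := by positivity
  field_simp
  ring

lemma one_sub_xs_sq (h : ℝ) (i : ℕ) :
    1 - xs h i ^ 2 = 4 * rexp (2 * (i * h)) / (rexp (2 * (i * h)) + 1) ^ 2 := by
  unfold xs
  have : rexp (2 * (i * h)) + 1 ≠ 0 := by positivity
  field_simp
  ring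

lemma geom_le {r : ℝ} (h0 : 0 ≤ r) (h1 : r < 1) (N : ℕ) :
    ∑ k ∈ Finset.range N, r ^ k ≤ 1 / (1 - r) := by
  rw [geom_sum_eq h1.ne, ← neg_div_neg_eq, neg_sub, neg_sub]
  apply div_le_div_of_nonneg_right _ (by linarith)
  have : 0 ≤ r ^ N := by positivity
  linarith

lemma geom_ge {r q : ℝ} (h1 : r < 1) (N : ℕ) (hq : r ^ N ≤ q) :
    (1 - q) / (1 - r) ≤ ∑ k ∈ Finset.range N, r ^ k := by
  rw [geom_sum_eq h1.ne, ← neg_div_neg_eq (r ^ N - 1), neg_sub, neg_sub]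
  apply div_le_div_of_nonneg_right _ (by linarith)
  linarith

lemma cell_cov {h q φ : ℝ} (hh : 0 < h) (hq1 : q < 1) (hφ : 1 ≤ (1 - q) * cosh h * cos φ)
    (N i : ℕ) (hq : (xs h (i + 1) ^ 2) ^ N ≤ q) :
    ∑ k ∈ Finset.range N, (xs h i * xs h (i + 1)) ^ k ≤
      cos φ * (√(∑ k ∈ Finset.range N, (xs h i ^ 2) ^ k) *
        √(∑ k ∈ Finset.range N, (xs h (i + 1) ^ 2) ^ k)) := by
  set x := xs h i with hx
  set y := xs h (i + 1) with hy
  have hx0 : 0 ≤ x := xs_nonneg hh.le i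
  have hy0 : 0 ≤ y := xs_nonneg hh.le _
  have hx1 : x < 1 := xs_lt_one _ _
  have hy1 : y < 1 := xs_lt_one _ _
  have hxy : x ≤ y := xs_mono hh.le (Nat.le_succ i)
  have hxx : x ^ 2 < 1 := by nlinarith
  have hyy : y ^ 2 < 1 := by nlinarith
  have hxy1 : x * y < 1 := by nlinarith
  have hqx : (x ^ 2) ^ N ≤ q := le_trans (pow_le_pow_left₀ (by positivity) (by nlinarith) N) hq
  have hcos : 0 < cos φ := by
    by_contra hc
    push Not at hc
    have : (1 - q) * cosh h * cos φ ≤ 0 :=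
      mul_nonpos_of_nonneg_of_nonpos (mul_nonneg (by linarith) (cosh_pos h).le) hc
    linarith
  have e1 := geom_le (by positivity : 0 ≤ x * y) hxy1 N
  have e2 := geom_ge hxx N hqx
  have e3 := geom_ge hyy N hq
  have hid := grid_identity h i
  rw [← hx, ← hy] at hid
  have ha : 0 < 1 - x ^ 2 := by linarith
  have hb : 0 < 1 - y ^ 2 := by linarith
  have hc : 0 < 1 - x * y := by linarith
  have hs : √(1 - x ^ 2) * √(1 - y ^ 2) * cosh h = 1 - x * y := by
    rw [← sqrt_mul ha.le, ← sqrt_sq (cosh_pos h).le, ← sqrt_mul (by positivity), hid, sqrt_sq hc.le]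
  have e4 : (1 - q) / (√(1 - x ^ 2) * √(1 - y ^ 2)) ≤ √(∑ k ∈ Finset.range N, (x ^ 2) ^ k) *
        √(∑ k ∈ Finset.range N, (y ^ 2) ^ k) := by
    calc (1 - q) / (√(1 - x ^ 2) * √(1 - y ^ 2)) =
        √((1 - q) / (1 - x ^ 2)) * √((1 - q) / (1 - y ^ 2)) := by
          rw [sqrt_div (by linarith), sqrt_div (by linarith), div_mul_div_comm,
            mul_self_sqrt (by linarith)]
      _ ≤ _ := by gcongr
  have hsx : 0 < √(1 - x ^ 2) := sqrt_pos.2 ha
  have hsy : 0 < √(1 - y ^ 2) := sqrt_pos.2 hb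
  calc ∑ k ∈ Finset.range N, (x * y) ^ k ≤ 1 / (1 - x * y) := e1
    _ ≤ ((1 - q) * cosh h * cos φ) / (1 - x * y) := by gcongr
    _ = cos φ * ((1 - q) / (√(1 - x ^ 2) * √(1 - y ^ 2))) := by
        rw [← hs]
        have := cosh_pos h
        field_simp
    _ ≤ _ := by gcongr

lemma prob_ev1 {h q φ σ : ℝ} (hσ : σ ^ 2 = 1) (hh : 0 < h) (hq1 : q < 1) (h0 : 0 ≤ φ) (hπ : φ ≤ π)
    (hφ : 1 ≤ (1 - q) * cosh h * cos φ) (D i : ℕ) (hq : (xs h (i + 1) ^ 2) ^ (D + 1) ≤ q) :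
    φ / π ≤ mu.real (ev1 σ h D i) := by
  have hpos : ∀ x : ℝ, 0 < ∑ k ∈ Finset.range (D + 1), ((σ * x) ^ k) ^ 2 := by
    intro x
    rw [Finset.sum_range_succ']
    have : 0 ≤ ∑ k ∈ Finset.range D, ((σ * x) ^ (k + 1)) ^ 2 := Finset.sum_nonneg fun k _ => sq_nonneg _
    simp only [pow_zero, one_pow]
    linarith
  have hsq : ∀ x : ℝ, ∑ k ∈ Finset.range (D + 1), ((σ * x) ^ k) ^ 2 =
      ∑ k ∈ Finset.range (D + 1), (x ^ 2) ^ k := by
    intro x
    apply Finset.sum_congr rfl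
    intro k _
    rw [← pow_mul, mul_comm k 2, pow_mul, mul_pow, hσ, one_mul]
  apply sign_change_ge (D + 1) _ _ h0 hπ (hpos _) (hpos _)
  rw [hsq, hsq]
  refine le_trans (le_of_eq ?_) (cell_cov hh hq1 hφ (D + 1) i hq)
  apply Finset.sum_congr rfl
  intro k _
  rw [← mul_pow]
  congr 1
  linear_combination (xs h i * xs h (i + 1)) * hσ

lemma sum_flip' (D : ℕ) (f : ℕ → ℝ) :
    ∑ k ∈ Finset.range (D + 1), f (D - k) = ∑ k ∈ Finset.range (D + 1), f k :=
  Finset.sum_flip f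

lemma prob_ev2 {h q φ σ : ℝ} (hσ : σ ^ 2 = 1) (hh : 0 < h) (hq1 : q < 1) (h0 : 0 ≤ φ) (hπ : φ ≤ π)
    (hφ : 1 ≤ (1 - q) * cosh h * cos φ) (D i : ℕ) (hq : (xs h (i + 1) ^ 2) ^ (D + 1) ≤ q) :
    φ / π ≤ mu.real (ev2 σ h D i) := by
  have hsq : ∀ x : ℝ, ∑ k ∈ Finset.range (D + 1), ((σ * x) ^ (D - k)) ^ 2 =
      ∑ k ∈ Finset.range (D + 1), (x ^ 2) ^ k := by
    intro x
    rw [sum_flip' D (fun k => ((σ * x) ^ k) ^ 2)]
    apply Finset.sum_congr rfl
    intro k _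
    rw [← pow_mul, mul_comm k 2, pow_mul, mul_pow, hσ, one_mul]
  have hpos : ∀ x : ℝ, 0 < ∑ k ∈ Finset.range (D + 1), ((σ * x) ^ (D - k)) ^ 2 := by
    intro x
    rw [hsq, Finset.sum_range_succ']
    have : 0 ≤ ∑ k ∈ Finset.range D, (x ^ 2) ^ (k + 1) := Finset.sum_nonneg fun k _ => by positivity
    simp only [pow_zero]
    linarith
  apply sign_change_ge (D + 1) _ _ h0 hπ (hpos _) (hpos _)
  rw [hsq, hsq]
  refine le_trans (le_of_eq ?_) (cell_cov hh hq1 hφ (D + 1) i hq)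
  rw [sum_flip' D (fun k => (σ * xs h i) ^ k * (σ * xs h (i + 1)) ^ k)]
  apply Finset.sum_congr rfl
  intro k _
  rw [← mul_pow]
  congr 1
  linear_combination (xs h i * xs h (i + 1)) * hσ

lemma expect_Rc {h q φ : ℝ} (hh : 0 < h) (hq1 : q < 1) (h0 : 0 ≤ φ) (hπ : φ ≤ π)
    (hφ : 1 ≤ (1 - q) * cosh h * cos φ) {D I0 I : ℕ} (hI : I0 ≤ I) (hq : (xs h I ^ 2) ^ (D + 1) ≤ q) :
    (4 * I - 2 * I0) * (φ / π) ≤ ∫ ω, (Rc h I0 I D ω : ℝ) ∂mu := by
  have hq' : ∀ i < I, (xs h (i + 1) ^ 2) ^ (D + 1) ≤ q := by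
    intro i hi
    refine le_trans ?_ hq
    apply pow_le_pow_left₀ (by positivity)
    apply pow_le_pow_left₀ (xs_nonneg hh.le _)
    exact xs_mono hh.le hi
  have m1 : ∀ σ i, MeasurableSet (ev1 σ h D i) := fun σ i => measurableSet_chg _ _ _
  have m2 : ∀ σ i, MeasurableSet (ev2 σ h D i) := fun σ i => measurableSet_chg _ _ _
  have b1 : ∀ σ : ℝ, σ ^ 2 = 1 → (I : ℝ) * (φ / π) ≤ ∑ i ∈ Finset.range I, mu.real (ev1 σ h D i) := by
    intro σ hσ
    have : ∑ i ∈ Finset.range I, (φ / π) ≤ ∑ i ∈ Finset.range I, mu.real (ev1 σ h D i) :=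
      Finset.sum_le_sum fun i hi => prob_ev1 hσ hh hq1 h0 hπ hφ D i (hq' i (Finset.mem_range.1 hi))
    simpa using this
  have b2 : ∀ σ : ℝ, σ ^ 2 = 1 → ((I : ℝ) - I0) * (φ / π) ≤ ∑ i ∈ Finset.Ico I0 I, mu.real (ev2 σ h D i) := by
    intro σ hσ
    have : ∑ i ∈ Finset.Ico I0 I, (φ / π) ≤ ∑ i ∈ Finset.Ico I0 I, mu.real (ev2 σ h D i) :=
      Finset.sum_le_sum fun i hi => prob_ev2 hσ hh hq1 h0 hπ hφ D i (hq' i (Finset.mem_Ico.1 hi).2)
    simpa [Nat.cast_sub hI] using this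
  unfold Rc
  push_cast
  rw [integral_add, integral_add, integral_add, integral_cnt _ _ (m1 1), integral_cnt _ _ (m1 (-1)),
    integral_cnt _ _ (m2 1), integral_cnt _ _ (m2 (-1))]
  · have := b1 1 (by norm_num)
    have := b1 (-1) (by norm_num)
    have := b2 1 (by norm_num)
    have := b2 (-1) (by norm_num)
    linarith
  · exact integrable_cnt _ _ (m2 _)
  · exact integrable_cnt _ _ (m2 _)
  · exact integrable_cnt _ _ (m1 _)
  · exact integrable_cnt _ _ (m1 _)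
  · exact (integrable_cnt _ _ (m1 _)).add (integrable_cnt _ _ (m1 _))
  · exact (integrable_cnt _ _ (m2 _)).add (integrable_cnt _ _ (m2 _))

/-- lower deviation probability of the robust count -/
lemma prob_Rc_lt {h T M v E : ℝ} {I0 I D : ℕ} {V : Set (ℕ → ℝ)} (hV : MeasurableSet V)
    (hv : mu.real V ≤ v) (hM0 : 0 ≤ M) (hT0 : 0 ≤ T)
    (hM : ∀ ω ∉ V, (Rc h I0 I D ω : ℝ) ≤ M) (hE : E ≤ ∫ ω, (Rc h I0 I D ω : ℝ) ∂mu) :
    mu.real {ω | (Rc h I0 I D ω : ℝ) < T} * (M - T) ≤ M + 4 * I * v - E := by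
  set A := {ω | (Rc h I0 I D ω : ℝ) < T} with hA
  have hAm : MeasurableSet A := measurableSet_lt (measurable_Rc _ _ _ _) measurable_const
  have hpt : ∀ ω, (Rc h I0 I D ω : ℝ) ≤
      T * A.indicator 1 ω + M * (1 - A.indicator 1 ω) + 4 * I * V.indicator 1 ω := by
    intro ω
    have h4 : (Rc h I0 I D ω : ℝ) ≤ 4 * I := by exact_mod_cast Rc_le h I0 I D ω
    have hI0 : (0 : ℝ) ≤ 4 * I := by positivity
    by_cases hωA : ω ∈ A
    · have h5 : (Rc h I0 I D ω : ℝ) < T := hωA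
      have h6 : (0 : ℝ) ≤ V.indicator (1 : (ℕ → ℝ) → ℝ) ω := indicator_nonneg (fun _ _ => by simp) _
      rw [indicator_of_mem hωA]
      simp only [Pi.one_apply]
      nlinarith
    · rw [indicator_of_notMem hωA]
      by_cases hωV : ω ∈ V
      · rw [indicator_of_mem hωV]
        simp only [Pi.one_apply]
        nlinarith
      · rw [indicator_of_notMem hωV]
        have := hM ω hωV
        linarith
  have hint := integral_mono (integrable_Rc h I0 I D)
    (g := fun ω => T * A.indicator 1 ω + M * (1 - A.indicator 1 ω) + 4 * I * V.indicator 1 ω)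
    ((((integrable_ind hAm).const_mul T).add
      (((integrable_const 1).sub (integrable_ind hAm)).const_mul M)).add
      ((integrable_ind hV).const_mul (4 * I : ℝ))) hpt
  have hval : ∫ ω, (T * A.indicator (1 : (ℕ → ℝ) → ℝ) ω + M * (1 - A.indicator (1 : (ℕ → ℝ) → ℝ) ω) +
      4 * I * V.indicator (1 : (ℕ → ℝ) → ℝ) ω) ∂mu = T * mu.real A + M * (1 - mu.real A) + 4 * I * mu.real V := by
    rw [integral_add, integral_add, integral_const_mul, integral_const_mul, integral_const_mul,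
      integral_sub, integral_indicator_one hAm, integral_indicator_one hV]
    · simp
    · exact integrable_const 1
    · exact integrable_ind hAm
    · exact (integrable_ind hAm).const_mul T
    · exact ((integrable_const 1).sub (integrable_ind hAm)).const_mul M
    · exact ((integrable_ind hAm).const_mul T).add
        (((integrable_const 1).sub (integrable_ind hAm)).const_mul M)
    · exact (integrable_ind hV).const_mul (4 * I : ℝ)
  rw [hval] at hint
  have : (4 * I : ℝ) * mu.real V ≤ 4 * I * v := by gcongr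
  linarith

/-! ### small values on the grid -/

lemma small_inner {h σ β : ℝ} (hβ : 0 ≤ β) (D i : ℕ) :
    mu.real {ω | |lin (D + 1) (fun k => (σ * xs h i) ^ k) ω| ≤ β} ≤ β := by
  have hpos : 1 ≤ ∑ k ∈ Finset.range (D + 1), ((σ * xs h i) ^ k) ^ 2 := by
    rw [Finset.sum_range_succ']
    have : 0 ≤ ∑ k ∈ Finset.range D, ((σ * xs h i) ^ (k + 1)) ^ 2 := Finset.sum_nonneg fun k _ => sq_nonneg _
    simp only [pow_zero, one_pow]
    linarith
  have := small_ball_mu (D + 1) (fun k => (σ * xs h i) ^ k) (by linarith) hβ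
  refine this.trans ?_
  apply div_le_self hβ
  exact one_le_sqrt.2 hpos

lemma small_outer {h σ β q : ℝ} (hσ : σ ^ 2 = 1) (hh : 0 < h) (hq2 : q ≤ 1 / 2) (hβ : 0 ≤ β) (D i : ℕ)
    (hq : (xs h i ^ 2) ^ (D + 1) ≤ q) :
    mu.real {ω | |lin (D + 1) (fun k => (σ * xs h i) ^ (D - k)) ω| ≤ β} ≤ 3 * β * rexp (-(i * h)) := by
  have hsq : ∑ k ∈ Finset.range (D + 1), ((σ * xs h i) ^ (D - k)) ^ 2 =
      ∑ k ∈ Finset.range (D + 1), (xs h i ^ 2) ^ k := by
    rw [sum_flip' D (fun k => ((σ * xs h i) ^ k) ^ 2)]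
    apply Finset.sum_congr rfl
    intro k _
    rw [← pow_mul, mul_comm k 2, pow_mul, mul_pow, hσ, one_mul]
  have hx0 : 0 ≤ xs h i := xs_nonneg hh.le i
  have hx1 : xs h i < 1 := xs_lt_one _ _
  have hxx : xs h i ^ 2 < 1 := by nlinarith
  have e1 := geom_ge hxx (D + 1) hq
  rw [one_sub_xs_sq] at e1
  set E := rexp (2 * (i * h)) with hE
  have hE0 : 0 < E := exp_pos _
  have e2 : E / 8 ≤ ∑ k ∈ Finset.range (D + 1), (xs h i ^ 2) ^ k := by
    refine le_trans ?_ e1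
    rw [div_div_eq_mul_div, div_le_div_iff₀ (by norm_num) (by positivity)]
    have : (1 / 2 : ℝ) * (E + 1) ^ 2 ≤ (1 - q) * (E + 1) ^ 2 := by
      apply mul_le_mul_of_nonneg_right _ (by positivity); linarith
    nlinarith
  have hpos : 0 < ∑ k ∈ Finset.range (D + 1), ((σ * xs h i) ^ (D - k)) ^ 2 := by
    rw [hsq]; exact lt_of_lt_of_le (by positivity) e2
  have e3 : rexp (i * h) / 3 ≤ √(∑ k ∈ Finset.range (D + 1), ((σ * xs h i) ^ (D - k)) ^ 2) := by
    rw [hsq]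
    apply le_sqrt_of_sq_le
    refine le_trans ?_ e2
    rw [div_pow, ← exp_nat_mul]
    have : rexp ((2 : ℕ) * (i * h)) = E := by rw [hE]; norm_num
    rw [this]
    linarith
  refine (small_ball_mu (D + 1) (fun k => (σ * xs h i) ^ (D - k)) hpos hβ).trans ?_
  calc β / √(∑ k ∈ Finset.range (D + 1), ((σ * xs h i) ^ (D - k)) ^ 2) ≤ β / (rexp (i * h) / 3) := by
        gcongr
    _ = 3 * β * rexp (-(i * h)) := by
        rw [exp_neg]; field_simp

lemma mu_normsq (N : ℕ) (hN : 0 < N) {l : ℝ} (hl : 0 < l) :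
    mu.real {ω | l * (N : ℝ) ≤ ∑ k ∈ Finset.range N, ω k ^ 2} ≤ 1 / l := by
  have hN' : (0 : ℝ) < N := by exact_mod_cast hN
  have hmean : ∫ ω, ∑ k ∈ Finset.range N, ω k ^ 2 ∂mu = N := by
    have hi : ∀ k : ℕ, Integrable (fun ω : ℕ → ℝ => ω k ^ 2) mu := by
      intro k
      have : Integrable (fun y : ℝ => y ^ 2) (gaussianReal 0 1) :=
        (IsGaussian.memLp_two_id (μ := gaussianReal 0 1)).integrable_sq
      exact (measurePreserving_eval_infinitePi (fun _ : ℕ => gaussianReal 0 1) k).integrable_comp_of_integrable this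
    rw [integral_finsetSum _ fun k _ => hi k]
    have : ∀ k : ℕ, ∫ ω, ω k ^ 2 ∂mu = 1 := by
      intro k
      have h1 := (measurePreserving_eval_infinitePi (fun _ : ℕ => gaussianReal 0 1) k)
      have h2 : ∫ ω, ω k ^ 2 ∂mu = ∫ y, y ^ 2 ∂(gaussianReal 0 1) := by
        rw [← h1.map_eq, integral_map (measurable_pi_apply k).aemeasurable (by fun_prop)]
        rfl
      rw [h2]
      have := variance_fun_id_gaussianReal (μ := 0) (v := 1)
      rw [variance_eq_integral (by fun_prop), integral_id_gaussianReal] at this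
      simpa using this
    simp [this]
  have hint : Integrable (fun ω : ℕ → ℝ => ∑ k ∈ Finset.range N, ω k ^ 2) mu := by
    by_contra hc
    rw [integral_undef hc] at hmean
    linarith
  have := mul_meas_ge_le_integral_of_nonneg (μ := mu)
    (f := fun ω : ℕ → ℝ => ∑ k ∈ Finset.range N, ω k ^ 2)
    (Filter.Eventually.of_forall fun ω => Finset.sum_nonneg fun k _ => sq_nonneg _) hint (l * N)
  rw [hmean] at this
  rw [le_div_iff₀ hl]
  have h2 : (l * N) * mu.real {ω : ℕ → ℝ | l * (N : ℝ) ≤ ∑ k ∈ Finset.range N, ω k ^ 2} ≤ N := this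
  nlinarith

end Pool.Agent.Lead.Kac
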