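import Mathlib
import Pool.Agent.Lead.Typical

open MeasureTheory ProbabilityTheory Real Set
open scoped ENNReal NNReal

namespace Pool.Agent.Lead.Kac

lemma sgn_pert {a b a' b' : ℝ} (ha : |a' - a| < |a|) (hb : |b' - b| < |b|) (hab : a * b < 0) :
    a' * b' < 0 := by
  rcases mul_neg_iff.1 hab with ⟨h1, h2⟩ | ⟨h1, h2⟩
  · rw [abs_of_pos h1] at ha
    rw [abs_of_neg h2] at hb
    have h3 := (abs_lt.1 ha).1
    have h4 := (abs_lt.1 hb).2
    exact mul_neg_of_pos_of_neg (by linarith) (by linarith)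
  · rw [abs_of_neg h1] at ha
    rw [abs_of_pos h2] at hb
    have h3 := (abs_lt.1 ha).2
    have h4 := (abs_lt.1 hb).1
    exact mul_neg_of_neg_of_pos (by linarith) (by linarith)

/-- the window read backwards from degree `D` -/
def win (m D : ℕ) (ω : ℕ → ℝ) : Fin m → ℝ := fun i => ω (D - i)

lemma win_l1 {m D : ℕ} {ω : ℕ → ℝ} (h : ∑ i, win m D ω i ^ 2 ≤ 9 * m) :
    ∑ i, |win m D ω i| ≤ 3 * m := by
  have h1 : (∑ i : Fin m, |win m D ω i|) ^ 2 ≤ m * ∑ i, win m D ω i ^ 2 := by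
    have := sq_sum_le_card_mul_sum_sq (s := Finset.univ) (f := fun i : Fin m => |win m D ω i|)
    simpa using this
  have h2 : (∑ i : Fin m, |win m D ω i|) ^ 2 ≤ (3 * m : ℝ) ^ 2 := by
    have hm : (0 : ℝ) ≤ m := Nat.cast_nonneg m
    nlinarith
  exact le_of_sq_le_sq h2 (by positivity)

lemma tw_le {m : ℕ} {w : Fin m → ℝ} {y : ℝ} (hy : |y| ≤ 1) (hw : ∑ i, |w i| ≤ 3 * m) :
    |tw w y| ≤ 3 * m := by
  refine le_trans ?_ hw
  unfold tw
  refine (Finset.abs_sum_le_sum_abs _ _).trans ?_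
  apply Finset.sum_le_sum
  intro i _
  rw [abs_mul, abs_pow]
  exact mul_le_of_le_one_right (abs_nonneg _) (pow_le_one₀ (abs_nonneg _) hy)

lemma inner_split (D m : ℕ) (x : ℝ) (ω : ℕ → ℝ) :
    lin (D + m + 1) (fun k => x ^ k) ω = lin (D + 1) (fun k => x ^ k) ω +
      ∑ i ∈ Finset.range m, x ^ (D + 1 + i) * ω (D + 1 + i) := by
  unfold lin
  rw [show D + m + 1 = (D + 1) + m by ring, Finset.sum_range_add]

lemma inner_pert {D m : ℕ} {x : ℝ} (hx : |x| ≤ 1) {ω : ℕ → ℝ}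
    (hw : ∑ i, |win m (D + m) ω i| ≤ 3 * m) :
    |lin (D + m + 1) (fun k => x ^ k) ω - lin (D + 1) (fun k => x ^ k) ω| ≤ |x| ^ (D + 1) * (3 * m) := by
  rw [inner_split, add_sub_cancel_left]
  refine (Finset.abs_sum_le_sum_abs _ _).trans ?_
  have h1 : ∑ i ∈ Finset.range m, |x ^ (D + 1 + i) * ω (D + 1 + i)| ≤
      ∑ i ∈ Finset.range m, |x| ^ (D + 1) * |ω (D + 1 + i)| := by
    apply Finset.sum_le_sum
    intro i _
    rw [abs_mul, abs_pow]
    apply mul_le_mul_of_nonneg_right _ (abs_nonneg _)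
    exact pow_le_pow_of_le_one (abs_nonneg _) hx (by omega)
  refine h1.trans ?_
  rw [← Finset.mul_sum]
  apply mul_le_mul_of_nonneg_left _ (by positivity)
  refine le_trans (le_of_eq ?_) hw
  rw [Finset.sum_range (fun i => |ω (D + 1 + i)|)]
  rw [← Equiv.sum_comp Fin.revPerm]
  apply Finset.sum_congr rfl
  intro i _
  unfold win
  congr 2
  simp only [Fin.revPerm_apply, Fin.val_rev]
  omega

lemma outer_split (D m : ℕ) (y : ℝ) (ω : ℕ → ℝ) :
    lin (D + m + 1) (fun k => y ^ (D + m - k)) ω =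
      y ^ m * lin (D + 1) (fun k => y ^ (D - k)) ω + tw (win m (D + m) ω) y := by
  unfold lin
  rw [show D + m + 1 = (D + 1) + m by ring, Finset.sum_range_add]
  congr 1
  · rw [Finset.mul_sum]
    apply Finset.sum_congr rfl
    intro k hk
    have hk' := Finset.mem_range.1 hk
    simp only [show D + m - k = m + (D - k) by omega, pow_add]
    ring
  · unfold tw
    rw [Finset.sum_range (fun i => y ^ (D + m - (D + 1 + i)) * ω (D + 1 + i))]
    rw [← Equiv.sum_comp Fin.revPerm]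
    apply Finset.sum_congr rfl
    intro i _
    have hi := i.2
    unfold win
    simp only [Fin.revPerm_apply, Fin.val_rev]
    rw [show D + m - (D + 1 + (m - (i + 1))) = (i : ℕ) by omega,
      show D + 1 + (m - (i + 1)) = D + m - i by omega]
    ring

/-- the good event for degree `D` -/
def GG (h T β : ℝ) (m I0 I D : ℕ) : Set (ℕ → ℝ) :=
  {ω | T ≤ Rc h I0 I D ω ∧
    (∀ i ∈ Finset.range (I + 1), β < |lin (D + 1) (fun k => (1 * xs h i) ^ k) ω| ∧
      β < |lin (D + 1) (fun k => (-1 * xs h i) ^ k) ω|) ∧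
    (∀ i ∈ Finset.Icc I0 I, 8 * m < |lin (D + 1) (fun k => (1 * xs h i) ^ (D - k)) ω| ∧
      8 * m < |lin (D + 1) (fun k => (-1 * xs h i) ^ (D - k)) ω|) ∧
    ∑ k ∈ Finset.range (D + 1), ω k ^ 2 < 20 * ((D + 1 : ℕ) : ℝ)}

lemma cnt_mono {s : Finset ℕ} {e e' : ℕ → Set (ℕ → ℝ)} {ω : ℕ → ℝ}
    (h : ∀ i ∈ s, ω ∈ e i → ω ∈ e' i) : cnt s e ω ≤ cnt s e' ω := by
  classical
  unfold cnt
  apply Finset.card_le_card
  intro i hi
  rw [Finset.mem_filter] at hi ⊢
  exact ⟨hi.1, h i hi.1 hi.2⟩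

lemma Rc_step {h T β : ℝ} {m I0 I D : ℕ} (hh : 0 < h) (hI0 : 0 < I0)
    (hβ : xs h I ^ (D + 1) * (3 * m) ≤ β) (hm : 1 / 2 ≤ xs h I0 ^ m) (hm0 : 0 < m) {ω : ℕ → ℝ}
    (hG : ω ∈ GG h T β m I0 I D) (hA : ∑ i, win m (D + m) ω i ^ 2 ≤ 9 * m) :
    Rc h I0 I D ω ≤ Rc h I0 I (D + m) ω := by
  have hw := win_l1 hA
  obtain ⟨_, hG1, hG2, _⟩ := hG
  have hm0' : (0 : ℝ) < m := by exact_mod_cast hm0
  have key1 : ∀ σ : ℝ, |σ| = 1 → ∀ i ≤ I, β < |lin (D + 1) (fun k => (σ * xs h i) ^ k) ω| →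
      |lin (D + m + 1) (fun k => (σ * xs h i) ^ k) ω - lin (D + 1) (fun k => (σ * xs h i) ^ k) ω| <
        |lin (D + 1) (fun k => (σ * xs h i) ^ k) ω| := by
    intro σ hσ i hi hlt
    refine lt_of_le_of_lt ?_ hlt
    have hx0 := xs_nonneg hh.le i
    have habs : |σ * xs h i| = xs h i := by rw [abs_mul, hσ, one_mul, abs_of_nonneg hx0]
    refine (inner_pert (by rw [habs]; exact (xs_lt_one h i).le) hw).trans ?_
    rw [habs]
    refine le_trans ?_ hβ
    have := pow_le_pow_left₀ hx0 (xs_mono hh.le hi) (D + 1)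
    gcongr
  have key2 : ∀ σ : ℝ, |σ| = 1 → ∀ i, I0 ≤ i → 8 * m < |lin (D + 1) (fun k => (σ * xs h i) ^ (D - k)) ω| →
      |lin (D + m + 1) (fun k => (σ * xs h i) ^ (D + m - k)) ω -
        (σ * xs h i) ^ m * lin (D + 1) (fun k => (σ * xs h i) ^ (D - k)) ω| <
        |(σ * xs h i) ^ m * lin (D + 1) (fun k => (σ * xs h i) ^ (D - k)) ω| := by
    intro σ hσ i hi hlt
    have hx0 := xs_nonneg hh.le i
    have habs : |σ * xs h i| = xs h i := by rw [abs_mul, hσ, one_mul, abs_of_nonneg hx0]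
    rw [outer_split, add_sub_cancel_left, abs_mul, abs_pow, habs]
    refine lt_of_le_of_lt (tw_le (by rw [habs]; exact (xs_lt_one h i).le) hw) ?_
    have h1 : 1 / 2 ≤ xs h i ^ m := hm.trans (pow_le_pow_left₀ (xs_nonneg hh.le _) (xs_mono hh.le hi) m)
    nlinarith
  unfold Rc
  have s1 : |(1 : ℝ)| = 1 := abs_one
  have s2 : |(-1 : ℝ)| = 1 := by simp
  have c1 : ∀ σ : ℝ, |σ| = 1 → (∀ i ∈ Finset.range (I + 1), β < |lin (D + 1) (fun k => (σ * xs h i) ^ k) ω|) →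
      cnt (Finset.range I) (ev1 σ h D) ω ≤ cnt (Finset.range I) (ev1 σ h (D + m)) ω := by
    intro σ hσ hb
    apply cnt_mono
    intro i hi hωe
    have hi' := Finset.mem_range.1 hi
    exact sgn_pert (key1 σ hσ i hi'.le (hb i (Finset.mem_range.2 (by omega))))
      (key1 σ hσ (i + 1) hi' (hb (i + 1) (Finset.mem_range.2 (by omega)))) hωe
  have c2 : ∀ σ : ℝ, |σ| = 1 → (∀ i ∈ Finset.Icc I0 I, 8 * m < |lin (D + 1) (fun k => (σ * xs h i) ^ (D - k)) ω|) →
      cnt (Finset.Ico I0 I) (ev2 σ h D) ω ≤ cnt (Finset.Ico I0 I) (ev2 σ h (D + m)) ω := by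
    intro σ hσ hb
    apply cnt_mono
    intro i hi hωe
    have hi' := Finset.mem_Ico.1 hi
    refine sgn_pert (key2 σ hσ i hi'.1 (hb i (Finset.mem_Icc.2 ⟨hi'.1, hi'.2.le⟩)))
      (key2 σ hσ (i + 1) (by omega) (hb (i + 1) (Finset.mem_Icc.2 ⟨by omega, hi'.2⟩))) ?_
    have hpos : 0 < (σ * xs h i) * (σ * xs h (i + 1)) := by
      have hσ2 : σ * σ = 1 := by rw [← abs_mul_abs_self, hσ, one_mul]
      have : (σ * xs h i) * (σ * xs h (i + 1)) = (σ * σ) * (xs h i * xs h (i + 1)) := by ring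
      rw [this, hσ2, one_mul]
      exact mul_pos (xs_pos hh (by omega)) (xs_pos hh (by omega))
    have h2 : (σ * xs h i) ^ m * lin (D + 1) (fun k => (σ * xs h i) ^ (D - k)) ω *
        ((σ * xs h (i + 1)) ^ m * lin (D + 1) (fun k => (σ * xs h (i + 1)) ^ (D - k)) ω) =
        ((σ * xs h i) * (σ * xs h (i + 1))) ^ m * (lin (D + 1) (fun k => (σ * xs h i) ^ (D - k)) ω *
        lin (D + 1) (fun k => (σ * xs h (i + 1)) ^ (D - k)) ω) := by
      rw [mul_pow]; ring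
    rw [h2]
    exact mul_neg_of_pos_of_neg (pow_pos hpos _) hωe
  have a1 := c1 1 s1 fun i hi => (hG1 i hi).1
  have a2 := c1 (-1) s2 fun i hi => (hG1 i hi).2
  have a3 := c2 1 s1 fun i hi => (hG2 i hi).1
  have a4 := c2 (-1) s2 fun i hi => (hG2 i hi).2
  omega

lemma lin_abs_le {D : ℕ} {c : ℕ → ℝ} (hc : ∀ k, |c k| ≤ 1) {ω : ℕ → ℝ}
    (hω : ∑ k ∈ Finset.range (D + 1), ω k ^ 2 < 20 * ((D + 1 : ℕ) : ℝ)) :
    |lin (D + 1) c ω| ≤ 5 * (D + 1 : ℕ) := by
  have h1 : |lin (D + 1) c ω| ≤ ∑ k ∈ Finset.range (D + 1), |ω k| := by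
    unfold lin
    refine (Finset.abs_sum_le_sum_abs _ _).trans (Finset.sum_le_sum fun k _ => ?_)
    rw [abs_mul]
    exact mul_le_of_le_one_left (abs_nonneg _) (hc k)
  have h2 : (∑ k ∈ Finset.range (D + 1), |ω k|) ^ 2 ≤ (D + 1 : ℕ) * ∑ k ∈ Finset.range (D + 1), ω k ^ 2 := by
    have := sq_sum_le_card_mul_sum_sq (s := Finset.range (D + 1)) (f := fun k => |ω k|)
    simpa using this
  have hD : (0 : ℝ) < (D + 1 : ℕ) := by positivity
  have h3 : (∑ k ∈ Finset.range (D + 1), |ω k|) ^ 2 ≤ (5 * (D + 1 : ℕ) : ℝ) ^ 2 := by nlinarith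
  exact h1.trans (le_of_sq_le_sq h3 (by positivity))

lemma yy_strictMono : StrictMono yy := by
  intro i j hij
  unfold yy
  have : rexp (-(j / 10 : ℝ)) < rexp (-(i / 10 : ℝ)) := by
    apply exp_lt_exp.2
    have : (i : ℝ) < j := by exact_mod_cast hij
    linarith
  linarith

lemma Wc_step {h T β : ℝ} {m I0 I D J : ℕ} (hJ : rexp (J / 10 : ℝ) ≤ √m)
    (hsmall : rexp (-√m) * (5 * (D + 1 : ℕ)) < 1) {ω : ℕ → ℝ}
    (hG : ω ∈ GG h T β m I0 I D) (hA : win m (D + m) ω ∈ AA m J) (hJ0 : 0 < J) :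
    (4 / 5 : ℝ) * J - 1 ≤ Wc yy J (D + m) ω := by
  classical
  obtain ⟨_, _, _, hG3⟩ := hG
  obtain ⟨_, hA2⟩ := hA
  have hval : ∀ j ≤ J, |yy j ^ m * lin (D + 1) (fun k => yy j ^ (D - k)) ω| < 1 := by
    intro j hj
    have h0 := yy_nonneg j
    have h1 := yy_lt_one j
    have hl := lin_abs_le (D := D) (c := fun k => yy j ^ (D - k))
      (fun k => by rw [abs_of_nonneg (by positivity)]; exact pow_le_one₀ h0 h1.le) hG3
    rw [abs_mul, abs_of_nonneg (by positivity)]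
    refine lt_of_le_of_lt ?_ hsmall
    apply mul_le_mul _ hl (abs_nonneg _) (exp_pos _).le
    refine (yy_pow_le j m).trans ?_
    apply exp_le_exp.2
    apply neg_le_neg
    have hj' : rexp (j / 10 : ℝ) ≤ √m := by
      refine le_trans (exp_le_exp.2 ?_) hJ
      have : (j : ℝ) ≤ J := by exact_mod_cast hj
      linarith
    rw [exp_neg, ← div_eq_mul_inv, le_div_iff₀ (exp_pos _)]
    calc √m * rexp (j / 10 : ℝ) ≤ √m * √m := by gcongr
      _ = m := mul_self_sqrt (Nat.cast_nonneg _)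
  have hgood : ∀ j, 1 ≤ j → j ≤ J → j ∉ badJ J (win m (D + m) ω) →
      0 < (-1) ^ j * lin (D + m + 1) (fun k => yy j ^ (D + m - k)) ω := by
    intro j hj1 hj2 hj3
    have h1 : 1 ≤ (-1) ^ j * tw (win m (D + m) ω) (yy j) := by
      by_contra hc
      apply hj3
      unfold badJ
      rw [Finset.mem_filter]
      exact ⟨Finset.mem_Icc.2 ⟨hj1, hj2⟩, hc⟩
    rw [outer_split, mul_add]
    have h2 := hval j hj2
    have h3 : |(-1 : ℝ) ^ j * (yy j ^ m * lin (D + 1) (fun k => yy j ^ (D - k)) ω)| < 1 := by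
      rw [abs_mul, abs_pow, abs_neg, abs_one, one_pow, one_mul]; exact h2
    linarith [(abs_lt.1 h3).1]
  have hsub : (Finset.Ico 1 J) \ (badJ J (win m (D + m) ω) ∪ (badJ J (win m (D + m) ω)).image (fun j => j - 1)) ⊆
      (Finset.Ico 1 J).filter (fun j => ω ∈ ev3 yy (D + m) j) := by
    intro j hj
    simp only [Finset.mem_sdiff, Finset.mem_union, Finset.mem_image, not_or, not_exists, not_and] at hj
    obtain ⟨hj1, hj2, hj3⟩ := hj
    have hj1' := Finset.mem_Ico.1 hj1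
    rw [Finset.mem_filter]
    refine ⟨hj1, ?_⟩
    have hj4 : j + 1 ∉ badJ J (win m (D + m) ω) := fun hc => hj3 (j + 1) hc (by omega)
    have g1 := hgood j hj1'.1 hj1'.2.le hj2
    have g2 := hgood (j + 1) (by omega) hj1'.2 hj4
    have g3 := mul_pos g1 g2
    have e1 : (-1 : ℝ) ^ j * lin (D + m + 1) (fun k => yy j ^ (D + m - k)) ω *
        ((-1) ^ (j + 1) * lin (D + m + 1) (fun k => yy (j + 1) ^ (D + m - k)) ω) =
        - (lin (D + m + 1) (fun k => yy j ^ (D + m - k)) ω *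
          lin (D + m + 1) (fun k => yy (j + 1) ^ (D + m - k)) ω) := by
      have : (-1 : ℝ) ^ j * (-1) ^ (j + 1) = -1 := by
        rw [← pow_add, show j + (j + 1) = 2 * j + 1 by ring, pow_succ, pow_mul]; norm_num
      calc _ = ((-1 : ℝ) ^ j * (-1) ^ (j + 1)) * (lin (D + m + 1) (fun k => yy j ^ (D + m - k)) ω *
          lin (D + m + 1) (fun k => yy (j + 1) ^ (D + m - k)) ω) := by ring
        _ = _ := by rw [this]; ring
    rw [e1] at g3
    have g4 : lin (D + m + 1) (fun k => yy j ^ (D + m - k)) ω *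
          lin (D + m + 1) (fun k => yy (j + 1) ^ (D + m - k)) ω < 0 := by linarith
    exact g4
  have hcard := Finset.card_le_card hsub
  have h1 := Finset.le_card_sdiff (badJ J (win m (D + m) ω) ∪ (badJ J (win m (D + m) ω)).image (fun j => j - 1))
    (Finset.Ico 1 J)
  have h2 := Finset.card_union_le (badJ J (win m (D + m) ω)) ((badJ J (win m (D + m) ω)).image (fun j => j - 1))
  have h3 := Finset.card_image_le (s := badJ J (win m (D + m) ω)) (f := fun j => j - 1)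
  rw [Nat.card_Ico] at h1
  have h4 : 4 * J ≤ 5 * Wc yy J (D + m) ω + 5 := by
    unfold Wc cnt
    omega
  have h5 : (4 * J : ℝ) ≤ 5 * (Wc yy J (D + m) ω : ℝ) + 5 := by exact_mod_cast h4
  linarith

end Pool.Agent.Lead.Kac
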