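import Mathlib
import Pool.Agent.Lead.Pert

open MeasureTheory ProbabilityTheory Real Set
open scoped ENNReal NNReal

namespace Pool.Agent.Lead.Kac

lemma indep_coord : iIndepFun (fun (i : ℕ) (ω : ℕ → ℝ) => ω i) mu := by
  unfold mu
  exact iIndepFun_infinitePi (X := fun _ x => x) (fun _ => measurable_id)

open Classical in
/-- extension by zero -/
noncomputable def ext0 (S : Finset ℕ) (z : S → ℝ) : ℕ → ℝ := fun i => if h : i ∈ S then z ⟨i, h⟩ else 0

lemma measurable_ext0 (S : Finset ℕ) : Measurable (ext0 S) := by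
  classical
  rw [measurable_pi_iff]
  intro i
  unfold ext0
  by_cases h : i ∈ S
  · simp only [h, dif_pos]
    exact measurable_pi_apply _
  · simp only [h, dif_neg, not_false_iff]
    exact measurable_const

/-- `H` depends only on the coordinates in `S` -/
def Dep (S : Finset ℕ) (H : Set (ℕ → ℝ)) : Prop :=
  ∀ ω ω' : ℕ → ℝ, (∀ i ∈ S, ω i = ω' i) → (ω ∈ H → ω' ∈ H)

lemma Dep.iff {S : Finset ℕ} {H : Set (ℕ → ℝ)} (h : Dep S H) {ω ω' : ℕ → ℝ}
    (hω : ∀ i ∈ S, ω i = ω' i) : ω ∈ H ↔ ω' ∈ H :=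
  ⟨h ω ω' hω, h ω' ω fun i hi => (hω i hi).symm⟩

lemma dep_pre {S : Finset ℕ} {H : Set (ℕ → ℝ)} (dH : Dep S H) :
    H = (fun (a : ℕ → ℝ) (i : S) => a i) ⁻¹' (ext0 S ⁻¹' H) := by
  classical
  ext ω
  simp only [mem_preimage]
  apply dH.iff
  intro i hi
  simp [ext0, hi]

lemma indep_dep {S T : Finset ℕ} (hST : Disjoint S T) {H A : Set (ℕ → ℝ)} (hH : MeasurableSet H)
    (hA : MeasurableSet A) (dH : Dep S H) (dA : Dep T A) : mu (H ∩ A) = mu H * mu A := by
  have hind := indep_coord.indepFun_finset S T hST (fun i => measurable_pi_apply i)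
  have h1 := hind.measure_inter_preimage_eq_mul (ext0 S ⁻¹' H) (ext0 T ⁻¹' A)
    (measurable_ext0 S hH) (measurable_ext0 T hA)
  rw [← dep_pre dH, ← dep_pre dA] at h1
  exact h1

lemma Dep.mono {S T : Finset ℕ} (hST : S ⊆ T) {H : Set (ℕ → ℝ)} (h : Dep S H) : Dep T H :=
  fun ω ω' hω => h ω ω' fun i hi => hω i (hST hi)

lemma Dep.inter {S : Finset ℕ} {H H' : Set (ℕ → ℝ)} (h : Dep S H) (h' : Dep S H') :
    Dep S (H ∩ H') := fun ω ω' hω hm => ⟨h ω ω' hω hm.1, h' ω ω' hω hm.2⟩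

lemma Dep.compl {S : Finset ℕ} {H : Set (ℕ → ℝ)} (h : Dep S H) : Dep S Hᶜ :=
  fun ω ω' hω hm hm' => hm (h ω' ω (fun i hi => (hω i hi).symm) hm')

lemma lin_congr {N : ℕ} {c ω ω' : ℕ → ℝ} (h : ∀ i ∈ Finset.range N, ω i = ω' i) :
    lin N c ω = lin N c ω' := by
  unfold lin
  exact Finset.sum_congr rfl fun k hk => by rw [h k hk]

lemma cnt_congr {s : Finset ℕ} {e : ℕ → Set (ℕ → ℝ)} {ω ω' : ℕ → ℝ}
    (h : ∀ i, ω ∈ e i ↔ ω' ∈ e i) : cnt s e ω = cnt s e ω' := by
  classical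
  unfold cnt
  congr 1
  apply Finset.filter_congr
  intro i _
  exact h i

lemma chg_congr {N : ℕ} {c d ω ω' : ℕ → ℝ} (h : ∀ i ∈ Finset.range N, ω i = ω' i) :
    ω ∈ chg N c d ↔ ω' ∈ chg N c d := by
  unfold chg
  simp only [mem_ofPred_eq]
  rw [lin_congr h, lin_congr (c := d) h]

lemma Rc_congr {h : ℝ} {I0 I D : ℕ} {ω ω' : ℕ → ℝ} (hω : ∀ i ∈ Finset.range (D + 1), ω i = ω' i) :
    Rc h I0 I D ω = Rc h I0 I D ω' := by
  unfold Rc
  rw [cnt_congr (e := ev1 1 h D) (fun i => chg_congr hω), cnt_congr (e := ev1 (-1) h D) (fun i => chg_congr hω),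
    cnt_congr (e := ev2 1 h D) (fun i => chg_congr hω), cnt_congr (e := ev2 (-1) h D) (fun i => chg_congr hω)]

lemma dep_GG (h T β : ℝ) (m I0 I D : ℕ) : Dep (Finset.range (D + 1)) (GG h T β m I0 I D) := by
  intro ω ω' hω hG
  obtain ⟨h1, h2, h3, h4⟩ := hG
  refine ⟨?_, ?_, ?_, ?_⟩
  · rw [← Rc_congr hω]; exact h1
  · intro i hi
    rw [← lin_congr hω, ← lin_congr (c := fun k => (-1 * xs h i) ^ k) hω]
    exact h2 i hi
  · intro i hi
    rw [← lin_congr hω, ← lin_congr (c := fun k => (-1 * xs h i) ^ (D - k)) hω]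
    exact h3 i hi
  · have : ∑ k ∈ Finset.range (D + 1), ω' k ^ 2 = ∑ k ∈ Finset.range (D + 1), ω k ^ 2 :=
      Finset.sum_congr rfl fun k hk => by rw [hω k hk]
    rw [this]
    exact h4

lemma measurableSet_GG (h T β : ℝ) (m I0 I D : ℕ) : MeasurableSet (GG h T β m I0 I D) := by
  have e : GG h T β m I0 I D = {ω | T ≤ Rc h I0 I D ω} ∩
      ((⋂ i ∈ Finset.range (I + 1), ({ω | β < |lin (D + 1) (fun k => (1 * xs h i) ^ k) ω|} ∩
        {ω | β < |lin (D + 1) (fun k => (-1 * xs h i) ^ k) ω|})) ∩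
      ((⋂ i ∈ Finset.Icc I0 I, ({ω | 8 * m < |lin (D + 1) (fun k => (1 * xs h i) ^ (D - k)) ω|} ∩
        {ω | 8 * m < |lin (D + 1) (fun k => (-1 * xs h i) ^ (D - k)) ω|})) ∩
      {ω | ∑ k ∈ Finset.range (D + 1), ω k ^ 2 < 20 * ((D + 1 : ℕ) : ℝ)})) := by
    ext ω
    simp only [GG, mem_ofPred_eq, mem_inter_iff, mem_iInter]
  rw [e]
  have ml : ∀ (N : ℕ) (c : ℕ → ℝ) (t : ℝ), MeasurableSet {ω | t < |lin N c ω|} := by
    intro N c t
    have : Measurable fun ω => |lin N c ω| := by fun_prop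
    exact measurableSet_lt measurable_const this
  refine MeasurableSet.inter (measurableSet_le measurable_const (measurable_Rc _ _ _ _)) ?_
  refine MeasurableSet.inter ?_ (MeasurableSet.inter ?_ ?_)
  · exact Finset.measurableSet_biInter _ fun i _ => (ml _ _ _).inter (ml _ _ _)
  · exact Finset.measurableSet_biInter _ fun i _ => (ml _ _ _).inter (ml _ _ _)
  · exact measurableSet_lt (by fun_prop) measurable_const

/-- window event on coordinates `D+1, ..., D+m` -/
def AD (m J D : ℕ) : Set (ℕ → ℝ) := {ω | win m (D + m) ω ∈ AA m J}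

lemma measurable_win (m D : ℕ) : Measurable (win m D) := by
  unfold win
  fun_prop

lemma measurableSet_AD (m J D : ℕ) : MeasurableSet (AD m J D) :=
  measurable_win m (D + m) (measurableSet_AA m J)

lemma dep_AD (m J D : ℕ) : Dep (Finset.Ioc D (D + m)) (AD m J D) := by
  intro ω ω' hω hA
  have : win m (D + m) ω = win m (D + m) ω' := by
    ext i
    unfold win
    apply hω
    rw [Finset.mem_Ioc]
    have := i.2
    omega
  unfold AD at *
  simp only [mem_ofPred_eq] at *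
  rw [← this]
  exact hA

lemma prob_AD (m J D : ℕ) : mu.real (AD m J D) = (gm m).real (AA m J) := by
  have hinj : Function.Injective (fun i : Fin m => D + m - (i : ℕ)) := by
    intro i j hij
    simp only at hij
    ext
    have := i.2
    have := j.2
    omega
  have h := mu_map_coord (N := m) (fun i => D + m - (i : ℕ)) hinj
  rw [measureReal_def, measureReal_def]
  congr 1
  change mu (win m (D + m) ⁻¹' AA m J) = (gm m) (AA m J)
  have h' : (gm m) = Measure.map (win m (D + m)) mu := h.symm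
  rw [h', Measure.map_apply (measurable_win m (D + m)) (measurableSet_AA m J)]

/-- failing probability of the good event -/
lemma prob_GG_compl {h T β q : ℝ} {m I0 I D : ℕ} (hh : 0 < h) (hβ : 0 ≤ β) (hq2 : q ≤ 1 / 2)
    (hq : (xs h I ^ 2) ^ (D + 1) ≤ q)
    (h1 : mu.real {ω | (Rc h I0 I D ω : ℝ) < T} ≤ 2 / 5)
    (h2 : 2 * (I + 1) * β ≤ 1 / 100)
    (h3 : 48 * m * (rexp (-(I0 * h)) / (1 - rexp (-h))) ≤ 1 / 100) :
    mu.real (GG h T β m I0 I D)ᶜ ≤ 1 / 2 := by
  have hsub : (GG h T β m I0 I D)ᶜ ⊆ {ω | (Rc h I0 I D ω : ℝ) < T} ∪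
      ((⋃ i ∈ Finset.range (I + 1), ({ω | |lin (D + 1) (fun k => (1 * xs h i) ^ k) ω| ≤ β} ∪
        {ω | |lin (D + 1) (fun k => (-1 * xs h i) ^ k) ω| ≤ β})) ∪
      ((⋃ i ∈ Finset.Icc I0 I, ({ω | |lin (D + 1) (fun k => (1 * xs h i) ^ (D - k)) ω| ≤ 8 * m} ∪
        {ω | |lin (D + 1) (fun k => (-1 * xs h i) ^ (D - k)) ω| ≤ 8 * m})) ∪
      {ω | 20 * ((D + 1 : ℕ) : ℝ) ≤ ∑ k ∈ Finset.range (D + 1), ω k ^ 2})) := by
    intro ω hω
    by_contra hc
    apply hω
    simp only [mem_union, mem_iUnion, mem_ofPred_eq, not_or, not_exists, not_lt, not_le] at hc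
    obtain ⟨c1, c2, c3, c4⟩ := hc
    exact ⟨c1, fun i hi => c2 i hi, fun i hi => c3 i hi, c4⟩
  refine (measureReal_mono hsub).trans ?_
  refine (measureReal_union_le _ _).trans ?_
  have b2 : mu.real (⋃ i ∈ Finset.range (I + 1), ({ω | |lin (D + 1) (fun k => (1 * xs h i) ^ k) ω| ≤ β} ∪
        {ω | |lin (D + 1) (fun k => (-1 * xs h i) ^ k) ω| ≤ β})) ≤ 1 / 100 := by
    refine (measureReal_biUnion_finset_le _ _).trans ?_
    refine le_trans ?_ h2
    calc _ ≤ ∑ i ∈ Finset.range (I + 1), (β + β) := by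
          apply Finset.sum_le_sum
          intro i _
          refine (measureReal_union_le _ _).trans ?_
          exact add_le_add (small_inner hβ D i) (small_inner hβ D i)
      _ = _ := by
          rw [Finset.sum_const, Finset.card_range, nsmul_eq_mul]
          push_cast
          ring
  have b3 : mu.real (⋃ i ∈ Finset.Icc I0 I, ({ω | |lin (D + 1) (fun k => (1 * xs h i) ^ (D - k)) ω| ≤ 8 * m} ∪
        {ω | |lin (D + 1) (fun k => (-1 * xs h i) ^ (D - k)) ω| ≤ 8 * m})) ≤ 1 / 100 := by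
    refine (measureReal_biUnion_finset_le _ _).trans ?_
    refine le_trans ?_ h3
    have hr1 : rexp (-h) < 1 := by rw [← exp_zero]; exact exp_lt_exp.2 (by linarith)
    calc _ ≤ ∑ i ∈ Finset.Icc I0 I, 48 * m * rexp (-(i * h)) := by
          apply Finset.sum_le_sum
          intro i hi
          have hi' := Finset.mem_Icc.1 hi
          have hqi : (xs h i ^ 2) ^ (D + 1) ≤ q := by
            refine le_trans ?_ hq
            apply pow_le_pow_left₀ (by positivity)
            exact pow_le_pow_left₀ (xs_nonneg hh.le _) (xs_mono hh.le hi'.2) 2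
          refine (measureReal_union_le _ _).trans ?_
          have s1 := small_outer (σ := 1) (β := 8 * m) (by norm_num) hh hq2 (by positivity) D i hqi
          have s2 := small_outer (σ := -1) (β := 8 * m) (by norm_num) hh hq2 (by positivity) D i hqi
          linarith
      _ = 48 * m * ∑ i ∈ Finset.Icc I0 I, rexp (-(i * h)) := by rw [Finset.mul_sum]
      _ ≤ _ := by
          apply mul_le_mul_of_nonneg_left _ (by positivity)
          have e1 : ∀ i : ℕ, rexp (-(i * h)) = rexp (-h) ^ i := by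
            intro i; rw [← exp_nat_mul]; congr 1; ring
          simp_rw [e1]
          have e2 : ∑ i ∈ Finset.Icc I0 I, rexp (-h) ^ i ≤ ∑ i ∈ Finset.range (I + 1), rexp (-h) ^ (I0 + i) := by
            calc ∑ i ∈ Finset.Icc I0 I, rexp (-h) ^ i = ∑ i ∈ Finset.range (I + 1 - I0), rexp (-h) ^ (I0 + i) := by
                  rw [← Finset.sum_Ico_eq_sum_range]
                  rfl
              _ ≤ _ := by
                  apply Finset.sum_le_sum_of_subset_of_nonneg
                  · apply Finset.range_mono; omega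
                  · intro i _ _; positivity
          refine e2.trans ?_
          simp_rw [pow_add]
          rw [← Finset.mul_sum, div_eq_mul_inv]
          apply mul_le_mul_of_nonneg_left _ (by positivity)
          rw [← one_div]
          exact geom_le (exp_pos _).le hr1 _
  have b4 := mu_normsq (D + 1) (Nat.succ_pos _) (l := 20) (by norm_num)
  have b23 := measureReal_union_le (μ := mu)
    (⋃ i ∈ Finset.range (I + 1), ({ω | |lin (D + 1) (fun k => (1 * xs h i) ^ k) ω| ≤ β} ∪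
        {ω | |lin (D + 1) (fun k => (-1 * xs h i) ^ k) ω| ≤ β}))
    ((⋃ i ∈ Finset.Icc I0 I, ({ω | |lin (D + 1) (fun k => (1 * xs h i) ^ (D - k)) ω| ≤ 8 * m} ∪
        {ω | |lin (D + 1) (fun k => (-1 * xs h i) ^ (D - k)) ω| ≤ 8 * m})) ∪
      {ω | 20 * ((D + 1 : ℕ) : ℝ) ≤ ∑ k ∈ Finset.range (D + 1), ω k ^ 2})
  have b34 := measureReal_union_le (μ := mu)
    (⋃ i ∈ Finset.Icc I0 I, ({ω | |lin (D + 1) (fun k => (1 * xs h i) ^ (D - k)) ω| ≤ 8 * m} ∪
        {ω | |lin (D + 1) (fun k => (-1 * xs h i) ^ (D - k)) ω| ≤ 8 * m}))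
      {ω | 20 * ((D + 1 : ℕ) : ℝ) ≤ ∑ k ∈ Finset.range (D + 1), ω k ^ 2}
  linarith

end Pool.Agent.Lead.Kac
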