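import Mathlib
import Pool.Agent.Lead.Indep

open MeasureTheory ProbabilityTheory Real Set
open scoped ENNReal NNReal

namespace Pool.Agent.Lead.Kac

/-- no success in the first `k` windows -/
def NoA (m J n k : ℕ) : Set (ℕ → ℝ) := ⋂ j ∈ Finset.range k, (AD m J (n + j * m))ᶜ

lemma measurableSet_NoA (m J n k : ℕ) : MeasurableSet (NoA m J n k) :=
  Finset.measurableSet_biInter _ fun _ _ => (measurableSet_AD _ _ _).compl

lemma dep_NoA (m J n k : ℕ) : Dep (Finset.range (n + k * m + 1)) (NoA m J n k) := by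
  intro ω ω' hω h
  unfold NoA at *
  simp only [mem_iInter] at *
  intro j hj
  refine ((dep_AD m J (n + j * m)).compl.mono ?_) ω ω' hω (h j hj)
  intro i hi
  rw [Finset.mem_Ioc] at hi
  rw [Finset.mem_range] at *
  have : (j + 1) * m ≤ k * m := Nat.mul_le_mul_right m hj
  have h2 : (j + 1) * m = j * m + m := by ring
  omega

lemma prob_NoA (m J n k : ℕ) : 1 - k * (gm m).real (AA m J) ≤ mu.real (NoA m J n k) := by
  have h1 : (NoA m J n k)ᶜ = ⋃ j ∈ Finset.range k, AD m J (n + j * m) := by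
    unfold NoA
    ext ω
    simp
  have h2 : mu.real (NoA m J n k)ᶜ ≤ k * (gm m).real (AA m J) := by
    rw [h1]
    refine (measureReal_biUnion_finset_le _ _).trans ?_
    simp_rw [prob_AD]
    simp
  rw [measureReal_compl (measurableSet_NoA m J n k)] at h2
  simp at h2
  linarith

lemma union_bound {h T β : ℝ} {m I0 I J n K : ℕ} {V : Set (ℕ → ℝ)} (hm0 : 0 < m) (hV : MeasurableSet V)
    (hp : 0 < (gm m).real (AA m J))
    (hK1 : 1 / (4 * (gm m).real (AA m J)) ≤ K)
    (hK2 : ((K : ℝ) - 1) * (gm m).real (AA m J) ≤ 1 / 4)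
    (hK3 : K * m ≤ 2 * n)
    (hG : ∀ D, n ≤ D → D ≤ 3 * n → mu.real (GG h T β m I0 I D)ᶜ ≤ 1 / 2)
    (hVV : ∀ D, n ≤ D → D + m ≤ 3 * n → ∀ ω ∈ GG h T β m I0 I D, ω ∈ AD m J D → ω ∈ V) :
    1 / 16 ≤ mu.real V := by
  set p := (gm m).real (AA m J) with hpdef
  let E : ℕ → Set (ℕ → ℝ) := fun k =>
    (GG h T β m I0 I (n + k * m) ∩ NoA m J n k) ∩ AD m J (n + k * m)
  have hEm : ∀ k, MeasurableSet (E k) := fun k =>
    ((measurableSet_GG _ _ _ _ _ _ _).inter (measurableSet_NoA _ _ _ _)).inter (measurableSet_AD _ _ _)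
  have hEV : ∀ k < K, E k ⊆ V := by
    intro k hk ω hω
    have h1 : (k + 1) * m ≤ K * m := Nat.mul_le_mul_right m hk
    have h2 : (k + 1) * m = k * m + m := by ring
    exact hVV (n + k * m) (by omega) (by omega) ω hω.1.1 hω.2
  have hdisj : Set.PairwiseDisjoint (↑(Finset.range K)) E := by
    have key : ∀ i j, i < j → Disjoint (E i) (E j) := by
      intro i j hij
      rw [Set.disjoint_left]
      intro ω h1 h2
      have h3 := h2.1.2
      unfold NoA at h3
      simp only [mem_iInter] at h3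
      exact h3 i (Finset.mem_range.2 hij) h1.2
    intro i _ j _ hij
    rcases lt_or_gt_of_ne hij with h | h
    · exact key i j h
    · exact (key j i h).symm
  have hEk : ∀ k ∈ Finset.range K, p * (1 / 4) ≤ mu.real (E k) := by
    intro k hk
    have hk' := Finset.mem_range.1 hk
    have h1 : (k + 1) * m ≤ K * m := Nat.mul_le_mul_right m hk'
    have h2 : (k + 1) * m = k * m + m := by ring
    have hind : mu.real (E k) = mu.real (GG h T β m I0 I (n + k * m) ∩ NoA m J n k) * p := by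
      have := indep_dep (S := Finset.range (n + k * m + 1)) (T := Finset.Ioc (n + k * m) (n + k * m + m))
        (by
          rw [Finset.disjoint_left]
          intro i hi hi'
          rw [Finset.mem_range] at hi
          rw [Finset.mem_Ioc] at hi'
          omega)
        ((measurableSet_GG h T β m I0 I (n + k * m)).inter (measurableSet_NoA m J n k))
        (measurableSet_AD m J (n + k * m))
        ((dep_GG h T β m I0 I (n + k * m)).inter (dep_NoA m J n k)) (dep_AD m J (n + k * m))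
      rw [measureReal_def]
      change (mu ((GG h T β m I0 I (n + k * m) ∩ NoA m J n k) ∩ AD m J (n + k * m))).toReal = _
      rw [this, ENNReal.toReal_mul, ← measureReal_def, ← measureReal_def, prob_AD]
    have hH : 1 / 4 ≤ mu.real (GG h T β m I0 I (n + k * m) ∩ NoA m J n k) := by
      have h3 : NoA m J n k ⊆ (GG h T β m I0 I (n + k * m) ∩ NoA m J n k) ∪ (GG h T β m I0 I (n + k * m))ᶜ := by
        intro ω hω
        by_cases hg : ω ∈ GG h T β m I0 I (n + k * m)
        · left; exact ⟨hg, hω⟩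
        · right; exact hg
      have h4 := measureReal_mono (μ := mu) h3
      have h5 := measureReal_union_le (μ := mu) (GG h T β m I0 I (n + k * m) ∩ NoA m J n k)
        (GG h T β m I0 I (n + k * m))ᶜ
      have h6 := prob_NoA m J n k
      have h7 := hG (n + k * m) (by omega) (by omega)
      have h8 : (k : ℝ) * p ≤ 1 / 4 := by
        have : (k : ℝ) ≤ K - 1 := by
          have : (k + 1 : ℝ) ≤ K := by exact_mod_cast hk'
          linarith
        nlinarith
      linarith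
    rw [hind]
    nlinarith
  have hsum : mu.real (⋃ k ∈ Finset.range K, E k) = ∑ k ∈ Finset.range K, mu.real (E k) :=
    measureReal_biUnion_finset hdisj fun k _ => hEm k
  have hle : mu.real (⋃ k ∈ Finset.range K, E k) ≤ mu.real V := by
    refine measureReal_mono ?_ (measure_ne_top _ _)
    intro ω hω
    simp only [mem_iUnion] at hω
    obtain ⟨k, hk, hω⟩ := hω
    exact hEV k (Finset.mem_range.1 hk) hω
  have hge : (K : ℝ) * (p * (1 / 4)) ≤ ∑ k ∈ Finset.range K, mu.real (E k) := by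
    calc (K : ℝ) * (p * (1 / 4)) = ∑ k ∈ Finset.range K, (p * (1 / 4)) := by simp
      _ ≤ _ := Finset.sum_le_sum hEk
  have h1 : (1 : ℝ) / 4 ≤ K * p := by
    rw [div_le_iff₀ (by positivity)] at hK1
    linarith
  linarith

/-- the bad event for the law of large numbers -/
def VV (h M : ℝ) (I0 I J n : ℕ) : Set (ℕ → ℝ) :=
  {ω | ∃ D ∈ Finset.Icc n (3 * n), M < (Rc h I0 I D ω : ℝ) + Wc yy J D ω}

lemma measurableSet_VV (h M : ℝ) (I0 I J n : ℕ) : MeasurableSet (VV h M I0 I J n) := by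
  have : VV h M I0 I J n = ⋃ D ∈ Finset.Icc n (3 * n), {ω | M < (Rc h I0 I D ω : ℝ) + Wc yy J D ω} := by
    ext ω
    simp only [VV, mem_ofPred_eq, mem_iUnion, exists_prop]
  rw [this]
  apply Finset.measurableSet_biUnion
  intro D _
  exact measurableSet_lt measurable_const ((measurable_Rc _ _ _ _).add (measurable_Wc _ _ _))

/-- Quantitative form under explicit numerical hypotheses. -/
lemma main_numeric {h q φ T M β v : ℝ} {m I0 I J n K : ℕ} (hn : 0 < n)
    (hh : 0 < h) (hm0 : 0 < m) (hJ0 : 0 < J) (hI0 : 0 < I0) (hI : I0 ≤ I)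
    (hJ : rexp (J / 10 : ℝ) ≤ √m)
    (hm1 : rexp bb * (√m * rexp (-√m)) ≤ 1 / 2)
    (hm2 : 2 * (484 * (rexp (2 * bb) * (1 + log m))) ≤ m)
    (hK1 : 1 / (4 * (gm m).real (AA m J)) ≤ K)
    (hK2 : ((K : ℝ) - 1) * (gm m).real (AA m J) ≤ 1 / 4)
    (hK3 : K * m ≤ 2 * n)
    (hq0 : 0 ≤ q) (hq2 : q ≤ 1 / 2) (hφ0 : 0 ≤ φ) (hφπ : φ ≤ π) (hφ : 1 ≤ (1 - q) * cosh h * cos φ)
    (hq : (xs h I ^ 2) ^ (n + 1) ≤ q)
    (hβ0 : 0 ≤ β) (hβ : xs h I ^ (n + 1) * (3 * m) ≤ β) (hβ2 : 2 * (I + 1) * β ≤ 1 / 100)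
    (hx : 1 / 2 ≤ xs h I0 ^ m)
    (hsum : 48 * m * (rexp (-(I0 * h)) / (1 - rexp (-h))) ≤ 1 / 100)
    (hexp : rexp (-√m) * (5 * (3 * n + 1 : ℕ)) < 1)
    (hT0 : 0 ≤ T) (hTM : T < M)
    (hdev : (M + 4 * I * v - (4 * I - 2 * I0) * (φ / π)) ≤ (2 / 5) * (M - T))
    (hwin : M < T + ((4 / 5 : ℝ) * J - 1))
    (hv : mu.real (VV h M I0 I J n) ≤ v) : 1 / 16 ≤ mu.real (VV h M I0 I J n) := by
  have hp : 0 < (gm m).real (AA m J) :=
    lt_of_lt_of_le (by positivity) (prob_AA hm0 hJ0 hJ hm1 hm2)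
  have hqD : ∀ D, n ≤ D → (xs h I ^ 2) ^ (D + 1) ≤ q := by
    intro D hD
    refine le_trans ?_ hq
    apply pow_le_pow_of_le_one (by positivity) _ (by omega)
    have := xs_lt_one h I
    have := xs_nonneg hh.le I
    nlinarith
  apply union_bound (h := h) (T := T) (β := β) (I0 := I0) (I := I) hm0 (measurableSet_VV _ _ _ _ _ _) hp hK1 hK2 hK3
  · intro D hD1 hD2
    apply prob_GG_compl hh hβ0 hq2 (hqD D hD1) _ hβ2 hsum
    have hE := expect_Rc (D := D) hh (by linarith) hφ0 hφπ hφ hI (hqD D hD1)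
    have := prob_Rc_lt (measurableSet_VV h M I0 I J n) hv (hT0.trans hTM.le) hT0 (h := h) (I0 := I0) (I := I) (D := D)
      (M := M) (T := T) ?_ hE
    · have h1 : mu.real {ω | (Rc h I0 I D ω : ℝ) < T} * (M - T) ≤ (2 / 5) * (M - T) := this.trans hdev
      exact le_of_mul_le_mul_right h1 (by linarith)
    · intro ω hω
      by_contra hc
      push Not at hc
      apply hω
      refine ⟨D, Finset.mem_Icc.2 ⟨hD1, hD2⟩, ?_⟩
      have : (0 : ℝ) ≤ Wc yy J D ω := Nat.cast_nonneg _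
      linarith
  · intro D hD1 hD2 ω hG hA
    have hβD : xs h I ^ (D + 1) * (3 * m) ≤ β := by
      refine le_trans ?_ hβ
      apply mul_le_mul_of_nonneg_right _ (by positivity)
      exact pow_le_pow_of_le_one (xs_nonneg hh.le _) (xs_lt_one _ _).le (by omega)
    have h1 := Rc_step hh hI0 hβD hx hm0 hG hA.1
    have h2 := Wc_step (D := D) hJ ?_ hG hA hJ0
    · refine ⟨D + m, Finset.mem_Icc.2 ⟨by omega, hD2⟩, ?_⟩
      have h3 : (Rc h I0 I D ω : ℝ) ≤ Rc h I0 I (D + m) ω := by exact_mod_cast h1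
      have h4 := hG.1
      linarith
    · refine lt_of_le_of_lt ?_ hexp
      apply mul_le_mul_of_nonneg_left _ (exp_pos _).le
      have : ((D + 1 : ℕ) : ℝ) ≤ ((3 * n + 1 : ℕ) : ℝ) := by
        have : D + 1 ≤ 3 * n + 1 := by omega
        exact_mod_cast this
      linarith

end Pool.Agent.Lead.Kac
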