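import Mathlib
import Pool.Agent.Lead.Union

open MeasureTheory ProbabilityTheory Real Set Filter Topology
open scoped ENNReal NNReal

namespace Pool.Agent.Lead.Kac

lemma lin_le_exp {a : ℝ} (ha : 0 < a) (A B : ℝ) : ∀ᶠ L : ℝ in atTop, A * L + B ≤ rexp (a * L) := by
  have h1 : Tendsto (fun L : ℝ => (a * L) ^ 1 / rexp (a * L)) atTop (𝓝 0) := by
    have h0 : Tendsto (fun x : ℝ => x ^ 1 / rexp x) atTop (𝓝 0) := by
      have := tendsto_pow_mul_exp_neg_atTop_nhds_zero 1
      refine this.congr fun x => ?_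
      rw [exp_neg, div_eq_mul_inv]
    exact h0.comp (tendsto_id.const_mul_atTop ha)
  have h2 : Tendsto (fun L : ℝ => rexp (a * L)) atTop atTop :=
    tendsto_exp_atTop.comp (tendsto_id.const_mul_atTop ha)
  have h3 : ∀ᶠ L : ℝ in atTop, (a * L) ^ 1 / rexp (a * L) ≤ a / (2 * (|A| + 1)) :=
    (h1.eventually (eventually_le_nhds (by positivity : (0 : ℝ) < a / (2 * (|A| + 1))))).mono fun _ h => h
  have h4 : ∀ᶠ L : ℝ in atTop, 2 * |B| ≤ rexp (a * L) := h2.eventually_ge_atTop _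
  filter_upwards [h3, h4, eventually_ge_atTop 0] with L e3 e4 e5
  rw [pow_one, div_le_iff₀ (exp_pos _)] at e3
  have e6 : L ≤ rexp (a * L) / (2 * (|A| + 1)) := by
    have : a * L ≤ a * (rexp (a * L) / (2 * (|A| + 1))) := by
      calc a * L ≤ a / (2 * (|A| + 1)) * rexp (a * L) := e3
        _ = _ := by ring
    exact le_of_mul_le_mul_left this ha
  have e7 : A * L ≤ rexp (a * L) / 2 := by
    calc A * L ≤ (|A| + 1) * L := by
          apply mul_le_mul_of_nonneg_right _ e5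
          linarith [le_abs_self A]
      _ ≤ (|A| + 1) * (rexp (a * L) / (2 * (|A| + 1))) := by gcongr
      _ = _ := by field_simp
  linarith [le_abs_self B]

lemma log_nat_atTop : Tendsto (fun n : ℕ => log (n : ℝ)) atTop atTop :=
  tendsto_log_atTop.comp tendsto_natCast_atTop_atTop

/-- window length -/
noncomputable def mw (δ : ℝ) (n : ℕ) : ℕ := ⌊rexp (δ * log n)⌋₊

lemma mw_le (δ : ℝ) (n : ℕ) : (mw δ n : ℝ) ≤ rexp (δ * log n) := Nat.floor_le (exp_pos _).le

lemma mw_ge {δ : ℝ} {n : ℕ} (h : 1 ≤ rexp (δ * log n)) : rexp (δ * log n) / 2 ≤ mw δ n := by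
  have h1 := Nat.lt_floor_add_one (rexp (δ * log n))
  have h2 : (1 : ℝ) ≤ mw δ n := by
    have : 1 ≤ ⌊rexp (δ * log n)⌋₊ := Nat.le_floor (by simpa using h)
    exact_mod_cast this
  unfold mw at *
  linarith

/-- constants -/
noncomputable def c0 : ℝ := 484 * rexp (2 * bb)
noncomputable def δ0 : ℝ := 1 / (4 * (c0 + 1))
noncomputable def ε0 : ℝ := δ0 / 200
noncomputable def h0 : ℝ := ε0
noncomputable def φ0 : ℝ := (1 - ε0) * h0

lemma c0_pos : 0 < c0 := by unfold c0; positivity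
lemma δ0_pos : 0 < δ0 := by
  have := c0_pos
  unfold δ0; positivity
lemma δ0_le : δ0 ≤ 1 / 4 := by
  have := c0_pos
  unfold δ0
  apply one_div_le_one_div_of_le (by norm_num); linarith
lemma ε0_pos : 0 < ε0 := by
  have := δ0_pos
  unfold ε0; positivity
lemma ε0_le : ε0 ≤ 1 / 800 := by
  have := δ0_le
  unfold ε0; linarith
lemma c0_δ0 : c0 * δ0 ≤ 1 / 4 := by
  have := c0_pos
  unfold δ0
  rw [mul_one_div, div_le_div_iff₀ (by positivity) (by norm_num)]
  linarith
lemma h0_pos : 0 < h0 := ε0_pos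

lemma key_trig : 1 < cosh h0 * cos φ0 := by
  have he := ε0_pos
  have he1 := ε0_le
  have h1 : 1 + h0 ^ 2 / 2 ≤ cosh h0 := by
    have := cosh_sq h0
    have h2 := one_le_cosh h0
    have hs : h0 ^ 2 ≤ sinh h0 ^ 2 := by
      have := self_le_sinh_iff.2 h0_pos.le
      exact pow_le_pow_left₀ h0_pos.le this 2
    -- cosh = 1 + 2 sinh^2(h/2)
    have h3 := cosh_two_mul (h0 / 2)
    have h4 := cosh_sq (h0 / 2)
    have h5 : (h0 / 2) ^ 2 ≤ sinh (h0 / 2) ^ 2 := by
      have := self_le_sinh_iff.2 (show 0 ≤ h0 / 2 by linarith [h0_pos])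
      exact pow_le_pow_left₀ (by linarith [h0_pos]) this 2
    rw [show 2 * (h0 / 2) = h0 by ring] at h3
    nlinarith
  have h2 : 1 - φ0 ^ 2 / 2 ≤ cos φ0 := one_sub_sq_div_two_le_cos
  have h3 : 0 < 1 - φ0 ^ 2 / 2 := by
    have : φ0 ^ 2 ≤ 1 := by
      unfold φ0 h0
      have : 0 ≤ (1 - ε0) * ε0 := by nlinarith
      have : (1 - ε0) * ε0 ≤ 1 := by nlinarith
      nlinarith
    linarith
  have h4 : 1 < (1 + h0 ^ 2 / 2) * (1 - φ0 ^ 2 / 2) := by
    unfold φ0 h0
    set e := ε0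
    have e3 : 0 < e ^ 3 := by positivity
    have e4 : e ^ 4 ≤ e ^ 3 * (1 / 800) := by
      have : e ^ 4 = e ^ 3 * e := by ring
      rw [this]; gcongr
    have e5 : 0 < e ^ 5 := by positivity
    have e6 : e ^ 6 ≤ e ^ 5 * (1 / 800) := by
      have : e ^ 6 = e ^ 5 * e := by ring
      rw [this]; gcongr
    nlinarith
  calc 1 < (1 + h0 ^ 2 / 2) * (1 - φ0 ^ 2 / 2) := h4
    _ ≤ cosh h0 * cos φ0 := by
        apply mul_le_mul h1 h2 h3.le (cosh_pos _).le

lemma exists_q : ∃ q : ℝ, 0 < q ∧ q ≤ 1 / 2 ∧ 1 ≤ (1 - q) * cosh h0 * cos φ0 := by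
  have h := key_trig
  set P := cosh h0 * cos φ0 with hP
  refine ⟨min (1 / 2) (1 - 1 / P), ?_, min_le_left _ _, ?_⟩
  · apply lt_min (by norm_num)
    have : 1 / P < 1 := by rw [div_lt_one (by linarith)]; exact h
    linarith
  · rw [mul_assoc, ← hP]
    have : 1 / P ≤ 1 - min (1 / 2) (1 - 1 / P) := by
      have := min_le_right (1 / 2) (1 - 1 / P)
      linarith
    calc 1 = (1 / P) * P := by field_simp
      _ ≤ _ := by gcongr

noncomputable def C1 : ℝ := log (4800 / (1 - rexp (-h0)))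

noncomputable def JJ (n : ℕ) : ℕ := ⌊5 * log (mw δ0 n)⌋₊
noncomputable def II0 (n : ℕ) : ℕ := ⌈(log (mw δ0 n) + C1) / h0⌉₊ + 1
noncomputable def II (n : ℕ) : ℕ := ⌊(1 - ε0) / 2 * log n / h0⌋₊
noncomputable def MM (n : ℕ) : ℝ := (2 / π + δ0 / 10) * log (3 * n)
noncomputable def TT (n : ℕ) : ℝ := (2 / π - 2 * δ0) * log n

lemma one_sub_exp_pos : 0 < 1 - rexp (-h0) := by
  have : rexp (-h0) < 1 := by rw [← exp_zero]; exact exp_lt_exp.2 (by linarith [h0_pos])
  linarith

lemma C1_nonneg : 0 ≤ C1 := by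
  unfold C1
  apply log_nonneg
  rw [le_div_iff₀ one_sub_exp_pos]
  linarith [exp_pos (-h0)]

lemma II0_bound {n : ℕ} (hm : 1 ≤ mw δ0 n) :
    rexp (-(II0 n * h0)) ≤ (1 - rexp (-h0)) / (4800 * mw δ0 n) := by
  have hm' : (0 : ℝ) < mw δ0 n := by exact_mod_cast hm
  have h1 : (log (mw δ0 n) + C1) / h0 ≤ II0 n := by
    unfold II0
    push_cast
    have := Nat.le_ceil ((log (mw δ0 n) + C1) / h0)
    linarith
  rw [div_le_iff₀ h0_pos] at h1
  calc rexp (-(II0 n * h0)) ≤ rexp (-(log (mw δ0 n) + C1)) := exp_le_exp.2 (by linarith)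
    _ = _ := by
      rw [neg_add, exp_add, exp_neg, exp_neg, exp_log hm', C1, exp_log (by
        have := one_sub_exp_pos; positivity)]
      have := one_sub_exp_pos
      field_simp

lemma yy_le_xs {n : ℕ} (hm : 1 ≤ mw δ0 n) : yy (JJ n) ≤ xs h0 (II0 n) := by
  have hm' : (1 : ℝ) ≤ mw δ0 n := by exact_mod_cast hm
  have hm0 : (0 : ℝ) < mw δ0 n := by linarith
  have h1 := II0_bound hm
  have h2 : rexp (-(II0 n * h0)) ≤ 1 / (4800 * mw δ0 n) := by
    refine h1.trans ?_
    gcongr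
    linarith [exp_pos (-h0)]
  unfold yy xs
  have h3 : (JJ n : ℝ) ≤ 5 * log (mw δ0 n) := Nat.floor_le (by
    have := log_nonneg hm'; linarith)
  have h4 : 1 / (mw δ0 n : ℝ) ≤ rexp (-(JJ n / 10 : ℝ)) := by
    calc 1 / (mw δ0 n : ℝ) = rexp (-(log (mw δ0 n))) := by rw [exp_neg, exp_log hm0, one_div]
      _ ≤ _ := by
        apply exp_le_exp.2
        have := log_nonneg hm'
        linarith
  have h5 : 2 / (rexp (2 * (II0 n * h0)) + 1) ≤ 1 / mw δ0 n := by
    calc 2 / (rexp (2 * (II0 n * h0)) + 1) ≤ 2 / rexp (2 * (II0 n * h0)) := by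
          gcongr; linarith
      _ = 2 * (rexp (-(II0 n * h0)) * rexp (-(II0 n * h0))) := by
          rw [← exp_add, div_eq_mul_inv, ← exp_neg]; congr 2; ring
      _ ≤ 2 * ((1 / (4800 * mw δ0 n)) * 1) := by
          have : rexp (-(II0 n * h0)) ≤ 1 := exp_le_one_iff.2 (by
            have := h0_pos; have : (0:ℝ) ≤ II0 n * h0 := by positivity
            linarith)
          gcongr
      _ ≤ 1 / mw δ0 n := by
          rw [mul_one, mul_one_div, div_le_div_iff₀ (by positivity) hm0]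
          linarith
  linarith

lemma xs_pow_ge {n : ℕ} (hm : 1 ≤ mw δ0 n) : 1 / 2 ≤ xs h0 (II0 n) ^ mw δ0 n := by
  have hm' : (1 : ℝ) ≤ mw δ0 n := by exact_mod_cast hm
  have hm0 : (0 : ℝ) < mw δ0 n := by linarith
  have h1 := II0_bound hm
  have h2 : rexp (-(II0 n * h0)) ≤ 1 / (4800 * mw δ0 n) := by
    refine h1.trans ?_
    gcongr
    linarith [exp_pos (-h0)]
  set x := 2 / (rexp (2 * (II0 n * h0)) + 1) with hx
  have hx0 : 0 ≤ x := by positivity
  have h5 : x ≤ 1 / (2 * mw δ0 n) := by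
    calc x ≤ 2 / rexp (2 * (II0 n * h0)) := by
          rw [hx]; gcongr; linarith
      _ = 2 * (rexp (-(II0 n * h0)) * rexp (-(II0 n * h0))) := by
          rw [← exp_add, div_eq_mul_inv, ← exp_neg]; congr 2; ring
      _ ≤ 2 * ((1 / (4800 * mw δ0 n)) * 1) := by
          have : rexp (-(II0 n * h0)) ≤ 1 := exp_le_one_iff.2 (by
            have := h0_pos; have : (0:ℝ) ≤ II0 n * h0 := by positivity
            linarith)
          gcongr
      _ ≤ 1 / (2 * mw δ0 n) := by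
          rw [mul_one, mul_one_div, div_le_div_iff₀ (by positivity) (by positivity)]
          linarith
  have h6 : xs h0 (II0 n) = 1 - x := rfl
  rw [h6]
  have h7 := one_add_mul_le_pow (a := -x) (by
    have : x ≤ 1 := h5.trans (by rw [div_le_one (by positivity)]; linarith)
    linarith) (mw δ0 n)
  have h8 : (mw δ0 n : ℝ) * x ≤ 1 / 2 := by
    calc (mw δ0 n : ℝ) * x ≤ mw δ0 n * (1 / (2 * mw δ0 n)) := by gcongr
      _ = 1 / 2 := by field_simp
  rw [show (1 : ℝ) - x = 1 + -x by ring]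
  linarith

lemma xs_II_pow {n : ℕ} (hn : 1 ≤ n) : xs h0 (II n) ^ (n + 1) ≤ rexp (-rexp (ε0 * log n)) := by
  have hn' : (1 : ℝ) ≤ n := by exact_mod_cast hn
  have hn0 : (0 : ℝ) < n := by linarith
  have hL := log_nonneg hn'
  have he := ε0_le
  have h1 : (II n : ℝ) ≤ (1 - ε0) / 2 * log n / h0 := Nat.floor_le (by
    have := h0_pos
    apply div_nonneg _ this.le
    apply mul_nonneg _ hL
    linarith)
  rw [le_div_iff₀ h0_pos] at h1
  have h2 : rexp (2 * (II n * h0)) ≤ n * rexp (-(ε0 * log n)) := by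
    calc rexp (2 * (II n * h0)) ≤ rexp (log n + -(ε0 * log n)) := exp_le_exp.2 (by linarith)
      _ = _ := by rw [exp_add, exp_log hn0]
  have h3 : 1 ≤ n * rexp (-(ε0 * log n)) := by
    rw [← exp_log hn0, ← exp_add, log_exp]
    apply one_le_exp
    nlinarith
  have h4 : xs h0 (II n) ≤ rexp (-(rexp (ε0 * log n) / n)) := by
    have h5 : rexp (ε0 * log n) / n ≤ 2 / (rexp (2 * (II n * h0)) + 1) := by
      rw [div_le_div_iff₀ hn0 (by positivity)]
      have h6 : rexp (ε0 * log n) * rexp (-(ε0 * log n)) = 1 := by rw [← exp_add]; simp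
      calc rexp (ε0 * log n) * (rexp (2 * (II n * h0)) + 1)
          ≤ rexp (ε0 * log n) * (n * rexp (-(ε0 * log n)) + n * rexp (-(ε0 * log n))) := by gcongr
        _ = 2 * n * (rexp (ε0 * log n) * rexp (-(ε0 * log n))) := by ring
        _ = 2 * n := by rw [h6, mul_one]
    have := add_one_le_exp (-(rexp (ε0 * log n) / n))
    unfold xs
    linarith
  calc xs h0 (II n) ^ (n + 1) ≤ xs h0 (II n) ^ n :=
        pow_le_pow_of_le_one (xs_nonneg h0_pos.le _) (xs_lt_one _ _).le (Nat.le_succ n)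
    _ ≤ rexp (-(rexp (ε0 * log n) / n)) ^ n := pow_le_pow_left₀ (xs_nonneg h0_pos.le _) h4 n
    _ = _ := by
      rw [← exp_nat_mul]
      congr 1
      field_simp


lemma n1 {s : ℝ} (hs : 2 * (bb + 2) ≤ s) : rexp bb * (s * rexp (-s)) ≤ 1 / 2 := by
  have hx : s * rexp (-s) ≤ 2 * rexp (-(s / 2)) := by
    have := add_one_le_exp (s / 2)
    have h2 : s ≤ 2 * rexp (s / 2) := by linarith
    calc s * rexp (-s) ≤ 2 * rexp (s / 2) * rexp (-s) := by gcongr
      _ = _ := by rw [mul_assoc, ← exp_add]; congr 2; ring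
  calc rexp bb * (s * rexp (-s)) ≤ rexp bb * (2 * rexp (-(s / 2))) := by gcongr
    _ = 2 * rexp (bb - s / 2) := by rw [sub_eq_add_neg, exp_add]; ring
    _ ≤ 2 * rexp (-2) := by
        gcongr
        linarith
    _ ≤ 1 / 2 := by
        have h1 : (4 : ℝ) ≤ rexp 2 := by
          have := add_one_le_exp (1 : ℝ)
          have h2 : rexp 2 = rexp 1 * rexp 1 := by rw [← exp_add]; norm_num
          nlinarith
        rw [exp_neg, ← div_eq_mul_inv, div_le_div_iff₀ (exp_pos _) (by norm_num)]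
        linarith

lemma n2 {L δ ε h C r x y l3 : ℝ} (hδ : 0 < δ) (hδ4 : δ ≤ 1 / 4) (hε : ε = δ / 200) (hh : 0 < h)
    (hC : 0 ≤ C) (hL : 0 ≤ L) (hr0 : 0 < r) (hr : r ≤ 32 / 100) (hx : x * h ≤ L / 2)
    (hxy : (2 - 2 * ε - 2 * δ) * L - (8 * h + 2 * C) ≤ (4 * x - 2 * y) * h)
    (hl0 : 0 < l3) (hl : l3 ≤ 2) (hbig : 100 * (8 * h + 2 * C) + 200 ≤ δ * L) :
    (2 * r + δ / 10) * (l3 + L) + 4 * x * (ε * h) - (4 * x - 2 * y) * ((1 - ε) * h * r) ≤
      2 / 5 * ((2 * r + δ / 10) * (l3 + L) - (2 * r - 2 * δ) * L) := by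
  have hε0 : 0 < ε := by rw [hε]; positivity
  have hε1 : ε ≤ 1 / 800 := by rw [hε]; linarith
  have a1 : 4 * x * (ε * h) ≤ 2 * ε * L := by
    have : 4 * x * (ε * h) = 4 * ε * (x * h) := by ring
    rw [this]
    have : 4 * ε * (x * h) ≤ 4 * ε * (L / 2) := by gcongr
    linarith
  have a3 : (1 - ε) * r * ((2 - 2 * ε - 2 * δ) * L - (8 * h + 2 * C)) ≤ (4 * x - 2 * y) * ((1 - ε) * h * r) := by
    have : (4 * x - 2 * y) * ((1 - ε) * h * r) = (1 - ε) * r * ((4 * x - 2 * y) * h) := by ring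
    rw [this]
    apply mul_le_mul_of_nonneg_left hxy
    apply mul_nonneg _ hr0.le
    linarith
  have b1 : 0 ≤ r * L := by positivity
  have b2 : 2 - 4 * ε - 2 * δ ≤ (1 - ε) * (2 - 2 * ε - 2 * δ) := by nlinarith
  have b3 : (1 - ε) * r ≤ 1 := by nlinarith
  have b4 : 0 ≤ 8 * h + 2 * C := by positivity
  have b5 : (1 - ε) * r * (8 * h + 2 * C) ≤ 1 * (8 * h + 2 * C) := by gcongr
  have b6 : r * L * (2 - 4 * ε - 2 * δ) ≤ r * L * ((1 - ε) * (2 - 2 * ε - 2 * δ)) :=
    mul_le_mul_of_nonneg_left b2 b1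
  have a4 : r * L * (2 - 4 * ε - 2 * δ) - (8 * h + 2 * C) ≤
      (1 - ε) * r * ((2 - 2 * ε - 2 * δ) * L - (8 * h + 2 * C)) := by
    have : (1 - ε) * r * ((2 - 2 * ε - 2 * δ) * L - (8 * h + 2 * C)) =
        r * L * ((1 - ε) * (2 - 2 * ε - 2 * δ)) - (1 - ε) * r * (8 * h + 2 * C) := by ring
    rw [this]
    linarith
  have a5 : r * L * δ ≤ 32 / 100 * (L * δ) := by
    have h1 : 0 ≤ L * δ := by positivity
    have h2 : r * (L * δ) ≤ 32 / 100 * (L * δ) := by gcongr
    linarith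
  have a6 : (2 * r + δ / 10) * (l3 + L) ≤ 2 + (2 * r + δ / 10) * L := by
    have : (2 * r + δ / 10) * l3 ≤ 1 * 2 := by
      apply mul_le_mul _ hl hl0.le (by norm_num)
      linarith
    linarith
  have a7 : (2 * r + δ / 10) * L ≤ (2 * r + δ / 10) * (l3 + L) := by
    apply mul_le_mul_of_nonneg_left _ (by positivity)
    linarith
  have a8 : r * L * (2 - 4 * ε - 2 * δ) = 2 * (r * L) - 4 / 200 * (r * L * δ) - 2 * (r * L * δ) := by
    rw [hε]; ring
  have a9 : 2 * ε * L = 1 / 100 * (δ * L) := by rw [hε]; ring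
  have a10 : (2 * r + δ / 10) * L = 2 * (r * L) + 1 / 10 * (δ * L) := by ring
  have a11 : (2 * r - 2 * δ) * L = 2 * (r * L) - 2 * (δ * L) := by ring
  have a12 : L * δ = δ * L := by ring
  rw [a8] at a4
  rw [a9] at a1
  rw [a10] at a6 a7
  rw [a11]
  rw [a12] at a5
  linarith

lemma n3 {L δ l3 J r2 lm : ℝ} (hδ : 0 < δ) (hδ4 : δ ≤ 1 / 4) (hr0 : 0 < r2) (hr : r2 ≤ 1 - 1 / 10)
    (hl0 : 0 < l3) (hl : l3 ≤ 2) (hJ : 5 * lm - 1 ≤ J) (hlm : δ * L - 1 ≤ lm)
    (hbig : 200 ≤ δ * L) :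
    (r2 + δ / 10) * (l3 + L) < (r2 - 2 * δ) * L + (4 / 5 * J - 1) := by
  have a6 : (r2 + δ / 10) * l3 ≤ 1 * 2 := by
    apply mul_le_mul _ hl hl0.le (by norm_num)
    linarith
  nlinarith

lemma n4 {L δ ε h lm C y x : ℝ} (hδ : 0 < δ) (hδ4 : δ ≤ 1 / 4) (hε0 : 0 < ε) (hε : ε ≤ 1 / 800) (hh : 0 < h)
    (hC : 0 ≤ C) (hL : 0 ≤ L) (hy : y * h ≤ lm + C + 2 * h) (hlm : lm ≤ δ * L)
    (hx : (1 - ε) / 2 * L - h ≤ x * h) (hbig : 100 * (8 * h + 2 * C) + 200 ≤ δ * L) :
    y * h ≤ x * h := by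
  nlinarith

lemma n5 {c L lm δ : ℝ} (hc : 0 < c) (hcδ : c * δ ≤ 1 / 4) (hL : 0 ≤ L) (hlm : lm ≤ δ * L) :
    c * (1 + lm) ≤ c + L / 4 := by
  have h3 : c * lm ≤ c * (δ * L) := by gcongr
  nlinarith

lemma final_ev : ∀ᶠ n : ℕ in atTop, ε0 * h0 ≤ mu.real (VV h0 (MM n) (II0 n) (II n) (JJ n) n) := by
  obtain ⟨q, hq0, hq2, hq⟩ := exists_q
  have hδ := δ0_pos
  have hδ4 := δ0_le
  have hε := ε0_pos
  have hε8 := ε0_le
  have hh := h0_pos
  have hc := c0_pos
  have hC1 := C1_nonneg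
  have ev1 := log_nat_atTop.eventually (lin_le_exp hδ (4 * c0 * δ0) (4 * c0))
  have ev2 := log_nat_atTop.eventually (lin_le_exp (half_pos hδ) 0 (2 * (2 * (bb + 2))))
  have ev3 := log_nat_atTop.eventually (lin_le_exp hε 0 (-log q))
  have ev4 := log_nat_atTop.eventually (lin_le_exp hε (δ0 + 600 / (2 * h0)) 600)
  have ev5 := log_nat_atTop.eventually (lin_le_exp (half_pos hδ) 2 (2 * 21))
  have ev6 := log_nat_atTop.eventually_ge_atTop (2 * c0)
  have ev7 := log_nat_atTop.eventually_ge_atTop ((2 + (C1 + 4 * h0)) * 8 / δ0 / h0)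
  have ev8 := log_nat_atTop.eventually_ge_atTop ((100 * (8 * h0 + 2 * C1) + 200) / δ0)
  have ev9 := log_nat_atTop.eventually_ge_atTop 0
  filter_upwards [ev1, ev2, ev3, ev4, ev5, ev6, ev7, ev8, ev9, eventually_ge_atTop 1]
    with n e1 e2 e3 e4 e5 e6 e7 e8 e9 hn
  by_contra hcon
  push Not at hcon
  set L := log (n : ℝ) with hL
  have hn' : (1 : ℝ) ≤ n := by exact_mod_cast hn
  have hn0 : (0 : ℝ) < n := by linarith
  have hexpL : rexp L = n := exp_log hn0
  set m := mw δ0 n with hmdef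
  have hE1 : 1 ≤ rexp (δ0 * L) := one_le_exp (by positivity)
  have hmle : (m : ℝ) ≤ rexp (δ0 * L) := mw_le _ _
  have hmge : rexp (δ0 * L) / 2 ≤ m := mw_ge hE1
  have hm1 : 1 ≤ m := by
    have : (0 : ℝ) < m := by linarith [exp_pos (δ0 * L)]
    exact_mod_cast this
  have hm1' : (1 : ℝ) ≤ m := by exact_mod_cast hm1
  have hm0' : (0 : ℝ) < m := by linarith
  have hlogm : log m ≤ δ0 * L := by
    rw [← log_exp (δ0 * L)]; exact log_le_log hm0' hmle
  have hlogm0 : 0 ≤ log m := log_nonneg hm1'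
  have hlogm2 : δ0 * L - 1 ≤ log m := by
    have h1 : log (rexp (δ0 * L) / 2) ≤ log m := log_le_log (by positivity) hmge
    rw [log_div (exp_pos _).ne' (by norm_num), log_exp] at h1
    have : log 2 ≤ 1 := by linarith [log_two_lt_d9]
    linarith
  have hsqrt : rexp (δ0 / 2 * L) / 2 ≤ √m := by
    apply le_sqrt_of_sq_le
    rw [div_pow, ← exp_nat_mul]
    have : rexp ((2 : ℕ) * (δ0 / 2 * L)) = rexp (δ0 * L) := by congr 1; push_cast; ring
    rw [this]
    linarith
  -- J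
  have hJle : (JJ n : ℝ) ≤ 5 * log m := Nat.floor_le (by linarith)
  have hJge : 5 * log m - 1 ≤ JJ n := by
    have := Nat.lt_floor_add_one (5 * log (mw δ0 n : ℝ))
    unfold JJ
    rw [← hmdef] at *
    linarith
  -- useful lower bounds for L
  have e8' : 100 * (8 * h0 + 2 * C1) + 200 ≤ δ0 * L := by
    rw [div_le_iff₀ hδ] at e8; linarith
  have e7' : (2 + (C1 + 4 * h0)) * 8 ≤ δ0 * L * h0 := by
    rw [div_le_iff₀ hh, div_le_iff₀ hδ] at e7; linarith
  have hlogm200 : 199 ≤ log m := by linarith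
  have hJ0 : 0 < JJ n := by
    have : (0 : ℝ) < JJ n := by linarith
    exact_mod_cast this
  -- I0, I
  have hI0le : (II0 n : ℝ) * h0 ≤ log m + C1 + 2 * h0 := by
    have h1 := Nat.ceil_lt_add_one (show 0 ≤ (log (mw δ0 n : ℝ) + C1) / h0 by
      rw [← hmdef]; positivity)
    unfold II0
    push_cast
    have h2 : ((⌈(log (mw δ0 n : ℝ) + C1) / h0⌉₊ : ℝ) + 1) * h0 ≤ ((log (mw δ0 n : ℝ) + C1) / h0 + 1 + 1) * h0 := by
      gcongr
    have h3 : ((log (mw δ0 n : ℝ) + C1) / h0 + 1 + 1) * h0 = log (mw δ0 n : ℝ) + C1 + 2 * h0 := by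
      field_simp
      ring
    rw [← hmdef] at *
    linarith
  have hIle : (II n : ℝ) * h0 ≤ (1 - ε0) / 2 * L := by
    have h1 : (II n : ℝ) ≤ (1 - ε0) / 2 * L / h0 := Nat.floor_le (by
      apply div_nonneg _ hh.le
      apply mul_nonneg _ e9
      linarith)
    rwa [le_div_iff₀ hh] at h1
  have hIge : (1 - ε0) / 2 * L - h0 ≤ (II n : ℝ) * h0 := by
    have h1 := Nat.lt_floor_add_one ((1 - ε0) / 2 * L / h0)
    have h2 : (1 - ε0) / 2 * L / h0 ≤ II n + 1 := h1.le
    rw [div_le_iff₀ hh] at h2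
    linarith
  have hI0I : II0 n ≤ II n := by
    have : (II0 n : ℝ) * h0 ≤ (II n : ℝ) * h0 :=
      n4 hδ hδ4 hε hε8 hh hC1 e9 hI0le hlogm hIge e8'
    have := le_of_mul_le_mul_right this hh
    exact_mod_cast this
  have hp : (1 / 4) * rexp (-(484 * (rexp (2 * bb) * (1 + log m)))) ≤ (gm m).real (AA m (JJ n)) := by
    apply prob_AA (by omega) hJ0
    · calc rexp (JJ n / 10 : ℝ) ≤ rexp (log m / 2) := exp_le_exp.2 (by linarith)
        _ = √m := by
          rw [sqrt_eq_rpow, rpow_def_of_pos hm0']; congr 1; ring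
    · exact n1 (by linarith)
    · have : 2 * (484 * (rexp (2 * bb) * (1 + log m))) = 2 * c0 * (1 + log m) := by unfold c0; ring
      rw [this]
      have h1 : 2 * c0 * (1 + log m) ≤ 2 * c0 * (1 + δ0 * L) := by gcongr
      nlinarith
  have hexpJ : rexp (JJ n / 10 : ℝ) ≤ √m := by
    calc rexp (JJ n / 10 : ℝ) ≤ rexp (log m / 2) := exp_le_exp.2 (by linarith)
      _ = √m := by
        rw [sqrt_eq_rpow, rpow_def_of_pos hm0']; congr 1; ring
  set p := (gm m).real (AA m (JJ n)) with hpdef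
  have hp0 : 0 < p := lt_of_lt_of_le (by positivity) hp
  have hpinv : 1 / (4 * p) ≤ rexp (c0 * (1 + log m)) := by
    rw [div_le_iff₀ (by positivity)]
    have : rexp (c0 * (1 + log m)) * (4 * p) ≥ rexp (c0 * (1 + log m)) * (4 * ((1 / 4) * rexp (-(484 * (rexp (2 * bb) * (1 + log m)))))) := by
      apply mul_le_mul_of_nonneg_left _ (exp_pos _).le
      linarith
    refine le_trans (le_of_eq ?_) this
    rw [show (4 : ℝ) * ((1 / 4) * rexp (-(484 * (rexp (2 * bb) * (1 + log m))))) =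
      rexp (-(c0 * (1 + log m))) by unfold c0; ring_nf, ← exp_add]
    simp
  let K := ⌊1 / (4 * p)⌋₊ + 1
  have hKm : K * m ≤ 2 * n := by
    have hK : (K : ℝ) ≤ rexp (c0 + L / 4) + 1 := by
      have h1 : (⌊1 / (4 * p)⌋₊ : ℝ) ≤ 1 / (4 * p) := Nat.floor_le (by positivity)
      have h2 : rexp (c0 * (1 + log m)) ≤ rexp (c0 + L / 4) :=
        exp_le_exp.2 (n5 hc c0_δ0 e9 hlogm)
      simp only [K]
      push_cast
      linarith
    have hm4 : (m : ℝ) ≤ rexp (L / 4) := by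
      refine hmle.trans (exp_le_exp.2 ?_)
      nlinarith
    have hfin : (K : ℝ) * m ≤ 2 * n := by
      calc (K : ℝ) * m ≤ (rexp (c0 + L / 4) + 1) * rexp (L / 4) := by gcongr
        _ = rexp (c0 + L / 2) + rexp (L / 4) := by
            rw [add_mul, one_mul, ← exp_add]; congr 2; ring
        _ ≤ rexp L + rexp L := by
            gcongr
            · linarith
            · linarith
        _ = 2 * n := by rw [hexpL]; ring
    exact_mod_cast hfin
  have hxI := xs_II_pow hn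
  rw [← hL] at hxI
  have hx0 : 0 ≤ xs h0 (II n) := xs_nonneg hh.le _
  have h116 := main_numeric (h := h0) (q := q) (φ := φ0) (T := TT n) (M := MM n)
    (β := 1 / (200 * (II n + 1))) (v := ε0 * h0) (m := m) (I0 := II0 n) (I := II n) (J := JJ n)
    (n := n) (K := K) (by omega) hh (by omega) hJ0 (by unfold II0; omega) hI0I hexpJ
    (n1 (by linarith))
    (by
      have : 2 * (484 * (rexp (2 * bb) * (1 + log m))) = 2 * c0 * (1 + log m) := by unfold c0; ring
      rw [this]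
      have h1 : 2 * c0 * (1 + log m) ≤ 2 * c0 * (1 + δ0 * L) := by gcongr
      nlinarith)
    (by
      have := Nat.lt_floor_add_one (1 / (4 * p))
      simp only [K]
      push_cast
      exact this.le)
    (by
      have h1 : (⌊1 / (4 * p)⌋₊ : ℝ) ≤ 1 / (4 * p) := Nat.floor_le (by positivity)
      simp only [K]
      push_cast
      rw [add_sub_cancel_right]
      calc (⌊1 / (4 * p)⌋₊ : ℝ) * p ≤ 1 / (4 * p) * p := by gcongr
        _ = 1 / 4 := by field_simp)
    hKm hq0.le hq2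
    (by unfold φ0; apply mul_nonneg _ hh.le; linarith)
    (by
      unfold φ0 h0
      have : (1 - ε0) * ε0 ≤ 1 := by nlinarith
      linarith [pi_gt_three])
    hq
    (by
      calc (xs h0 (II n) ^ 2) ^ (n + 1) = (xs h0 (II n) ^ (n + 1)) ^ 2 := by ring
        _ ≤ xs h0 (II n) ^ (n + 1) := by
            have h1 : xs h0 (II n) ^ (n + 1) ≤ 1 := pow_le_one₀ hx0 (xs_lt_one _ _).le
            have h2 : 0 ≤ xs h0 (II n) ^ (n + 1) := by positivity
            nlinarith
        _ ≤ rexp (-rexp (ε0 * L)) := hxI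
        _ ≤ rexp (log q) := exp_le_exp.2 (by linarith)
        _ = q := exp_log hq0)
    (by positivity)
    (by
      rw [le_div_iff₀ (by positivity)]
      have hI1 : ((II n : ℝ) + 1) ≤ L / (2 * h0) + 1 := by
        have : (II n : ℝ) ≤ L / (2 * h0) := by
          rw [le_div_iff₀ (by positivity)]
          nlinarith
        linarith
      calc xs h0 (II n) ^ (n + 1) * (3 * m) * (200 * (II n + 1))
          ≤ rexp (-rexp (ε0 * L)) * (3 * rexp (δ0 * L)) * (200 * (L / (2 * h0) + 1)) := by gcongr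
        _ = rexp (-rexp (ε0 * L)) * rexp (δ0 * L) * (600 * (L / (2 * h0) + 1)) := by ring
        _ ≤ rexp (-rexp (ε0 * L)) * rexp (δ0 * L) * rexp (600 * (L / (2 * h0) + 1)) := by
            gcongr
            have := add_one_le_exp (600 * (L / (2 * h0) + 1))
            linarith
        _ = rexp (-rexp (ε0 * L) + δ0 * L + 600 * (L / (2 * h0) + 1)) := by
            rw [exp_add, exp_add]
        _ ≤ rexp 0 := by
            apply exp_le_exp.2
            have : 600 * (L / (2 * h0) + 1) = 600 / (2 * h0) * L + 600 := by ring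
            linarith
        _ = 1 := exp_zero)
    (by
      have : (0 : ℝ) < (II n : ℝ) + 1 := by positivity
      rw [mul_one_div, div_le_div_iff₀ (by positivity) (by norm_num)]
      linarith)
    (xs_pow_ge hm1)
    (by
      have h1 := II0_bound hm1
      have h2 := one_sub_exp_pos
      calc 48 * (m : ℝ) * (rexp (-(II0 n * h0)) / (1 - rexp (-h0)))
          ≤ 48 * (m : ℝ) * (((1 - rexp (-h0)) / (4800 * m)) / (1 - rexp (-h0))) := by gcongr
        _ ≤ 1 / 100 := by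
            apply le_of_eq
            field_simp
            norm_num)
    (by
      have g1 : rexp (-√m) ≤ rexp (-(rexp (δ0 / 2 * L) / 2)) := exp_le_exp.2 (by linarith)
      have g2 : (5 * ((3 * n + 1 : ℕ) : ℝ)) ≤ 20 * n := by
        push_cast
        linarith
      calc rexp (-√m) * (5 * (3 * n + 1 : ℕ)) ≤ rexp (-(rexp (δ0 / 2 * L) / 2)) * (20 * n) :=
            mul_le_mul g1 g2 (by positivity) (exp_pos _).le
        _ = rexp (-(rexp (δ0 / 2 * L) / 2)) * (20 * rexp L) := by rw [hexpL]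
        _ < rexp (-(rexp (δ0 / 2 * L) / 2)) * (rexp 20 * rexp L) := by
            gcongr
            have := add_one_le_exp (20 : ℝ)
            linarith
        _ = rexp (-(rexp (δ0 / 2 * L) / 2) + 20 + L) := by rw [exp_add, exp_add]; ring
        _ ≤ rexp 0 := by
            apply exp_le_exp.2
            linarith
        _ = 1 := exp_zero)
    (by
      unfold TT
      apply mul_nonneg _ e9
      have : (1 : ℝ) / 2 ≤ 2 / π := by
        rw [div_le_div_iff₀ (by norm_num) pi_pos]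
        linarith [pi_lt_four]
      linarith)
    (by
      unfold TT MM
      rw [log_mul (by norm_num) hn0.ne', ← hL]
      have h3 : 0 < log 3 := log_pos (by norm_num)
      have h2 : 0 < 2 / π := by positivity
      have h4 : 0 < (2 / π + δ0 / 10) * log 3 := by positivity
      nlinarith)
    (by
      unfold TT MM
      rw [log_mul (by norm_num) hn0.ne', ← hL]
      have h3 : 0 < log 3 := log_pos (by norm_num)
      have h3' : log 3 ≤ 2 := by
        have := log_le_sub_one_of_pos (show (0 : ℝ) < 3 by norm_num)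
        linarith
      have hπ1 : 1 / π ≤ 32 / 100 := by
        rw [div_le_div_iff₀ pi_pos (by norm_num)]
        linarith [pi_gt_d2]
      have hπ0 : 0 < 1 / π := by positivity
      have e2π : 2 / π = 2 * (1 / π) := by ring
      have eφ : φ0 / π = (1 - ε0) * h0 * (1 / π) := by unfold φ0; ring
      rw [e2π, eφ]
      have a0 : (II n : ℝ) * h0 ≤ L / 2 := by
        refine hIle.trans ?_
        have : ε0 * L ≥ 0 := by positivity
        linarith
      have a2 : (2 - 2 * ε0 - 2 * δ0) * L - (8 * h0 + 2 * C1) ≤ (4 * (II n : ℝ) - 2 * II0 n) * h0 := by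
        linarith
      exact n2 hδ hδ4 rfl hh hC1 e9 hπ0 hπ1 a0 a2 h3 h3' e8')
    (by
      unfold TT MM
      rw [log_mul (by norm_num) hn0.ne', ← hL]
      have h3 : 0 < log 3 := log_pos (by norm_num)
      have h3' : log 3 ≤ 2 := by
        have := log_le_sub_one_of_pos (show (0 : ℝ) < 3 by norm_num)
        linarith
      have hπ1 : 2 / π ≤ 1 - 1 / 10 := by
        rw [div_le_iff₀ pi_pos]
        linarith [pi_gt_three]
      have hπ0 : 0 < 2 / π := by positivity
      exact n3 hδ hδ4 hπ0 hπ1 h3 h3' hJge hlogm2 (by linarith))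
    hcon.le
  have : ε0 * h0 < 1 / 16 := by
    unfold h0
    nlinarith
  linarith

end Pool.Agent.Lead.Kac
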